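import Pool.Agent.L7h66.SA.Dg
import Pool.Agent.TH723.AF.Op

/-!
# The algebra of a diagram

The definitions and proofs of this file follow `Pool/Agent/TH723/AF/Alg.lean`.
-/

set_option autoImplicit false
set_option linter.unusedSectionVars false

open scoped InnerProductSpace

namespace Pool.Agent.L7h66.SA

open Pool.Agent.TH723.AF

universe u v

variable {V : Type u} (D : Dg V)

namespace Dg

/-! ### partial bijections -/

open Classical in
/-- replace the head `a` by the head `b` -/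
noncomputable def Epf (k : ℕ) (a b w : Om) : Option Om :=
  if D.Val w ∧ Hd k w a ∧ D.Val (splice k b w) ∧ D.st b k = D.st w k then
    some (splice k b w) else none

variable {D}

lemma mem_Epf {k : ℕ} {a b w u : Om} : u ∈ D.Epf k a b w ↔
    D.Val w ∧ D.Val u ∧ Hd k w a ∧ Hd k u b ∧ D.Tl k u w := by
  unfold Epf
  split_ifs with h
  · simp only [Option.mem_def, Option.some.injEq]
    constructor
    · rintro rfl
      exact ⟨h.1, h.2.2.1, h.2.1, hd_splice _ _ _, tl_splice h.2.2.2⟩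
    · rintro ⟨-, -, -, h2, h3⟩
      exact splice_eq h2 h3.2
  · simp only [Option.mem_def, reduceCtorEq, false_iff]
    rintro ⟨h1, h2, h3, h4, h5⟩
    refine h ⟨h1, h3, ?_, ?_⟩
    · rw [splice_eq h4 h5.2]
      exact h2
    · exact (h4.at_eq (D := D)).symm.trans h5.1

variable (D)

/-- replace the head `a` by the head `b` -/
noncomputable def Ep (k : ℕ) (a b : Om) : Om ≃. Om where
  toFun := D.Epf k a b
  invFun := D.Epf k b a
  inv := by
    intro w u
    change w ∈ D.Epf k b a u ↔ u ∈ D.Epf k a b w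
    rw [mem_Epf, mem_Epf]
    constructor
    · rintro ⟨h1, h2, h3, h4, h5⟩
      exact ⟨h2, h1, h4, h3, h5.symm⟩
    · rintro ⟨h1, h2, h3, h4, h5⟩
      exact ⟨h2, h1, h4, h3, h5.symm⟩

open Classical in
/-- replace the tail `x` by the tail `y` -/
noncomputable def Dpf (k : ℕ) (x y w : Om) : Option Om :=
  if D.Val w ∧ D.Tl k w x ∧ D.Val (splice k w y) ∧ D.st w k = D.st y k then
    some (splice k w y) else none

variable {D}

lemma mem_Ep {k : ℕ} {a b w u : Om} : u ∈ D.Ep k a b w ↔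
    D.Val w ∧ D.Val u ∧ Hd k w a ∧ Hd k u b ∧ D.Tl k u w := mem_Epf

lemma Ep_symm (k : ℕ) (a b : Om) : (D.Ep k a b).symm = D.Ep k b a := rfl

lemma mem_Dpf {k : ℕ} {x y w u : Om} : u ∈ D.Dpf k x y w ↔
    D.Val w ∧ D.Val u ∧ D.Tl k w x ∧ Hd k u w ∧ D.Tl k u y := by
  unfold Dpf
  split_ifs with h
  · simp only [Option.mem_def, Option.some.injEq]
    constructor
    · rintro rfl
      exact ⟨h.1, h.2.2.1, h.2.1, hd_splice _ _ _, tl_splice h.2.2.2⟩
    · rintro ⟨-, -, -, h2, h3⟩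
      exact splice_eq h2 h3.2
  · simp only [Option.mem_def, reduceCtorEq, false_iff]
    rintro ⟨h1, h2, h3, h4, h5⟩
    refine h ⟨h1, h3, ?_, ?_⟩
    · rw [splice_eq h4 h5.2]
      exact h2
    · exact (h4.at_eq (D := D)).symm.trans h5.1

variable (D)

/-- replace the tail `x` by the tail `y` -/
noncomputable def Dp (k : ℕ) (x y : Om) : Om ≃. Om where
  toFun := D.Dpf k x y
  invFun := D.Dpf k y x
  inv := by
    intro w u
    change w ∈ D.Dpf k y x u ↔ u ∈ D.Dpf k x y w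
    rw [mem_Dpf, mem_Dpf]
    constructor
    · rintro ⟨h1, h2, h3, h4, h5⟩
      exact ⟨h2, h1, h5, h4.symm, h3⟩
    · rintro ⟨h1, h2, h3, h4, h5⟩
      exact ⟨h2, h1, h5, h4.symm, h3⟩

variable {D}

lemma mem_Dp {k : ℕ} {x y w u : Om} : u ∈ D.Dp k x y w ↔
    D.Val w ∧ D.Val u ∧ D.Tl k w x ∧ Hd k u w ∧ D.Tl k u y := mem_Dpf

lemma Dp_symm (k : ℕ) (x y : Om) : (D.Dp k x y).symm = D.Dp k y x := rfl

lemma pequiv_ext {f g : Om ≃. Om} (h : ∀ w u, u ∈ f w ↔ u ∈ g w) : f = g := by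
  apply PEquiv.ext
  intro w
  apply Option.ext
  intro u
  exact h w u

lemma Ep_Dp {k j : ℕ} (hkj : k ≤ j) (a b x y : Om) :
    (D.Ep k a b).trans (D.Dp j x y) = (D.Dp j x y).trans (D.Ep k a b) := by
  apply pequiv_ext
  intro w u
  rw [PEquiv.mem_trans, PEquiv.mem_trans]
  constructor
  · rintro ⟨m, h1, h2⟩
    rw [mem_Ep] at h1
    rw [mem_Dp] at h2
    obtain ⟨vw, vm, a1, a2, a3⟩ := h1
    obtain ⟨-, vu, b1, b2, b3⟩ := h2
    have h0 : D.st w j = D.st y j := by
      rw [← b3.1, b2.at_eq]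
      exact ((a3.mono hkj).1).symm
    have h1 : D.Tl j (splice j w y) y := tl_splice h0
    have h2 : Hd j (splice j w y) w := hd_splice _ _ _
    have h3 : D.Val (splice j w y) := val_of vw vu h2 (h1.trans b3.symm)
    refine ⟨splice j w y, ?_, ?_⟩
    · rw [mem_Dp]
      exact ⟨vw, h3, (a3.mono hkj).symm.trans b1, h2, h1⟩
    · rw [mem_Ep]
      refine ⟨h3, vu, (h2.mono hkj).trans a1, (b2.mono hkj).trans a2, ?_, ?_⟩
      · rw [(b2.mono hkj).at_eq, a3.1, (h2.mono hkj).at_eq]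
      · intro n hn
        rcases lt_or_ge n j with hj | hj
        · rw [b2 n hj, a3.2 n hn, h2 n hj]
        · rw [b3.2 n hj, h1.2 n hj]
  · rintro ⟨m, h1, h2⟩
    rw [mem_Dp] at h1
    rw [mem_Ep] at h2
    obtain ⟨vw, vm, a1, a2, a3⟩ := h1
    obtain ⟨-, vu, b1, b2, b3⟩ := h2
    have h0 : D.st u k = D.st w k := by
      rw [b3.1, (a2.mono hkj).at_eq]
    have h1 : D.Tl k (splice k u w) w := tl_splice h0
    have h2 : Hd k (splice k u w) u := hd_splice _ _ _
    have h3 : D.Val (splice k u w) := val_of vu vw h2 h1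
    refine ⟨splice k u w, ?_, ?_⟩
    · rw [mem_Ep]
      exact ⟨vw, h3, (a2.mono hkj).symm.trans b1, h2.trans b2, h1⟩
    · rw [mem_Dp]
      refine ⟨h3, vu, (h1.mono hkj).trans a1, ?_, (b3.mono hkj).trans a3⟩
      intro n hn
      rcases lt_or_ge n k with hj | hj
      · rw [h2 n hj]
      · rw [b3.2 n hj, a2 n hn, h1.2 n hj]

/-! ### the operators -/

variable {H : Type v} [NormedAddCommGroup H] [InnerProductSpace ℂ H] [CompleteSpace H]
  (b : HilbertBasis Om ℂ H)

variable (D)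

/-- the projection onto the valid paths in `A` -/
noncomputable def Q (A : Set Om) : H →L[ℂ] H :=
  op b (open Classical in PEquiv.ofSet {w : Om | D.Val w ∧ w ∈ A})

variable {D}

lemma Q_of_mem {A : Set Om} {w : Om} (hv : D.Val w) (h : w ∈ A) : D.Q b A (b w) = b w := by
  classical
  unfold Q
  apply op_of_some
  rw [PEquiv.ofSet_eq_some_self_iff]
  exact ⟨hv, h⟩

lemma Q_of_notMem {A : Set Om} {w : Om} (h : w ∉ A) : D.Q b A (b w) = 0 := by
  classical
  unfold Q
  apply op_of_none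
  exact if_neg fun h' => h h'.2

lemma Q_of_notVal {A : Set Om} {w : Om} (h : ¬ D.Val w) : D.Q b A (b w) = 0 := by
  classical
  unfold Q
  apply op_of_none
  exact if_neg fun h' => h h'.1

variable (D)

/-- the unit: the projection onto the valid paths -/
noncomputable def I1 : H →L[ℂ] H := D.Q b Set.univ

variable {D}

lemma I1_of_val {w : Om} (h : D.Val w) : D.I1 b (b w) = b w := Q_of_mem b h trivial

lemma I1_of_notVal {w : Om} (h : ¬ D.Val w) : D.I1 b (b w) = 0 := Q_of_notVal b h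

lemma star_Q (A : Set Om) : star (D.Q b A) = D.Q b A := by
  unfold Q
  rw [star_op, PEquiv.ofSet_symm]

lemma Q_mul_self (A : Set Om) : D.Q b A * D.Q b A = D.Q b A := by
  apply op_ext b
  intro w
  rw [mul_apply_eq_comp]
  by_cases h : D.Val w
  · by_cases h' : w ∈ A
    · rw [Q_of_mem b h h', Q_of_mem b h h']
    · rw [Q_of_notMem b h', map_zero]
  · rw [Q_of_notVal b h, map_zero]

lemma star_I1 : star (D.I1 b) = D.I1 b := star_Q b _

lemma I1_mul_self : D.I1 b * D.I1 b = D.I1 b := Q_mul_self b _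

variable (D)

/-- the algebra of stage `k` -/
noncomputable def F (k : ℕ) : NonUnitalStarSubalgebra ℂ (H →L[ℂ] H) where
  carrier := {T | (∀ j x y, k ≤ j → T * op b (D.Dp j x y) = op b (D.Dp j x y) * T) ∧
    D.I1 b * T = T ∧ T * D.I1 b = T}
  mul_mem' := by
    rintro T T' ⟨h1, h2, h3⟩ ⟨h1', h2', h3'⟩
    refine ⟨fun j x y hj => ?_, ?_, ?_⟩
    · rw [mul_assoc, h1' j x y hj, ← mul_assoc, h1 j x y hj, mul_assoc]
    · rw [← mul_assoc, h2]
    · rw [mul_assoc, h3']
  add_mem' := by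
    rintro T T' ⟨h1, h2, h3⟩ ⟨h1', h2', h3'⟩
    refine ⟨fun j x y hj => ?_, ?_, ?_⟩
    · rw [add_mul, mul_add, h1 j x y hj, h1' j x y hj]
    · rw [mul_add, h2, h2']
    · rw [add_mul, h3, h3']
  zero_mem' := ⟨fun _ _ _ _ => by rw [zero_mul, mul_zero], mul_zero _, zero_mul _⟩
  smul_mem' := by
    rintro c T ⟨h1, h2, h3⟩
    refine ⟨fun j x y hj => ?_, ?_, ?_⟩
    · rw [smul_mul_assoc, mul_smul_comm, h1 j x y hj]
    · rw [mul_smul_comm, h2]
    · rw [smul_mul_assoc, h3]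
  star_mem' := by
    rintro T ⟨h1, h2, h3⟩
    refine ⟨fun j x y hj => ?_, ?_, ?_⟩
    · have := congrArg star (h1 j y x hj)
      rw [star_mul, star_mul, star_op, Dp_symm] at this
      exact this.symm
    · have := congrArg star h3
      rwa [star_mul, star_I1] at this
    · have := congrArg star h2
      rwa [star_mul, star_I1] at this

variable {b} {D}

lemma mem_F {k : ℕ} {T : H →L[ℂ] H} : T ∈ D.F b k ↔
    (∀ j x y, k ≤ j → T * op b (D.Dp j x y) = op b (D.Dp j x y) * T) ∧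
      D.I1 b * T = T ∧ T * D.I1 b = T := Iff.rfl

lemma F_mono {k j : ℕ} (hkj : k ≤ j) : D.F b k ≤ D.F b j := by
  rintro T ⟨h1, h2, h3⟩
  exact ⟨fun i x y hi => h1 i x y (hkj.trans hi), h2, h3⟩

lemma F_closed (k : ℕ) : IsClosed (D.F b k : Set (H →L[ℂ] H)) := by
  have h : (D.F b k : Set (H →L[ℂ] H)) =
      (⋂ j, ⋂ x, ⋂ y, ⋂ (_ : k ≤ j),
        {T : H →L[ℂ] H | T * op b (D.Dp j x y) = op b (D.Dp j x y) * T}) ∩
        ({T | D.I1 b * T = T} ∩ {T | T * D.I1 b = T}) := by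
    ext T
    simp only [SetLike.mem_coe, mem_F, Set.mem_inter_iff, Set.mem_iInter, Set.mem_ofPred_eq]
  rw [h]
  refine IsClosed.inter ?_ (IsClosed.inter ?_ ?_)
  · refine isClosed_iInter fun j => isClosed_iInter fun x => isClosed_iInter fun y =>
      isClosed_iInter fun _ => ?_
    exact isClosed_eq (continuous_id.mul continuous_const) (continuous_const.mul continuous_id)
  · exact isClosed_eq (continuous_const.mul continuous_id) continuous_id
  · exact isClosed_eq (continuous_id.mul continuous_const) continuous_id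

variable (b) (D)

/-- the matrix unit which maps the head `a` to the head `c` -/
noncomputable def E (k : ℕ) (c a : Om) : H →L[ℂ] H := op b (D.Ep k a c)

variable {b} {D}

lemma E_of {k : ℕ} {c a w u : Om} (hw : D.Val w) (hu : D.Val u) (h1 : Hd k w a) (h2 : Hd k u c)
    (h3 : D.Tl k u w) : D.E b k c a (b w) = b u := op_of_some b (mem_Ep.2 ⟨hw, hu, h1, h2, h3⟩)

lemma E_of_not {k : ℕ} {c a w : Om} (h : ¬ (D.Val w ∧ Hd k w a)) : D.E b k c a (b w) = 0 := by
  apply op_of_none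
  rcases h' : D.Ep k a c w with _ | u
  · rfl
  · exact absurd ⟨(mem_Ep.1 h').1, (mem_Ep.1 h').2.2.1⟩ h

lemma star_E (k : ℕ) (c a : Om) : star (D.E b k c a) = D.E b k a c := by
  unfold E
  rw [star_op, Ep_symm]

lemma E_mem {k : ℕ} (c a : Om) : D.E b k c a ∈ D.F b k := by
  refine ⟨fun j x y hj => ?_, ?_, ?_⟩
  · unfold E
    rw [op_mul, op_mul, Ep_Dp hj]
  · apply op_ext b
    intro w
    rw [mul_apply_eq_comp]
    unfold E
    rcases h : D.Ep k a c w with _ | u
    · rw [op_of_none b h, map_zero]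
    · rw [op_of_some b h, I1_of_val]
      exact (mem_Ep.1 h).2.1
  · apply op_ext b
    intro w
    rw [mul_apply_eq_comp]
    by_cases hw : D.Val w
    · rw [I1_of_val b hw]
    · rw [I1_of_notVal b hw, map_zero, E_of_not fun h => hw h.1]

lemma I1_mem (k : ℕ) : D.I1 b ∈ D.F b k := by
  refine ⟨fun j x y hj => ?_, I1_mul_self b, I1_mul_self b⟩
  apply op_ext b
  intro w
  rw [mul_apply_eq_comp, mul_apply_eq_comp]
  rcases h : D.Dp j x y w with _ | u
  · rw [op_of_none b h, map_zero]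
    by_cases hw : D.Val w
    · rw [I1_of_val b hw, op_of_none b h]
    · rw [I1_of_notVal b hw, map_zero]
  · rw [op_of_some b h, I1_of_val b (mem_Dp.1 h).2.1, I1_of_val b (mem_Dp.1 h).1,
      op_of_some b h]

/-! ### matrix coefficients -/

lemma Dp_some {k : ℕ} {x y w u : Om} (vw : D.Val w) (vu : D.Val u) (h1 : D.Tl k w x)
    (h2 : Hd k u w) (h3 : D.Tl k u y) : D.Dp k x y w = some u := mem_Dp.2 ⟨vw, vu, h1, h2, h3⟩

lemma Dp_none {k : ℕ} {x y w : Om} (h1 : ¬ D.Tl k w x) : D.Dp k x y w = none := by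
  rcases h : D.Dp k x y w with _ | u
  · rfl
  · exact absurd (mem_Dp.1 h).2.2.1 h1

lemma Tl_tr {k : ℕ} {w' w : Om} (h : D.Tl k w' w) : D.Tl k (tr k w') (tr k w) := by
  refine ⟨?_, fun n hn => ?_⟩
  · rw [tr_at, tr_at, h.1]
  · rw [tr_tail _ _ hn, tr_tail _ _ hn]

lemma mc {k : ℕ} {T : H →L[ℂ] H} (hT : T ∈ D.F b k) {w' w : Om} (vw : D.Val w)
    (vw' : D.Val w') (h : D.Tl k w' w) :
    ⟪b w', T (b w)⟫_ℂ = ⟪b (tr k w'), T (b (tr k w))⟫_ℂ := by
  have h1 : op b (D.Dp k (tr k w) w) (b (tr k w)) = b w :=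
    op_of_some b (Dp_some (val_tr vw k) vw (Tl.refl _ _) (hd_tr k w).symm (Tl.refl _ _))
  have h2 := congrArg (fun D : H →L[ℂ] H => D (b (tr k w))) (hT.1 k (tr k w) w le_rfl)
  simp only [mul_apply_eq_comp, h1] at h2
  rw [h2, inner_op_symm, Dp_symm]
  rw [op_of_some b (Dp_some (u := tr k w') vw' (val_tr vw' k) h (hd_tr k w') (Tl_tr h))]

lemma mc_zero {k : ℕ} {T : H →L[ℂ] H} (hT : T ∈ D.F b k) {w' w : Om} (vw : D.Val w)
    (h : ¬ D.Tl k w' w) : ⟪b w', T (b w)⟫_ℂ = 0 := by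
  have h1 : op b (D.Dp k (tr k w) w) (b (tr k w)) = b w :=
    op_of_some b (Dp_some (val_tr vw k) vw (Tl.refl _ _) (hd_tr k w).symm (Tl.refl _ _))
  have h2 := congrArg (fun D : H →L[ℂ] H => D (b (tr k w))) (hT.1 k (tr k w) w le_rfl)
  simp only [mul_apply_eq_comp, h1] at h2
  rw [h2, inner_op_symm, Dp_symm, op_of_none b (Dp_none h), inner_zero_left]

lemma mc_right {k : ℕ} {T : H →L[ℂ] H} (hT : T ∈ D.F b k) {w : Om}
    (h : ¬ D.Val w) : T (b w) = 0 := by
  rw [← hT.2.2, mul_apply_eq_comp, I1_of_notVal b h, map_zero]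

lemma mc_left {k : ℕ} {T : H →L[ℂ] H} (hT : T ∈ D.F b k) {w : Om}
    (h : ¬ D.Val w) (x : H) : ⟪b w, T x⟫_ℂ = 0 := by
  have h1 : star T ∈ D.F b k := star_mem hT
  rw [← ContinuousLinearMap.adjoint_inner_left, ← ContinuousLinearMap.star_eq_adjoint,
    mc_right h1 h, inner_zero_left]

/-- an element of `F k` is determined by its coefficients at the heads -/
lemma F_ext {k : ℕ} {T T' : H →L[ℂ] H} (hT : T ∈ D.F b k) (hT' : T' ∈ D.F b k)
    (h : ∀ w ∈ D.P k, ∀ w' ∈ D.P k, ⟪b w', T (b w)⟫_ℂ = ⟪b w', T' (b w)⟫_ℂ) : T = T' := by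
  apply op_ext b
  intro w
  apply vec_ext b
  intro w'
  by_cases vw : D.Val w
  · by_cases vw' : D.Val w'
    · by_cases h1 : D.Tl k w' w
      · rw [mc hT vw vw' h1, mc hT' vw vw' h1]
        exact h (tr k w) (tr_mem_P vw k) (tr k w') (tr_mem_P vw' k)
      · rw [mc_zero hT vw h1, mc_zero hT' vw h1]
    · rw [mc_left hT vw', mc_left hT' vw']
  · rw [mc_right hT vw, mc_right hT' vw]

lemma F_finite (k : ℕ) : FiniteDimensional ℂ (D.F b k) := by
  have hG : Finite (D.P k) := P_finite k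
  let φ : D.F b k →ₗ[ℂ] (D.P k × D.P k → ℂ) :=
    { toFun := fun T q => ⟪b q.2.1, T.1 (b q.1.1)⟫_ℂ
      map_add' := by
        intro T T'
        funext q
        change ⟪b q.2.1, (T.1 + T'.1) (b q.1.1)⟫_ℂ = _
        rw [add_apply, inner_add_right]
        rfl
      map_smul' := by
        intro c T
        funext q
        change ⟪b q.2.1, (c • T.1) (b q.1.1)⟫_ℂ = _
        rw [smul_apply, inner_smul_right]
        rfl }
  apply FiniteDimensional.of_injective φ
  intro T T' h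
  apply Subtype.ext
  exact F_ext T.2 T'.2 fun w hw w' hw' => congrFun h (⟨w, hw⟩, ⟨w', hw'⟩)

/-! ### matrix units -/

lemma inner_E [DecidableEq Om] {k : ℕ} {c a w w' : Om} (hc : c ∈ D.P k) (ha : a ∈ D.P k)
    (hw : w ∈ D.P k) (hw' : w' ∈ D.P k) (hac : D.st c k = D.st a k) :
    ⟪b w', D.E b k c a (b w)⟫_ℂ = if w = a ∧ w' = c then 1 else 0 := by
  unfold E
  rw [inner_op]
  by_cases h : w = a ∧ w' = c
  · rw [if_pos h, if_pos]
    rw [h.1, h.2]
    refine mem_Ep.2 ⟨ha.1, hc.1, Hd.refl _ _, Hd.refl _ _, hac, fun n hn => ?_⟩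
    rw [hc.2 n hn, ha.2 n hn]
  · rw [if_neg h, if_neg]
    intro h2
    obtain ⟨h3, h4, h5, h6, h7⟩ := mem_Ep.1 h2
    exact h ⟨eq_of_P hw ha h5, eq_of_P hw' hc h6⟩

/-- the expansion of an element of `F k` -/
lemma F_sum (k : ℕ) {T : H →L[ℂ] H} (hT : T ∈ D.F b k) :
    T = ∑ a ∈ D.Pf k, ∑ c ∈ D.Pf k, ⟪b c, T (b a)⟫_ℂ • D.E b k c a := by
  classical
  apply F_ext hT
  · exact sum_mem fun a _ => sum_mem fun c _ => SMulMemClass.smul_mem _ (E_mem c a)
  · intro w hw w' hw'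
    simp only [sum_apply, inner_sum]
    rw [Finset.sum_eq_single w, Finset.sum_eq_single w']
    · rw [smul_apply, inner_smul_right]
      by_cases h1 : D.st w' k = D.st w k
      · rw [inner_E hw' hw hw hw' h1, if_pos ⟨rfl, rfl⟩, mul_one]
      · rw [mc_zero hT hw.1 (fun h2 => h1 h2.1), zero_mul]
    · intro c hc hcw
      rw [smul_apply, inner_smul_right]
      by_cases h1 : D.st c k = D.st w k
      · rw [inner_E (mem_Pf.1 hc) hw hw hw' h1, if_neg (fun h => hcw h.2.symm), mul_zero]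
      · rw [mc_zero hT hw.1 (fun h2 => h1 h2.1), zero_mul]
    · intro h1
      exact absurd (mem_Pf.2 hw') h1
    · intro a ha haw
      refine Finset.sum_eq_zero fun c hc => ?_
      rw [smul_apply, inner_smul_right]
      by_cases h1 : D.st c k = D.st a k
      · rw [inner_E (mem_Pf.1 hc) (mem_Pf.1 ha) hw hw' h1, if_neg (fun h => haw h.1.symm),
          mul_zero]
      · rw [mc_zero hT (mem_Pf.1 ha).1 (fun h2 => h1 h2.1), zero_mul]
    · intro h1
      exact absurd (mem_Pf.2 hw) h1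

lemma E_mul {k : ℕ} {c a d : Om} (va : D.Val a) (hca : D.st c k = D.st a k) :
    D.E b k c a * D.E b k a d = D.E b k c d := by
  unfold E
  rw [op_mul]
  congr 1
  apply pequiv_ext
  intro w u
  rw [PEquiv.mem_trans]
  constructor
  · rintro ⟨m, h1, h2⟩
    rw [mem_Ep] at h1 h2 ⊢
    exact ⟨h1.1, h2.2.1, h1.2.2.1, h2.2.2.2.1, h2.2.2.2.2.trans h1.2.2.2.2⟩
  · intro h1
    rw [mem_Ep] at h1
    obtain ⟨h2, h3, h4, h5, h6⟩ := h1
    have h0 : D.st a k = D.st w k := by rw [← hca, ← h5.at_eq, h6.1]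
    have h7 : D.Tl k (splice k a w) w := tl_splice h0
    have h8 : D.Val (splice k a w) := val_splice va h2 h0
    exact ⟨splice k a w, mem_Ep.2 ⟨h2, h8, h4, hd_splice _ _ _, h7⟩,
      mem_Ep.2 ⟨h8, h3, hd_splice _ _ _, h5, h6.trans h7.symm⟩⟩

lemma E_mul_zero {k : ℕ} {c a a' d : Om} (h : ¬ Hd k a a') :
    D.E b k c a * D.E b k a' d = 0 := by
  apply op_ext b
  intro w
  rw [mul_apply_eq_comp, zero_apply]
  rcases h' : D.Ep k d a' w with _ | u
  · have : D.E b k a' d (b w) = 0 := op_of_none b h'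
    rw [this, map_zero]
  · have : D.E b k a' d (b w) = b u := op_of_some b h'
    rw [this]
    apply E_of_not
    rintro ⟨-, h2⟩
    exact h (h2.symm.trans (mem_Ep.1 h').2.2.2.1)

/-- a matrix unit is a sum of matrix units of the next level -/
lemma E_succ {k : ℕ} {c a : Om} (hc : D.Val c) (hca : D.st c k = D.st a k) :
    D.E b k c a = ∑ i ∈ Finset.range (D.od k (D.st a k)), D.E b (k + 1) (ext k c i) (ext k a i) := by
  apply op_ext b
  intro w
  rw [sum_apply]
  by_cases h : D.Val w ∧ Hd k w a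
  · obtain ⟨vw, hw⟩ := h
    have h0 : D.st c k = D.st w k := by rw [hca, hw.at_eq]
    have h1 : D.Tl k (splice k c w) w := tl_splice h0
    have h2 : D.Val (splice k c w) := val_splice hc vw h0
    rw [E_of vw h2 hw (hd_splice _ _ _) h1]
    have h3 : w k ∈ Finset.range (D.od k (D.st a k)) := by
      rw [Finset.mem_range, ← hw.at_eq]
      exact vw k
    rw [Finset.sum_eq_single_of_mem _ h3]
    · rw [E_of vw h2 (hd_ext_iff.2 ⟨hw, rfl⟩) (hd_ext_iff.2 ⟨hd_splice _ _ _, h1.2 k le_rfl⟩)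
        (h1.mono (Nat.le_succ k))]
    · intro i _ hi
      apply E_of_not
      rintro ⟨-, h4⟩
      exact hi (hd_ext_iff.1 h4).2.symm
  · rw [E_of_not h]
    symm
    refine Finset.sum_eq_zero fun i _ => E_of_not fun h1 => h ⟨h1.1, (hd_ext_iff.1 h1.2).1⟩

lemma E_congr {k : ℕ} {c a c' a' : Om} (hc : Hd k c c') (ha : Hd k a a') :
    D.E b k c a = D.E b k c' a' := by
  unfold E
  congr 1
  apply pequiv_ext
  intro w u
  rw [mem_Ep, mem_Ep]
  constructor
  · rintro ⟨h1, h2, h3, h4, h5⟩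
    exact ⟨h1, h2, h3.trans ha, h4.trans hc, h5⟩
  · rintro ⟨h1, h2, h3, h4, h5⟩
    exact ⟨h1, h2, h3.trans ha.symm, h4.trans hc.symm, h5⟩

lemma sum_E (k : ℕ) : ∑ a ∈ D.Pf k, D.E b k a a = D.I1 b := by
  apply op_ext b
  intro w
  rw [sum_apply]
  by_cases vw : D.Val w
  · rw [I1_of_val b vw, Finset.sum_eq_single_of_mem (tr k w) (mem_Pf.2 (tr_mem_P vw k))]
    · exact E_of vw vw (hd_tr k w).symm (hd_tr k w).symm (Tl.refl _ _)
    · intro a ha hne
      apply E_of_not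
      rintro ⟨-, h⟩
      exact hne (tr_eq h.symm (mem_Pf.1 ha).2).symm
  · rw [I1_of_notVal b vw]
    exact Finset.sum_eq_zero fun a _ => E_of_not fun h => vw h.1

lemma E_ne_zero {k : ℕ} {c a : Om} (hc : D.Val c) (ha : D.Val a) (h : D.st c k = D.st a k) :
    D.E b k c a ≠ 0 := by
  intro h0
  have h1 := congrArg (fun T : H →L[ℂ] H => T (b a)) h0
  simp only [zero_apply] at h1
  rw [E_of ha (val_splice hc ha h) (Hd.refl _ _) (hd_splice _ _ _) (tl_splice h)] at h1
  have h3 := norm_b b (splice k c a)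
  rw [h1, norm_zero] at h3
  exact zero_ne_one h3

end Dg

end Pool.Agent.L7h66.SA
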