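import Pool.Agent.L7h66.SA.Dia

/-!
# Measurability
-/

set_option autoImplicit false
set_option linter.unusedSectionVars false

open scoped InnerProductSpace

namespace Pool.Agent.L7h66.SA

open Pool.Agent.TH723.AF (op_ext vec_ext op_of_some op_of_none op norm_b inner_op_symm inner_b
  opl inner_op)

universe u v w

/-! ### functions with values in countable types -/

section ms

variable {X : Type u} [MeasurableSpace X]

/-- the fibers are measurable -/
def Ms {α : Type v} (f : X → α) : Prop := ∀ a, MeasurableSet {x | f x = a}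

lemma Ms.const {α : Type v} (a : α) : Ms (fun _ : X => a) := by
  intro c
  by_cases h : a = c
  · have : {_x : X | a = c} = Set.univ := by ext; simp [h]
    rw [this]
    exact MeasurableSet.univ
  · have : {_x : X | a = c} = ∅ := by ext; simp [h]
    rw [this]
    exact MeasurableSet.empty

lemma Ms.comp {α : Type v} {β : Type w} [Countable α] {f : X → α} (hf : Ms f) {g : X → α → β}
    (hg : ∀ a, Ms fun x => g x a) : Ms fun x => g x (f x) := by
  intro c
  have : {x | g x (f x) = c} = ⋃ a, {x | f x = a} ∩ {x | g x a = c} := by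
    ext x
    simp only [Set.mem_iUnion]
    constructor
    · intro h
      exact ⟨f x, rfl, h⟩
    · rintro ⟨a, h1, h2⟩
      change f x = a at h1
      subst h1
      exact h2
  rw [this]
  exact MeasurableSet.iUnion fun a => (hf a).inter (hg a c)

lemma Ms.map {α : Type v} {β : Type w} [Countable α] {f : X → α} (hf : Ms f) (g : α → β) :
    Ms fun x => g (f x) := hf.comp (g := fun _ a => g a) fun a => Ms.const (g a)

lemma Ms.set {α : Type v} [Countable α] {f : X → α} (hf : Ms f) (P : α → Prop) :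
    MeasurableSet {x | P (f x)} := by
  have : {x | P (f x)} = ⋃ a : {a // P a}, {x | f x = a} := by
    ext x
    simp only [Set.mem_iUnion]
    constructor
    · intro h
      exact ⟨⟨f x, h⟩, rfl⟩
    · rintro ⟨a, h1⟩
      change f x = a at h1
      change P (f x)
      rw [h1]
      exact a.2
  rw [this]
  exact MeasurableSet.iUnion fun a => hf a

end ms

/-! ### the diagram -/

section diag

variable {X : Type u} [MeasurableSpace X] {V : Type v} [Countable V] {D : X → Dg V}

lemma Ms_st (hr : Ms fun x => (D x).r) (hel : ∀ k v, Ms fun x => (D x).el k v) (w : ℕ → ℕ)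
    (k : ℕ) : Ms fun x => (D x).st w k := by
  induction k with
  | zero => exact hr
  | succ k ih =>
    have h1 : Ms fun x => ((D x).el k ((D x).st w k), (D x).r) := by
      refine Ms.comp (g := fun x v => ((D x).el k v, (D x).r)) ih fun v => ?_
      refine Ms.comp (g := fun x l => (l, (D x).r)) (hel k v) fun l => ?_
      exact Ms.comp (g := fun _ r => (l, r)) hr fun r => Ms.const _
    exact h1.map fun q => q.1.getD (w k) q.2

lemma measurable_val (hr : Ms fun x => (D x).r) (hel : ∀ k v, Ms fun x => (D x).el k v)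
    (w : Om) : MeasurableSet {x | (D x).Val w} := by
  have : {x | (D x).Val w} = ⋂ n, {x | w n < ((D x).el n ((D x).st w n)).length} := by
    ext x
    simp only [Set.mem_iInter]
    exact Iff.rfl
  rw [this]
  refine MeasurableSet.iInter fun n => ?_
  have h1 : Ms fun x => (D x).el n ((D x).st w n) :=
    Ms.comp (g := fun x v => (D x).el n v) (Ms_st hr hel w n) fun v => hel n v
  exact h1.set fun l => w n < l.length

lemma measurable_Ep (hr : Ms fun x => (D x).r) (hel : ∀ k v, Ms fun x => (D x).el k v)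
    (k : ℕ) (a c w u : Om) : MeasurableSet {x | u ∈ (D x).Ep k a c w} := by
  have : {x | u ∈ (D x).Ep k a c w} = {x | (D x).Val w} ∩ ({x | (D x).Val u} ∩
      ({_x | Hd k w a ∧ Hd k u c ∧ ∀ n, k ≤ n → u n = w n} ∩
        {x | (D x).st u k = (D x).st w k})) := by
    ext x
    simp only [Set.mem_inter_iff, Set.mem_ofPred_eq, Dg.mem_Ep]
    unfold Dg.Tl
    tauto
  rw [this]
  refine (measurable_val hr hel w).inter ((measurable_val hr hel u).inter
    (MeasurableSet.inter ?_ ?_))
  · exact MeasurableSet.const _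
  · have h1 : Ms fun x => ((D x).st u k, (D x).st w k) :=
      Ms.comp (g := fun x v => (v, (D x).st w k)) (Ms_st hr hel u k) fun v =>
        Ms.comp (g := fun _ r => (v, r)) (Ms_st hr hel w k) fun r => Ms.const _
    exact h1.set fun q => q.1 = q.2

end diag

/-! ### the diagram of a group -/

section grp

variable {X : Type u} [MeasurableSpace X] {Γ : Type v} [AddCommGroup Γ] [Module ℚ Γ]
  [Countable Γ] {s : Γ →ₗ[ℚ] ℚ}

lemma Ms_Ss (e : ℕ → Γ) {G : X → Set Γ} (hG : ∀ g, MeasurableSet {x | g ∈ G x}) (j : ℕ) :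
    Ms fun x => Ss s e (G x) j := by
  classical
  intro F
  have : {x | Ss s e (G x) j = F} =
      ⋂ a : Γ, {x | ((∃ i ≤ j, e i = a) ∧ a ∈ G x ∧ 0 < s a) ↔ a ∈ F} := by
    ext x
    simp only [Set.mem_iInter, Set.mem_ofPred_eq]
    rw [Finset.ext_iff]
    exact forall_congr' fun a => by rw [mem_Ss]
  rw [this]
  refine MeasurableSet.iInter fun a => ?_
  have h1 : MeasurableSet {x | (∃ i ≤ j, e i = a) ∧ a ∈ G x ∧ 0 < s a} := by
    have : {x | (∃ i ≤ j, e i = a) ∧ a ∈ G x ∧ 0 < s a} =
        {_x | ∃ i ≤ j, e i = a} ∩ ({x | a ∈ G x} ∩ {_x | 0 < s a}) := rfl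
    rw [this]
    exact (MeasurableSet.const _).inter ((hG a).inter (MeasurableSet.const _))
  by_cases ha : a ∈ F
  · simpa only [ha, iff_true] using h1
  · have h2 : {x | ((∃ i ≤ j, e i = a) ∧ a ∈ G x ∧ 0 < s a) ↔ a ∈ F} =
        {x | (∃ i ≤ j, e i = a) ∧ a ∈ G x ∧ 0 < s a}ᶜ := by
      ext x
      simp only [ha, iff_false]
      rfl
    rw [h2]
    exact h1.compl

lemma Ms_Bs (e : ℕ → Γ) (u : Γ) {G : X → Set Γ} (hG : ∀ g, MeasurableSet {x | g ∈ G x}) (j : ℕ) :
    Ms fun x => Bs s u (Ss s e (G x)) j := by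
  classical
  induction j with
  | zero => exact Ms.const _
  | succ j ih =>
    refine Ms.comp (g := fun x B => Fb s (B ∪ Ss s e (G x) j)) ih fun B => ?_
    exact (Ms_Ss e hG j).map fun S => Fb s (B ∪ S)

lemma Ms_DG (e : ℕ → Γ) (u : Γ) {G : X → Set Γ} (hG : ∀ g, MeasurableSet {x | g ∈ G x}) (k : ℕ)
    (v : Γ) : Ms fun x => (DG s e u (G x)).el k v := by
  classical
  exact (Ms_Bs e u hG (k + 1)).map fun B => if lst B v = [] then [v] else lst B v

end grp

/-! ### subgroups generated by sets -/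

lemma mem_closure_finset {Γ : Type v} [AddCommGroup Γ] {S : Set Γ} {g : Γ}
    (hg : g ∈ AddSubgroup.closure S) :
    ∃ F : Finset Γ, (∀ a ∈ F, a ∈ S) ∧ g ∈ AddSubgroup.closure (F : Set Γ) := by
  classical
  induction hg using AddSubgroup.closure_induction with
  | mem x hx =>
    exact ⟨{x}, fun a ha => by rw [Finset.mem_singleton.1 ha]; exact hx,
      AddSubgroup.subset_closure (by simp)⟩
  | zero => exact ⟨∅, fun a ha => by simp at ha, zero_mem _⟩
  | add x y _ _ hx hy =>
    obtain ⟨F, h1, h2⟩ := hx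
    obtain ⟨F', h3, h4⟩ := hy
    refine ⟨F ∪ F', fun a ha => ?_, add_mem ?_ ?_⟩
    · rcases Finset.mem_union.1 ha with h | h
      · exact h1 a h
      · exact h3 a h
    · exact AddSubgroup.closure_mono (by simp) h2
    · exact AddSubgroup.closure_mono (by simp) h4
  | neg x _ hx =>
    obtain ⟨F, h1, h2⟩ := hx
    exact ⟨F, h1, neg_mem h2⟩

lemma measurable_closure {X : Type u} [MeasurableSpace X] {Γ : Type v} [AddCommGroup Γ]
    [Countable Γ] {S : X → Set Γ} (hS : ∀ g, MeasurableSet {x | g ∈ S x}) (g : Γ) :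
    MeasurableSet {x | g ∈ AddSubgroup.closure (S x)} := by
  have : {x | g ∈ AddSubgroup.closure (S x)} =
      ⋃ F : {F : Finset Γ // g ∈ AddSubgroup.closure (F : Set Γ)},
        ⋂ a : {a // a ∈ F.1}, {x | a.1 ∈ S x} := by
    ext x
    simp only [Set.mem_iUnion, Set.mem_iInter, Set.mem_ofPred_eq]
    constructor
    · intro h
      obtain ⟨F, h1, h2⟩ := mem_closure_finset h
      exact ⟨⟨F, h2⟩, fun a => h1 a.1 a.2⟩
    · rintro ⟨F, hF⟩
      have : (F.1 : Set Γ) ⊆ S x := fun a ha => hF ⟨a, ha⟩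
      exact AddSubgroup.closure_mono this F.2
  rw [this]
  exact MeasurableSet.iUnion fun F => MeasurableSet.iInter fun a => hS a.1

/-! ### the weak operator topology -/

section wot

variable {H : Type v} [NormedAddCommGroup H] [InnerProductSpace ℂ H] [CompleteSpace H]

/-- The Borel structure of the weak operator topology on `B(H)`. -/
noncomputable def wotB : MeasurableSpace (H →L[ℂ] H) :=
  @borel (H →L[ℂ] H)
    (TopologicalSpace.induced (fun (T : H →L[ℂ] H) (q : H × H) => ⟪q.1, T q.2⟫_ℂ) inferInstance)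

variable {ι : Type w} [Countable ι] (b : HilbertBasis ι ℂ H)

/-- the coefficients -/
noncomputable def cff (T : {T : H →L[ℂ] H // ‖T‖ ≤ 1}) (q : ι × ι) : ℂ := ⟪b q.1, T.1 (b q.2)⟫_ℂ

/-- the topology of the coefficients -/
noncomputable def tpc : TopologicalSpace {T : H →L[ℂ] H // ‖T‖ ≤ 1} :=
  TopologicalSpace.induced (cff b) inferInstance

/-- closedness under uniform limits -/
lemma cont_closed {Y : Type v} [TopologicalSpace Y] (F : Y → H → ℂ)
    (hadd : ∀ y p q, F y (p + q) = F y p + F y q)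
    (hbd : ∀ y q, ‖F y q‖ ≤ ‖q‖) (hneg : ∀ y q, F y (-q) = - F y q) {S : Set H}
    (hS : ∀ q ∈ S, Continuous fun y => F y q) {q : H} (hq : q ∈ closure S) :
    Continuous fun y => F y q := by
  refine continuous_of_uniform_approx_of_continuous fun u hu => ?_
  obtain ⟨ε, hε, hεu⟩ := Metric.mem_uniformity_dist.1 hu
  obtain ⟨q', hq', hd⟩ := Metric.mem_closure_iff.1 hq ε hε
  refine ⟨fun y => F y q', hS q' hq', fun y => hεu ?_⟩
  rw [dist_eq_norm]
  have h1 : F y q - F y q' = F y (q - q') := by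
    rw [sub_eq_add_neg q q', hadd, hneg]
    ring
  rw [h1]
  rw [dist_eq_norm] at hd
  exact (hbd y _).trans_lt hd

lemma cont_inner (p q : H) : @Continuous {T : H →L[ℂ] H // ‖T‖ ≤ 1} ℂ (tpc b) _
    (fun T => ⟪p, T.1 q⟫_ℂ) := by
  let _ : TopologicalSpace {T : H →L[ℂ] H // ‖T‖ ≤ 1} := tpc b
  have h0 : ∀ i j, Continuous fun T : {T : H →L[ℂ] H // ‖T‖ ≤ 1} => ⟪b i, T.1 (b j)⟫_ℂ := by
    intro i j
    have h1 : Continuous (cff b) := continuous_induced_dom
    exact (continuous_apply (i, j)).comp h1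
  have hdense : ∀ x : H, x ∈ closure ((Submodule.span ℂ (Set.range b) : Submodule ℂ H) : Set H) := by
    intro x
    have := b.dense_span
    have h1 : x ∈ (Submodule.span ℂ (Set.range b)).topologicalClosure := by rw [this]; trivial
    exact h1
  -- first variable
  have h1 : ∀ (p : H) (j : ι), Continuous fun T : {T : H →L[ℂ] H // ‖T‖ ≤ 1} =>
      ⟪p, T.1 (b j)⟫_ℂ := by
    intro p j
    refine cont_closed (fun (T : {T : H →L[ℂ] H // ‖T‖ ≤ 1}) (p : H) => ⟪p, T.1 (b j)⟫_ℂ)
      (fun T p q => inner_add_left _ _ _) ?_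
      (fun T q => inner_neg_left _ _)
      (S := ((Submodule.span ℂ (Set.range b) : Submodule ℂ H) : Set H)) ?_ (hdense p)
    · intro T q
      calc ‖⟪q, T.1 (b j)⟫_ℂ‖ ≤ ‖q‖ * ‖T.1 (b j)‖ := norm_inner_le_norm _ _
        _ ≤ ‖q‖ * (‖T.1‖ * ‖b j‖) := by gcongr; exact T.1.le_opNorm _
        _ ≤ ‖q‖ * (1 * 1) := by
            gcongr
            · exact T.2
            · exact (norm_b b j).le
        _ = ‖q‖ := by ring
    · intro q hq
      induction hq using Submodule.span_induction with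
      | mem x hx =>
        obtain ⟨i, rfl⟩ := hx
        exact h0 i j
      | zero => simpa using continuous_const
      | add x y _ _ hx hy =>
        simp only [inner_add_left]
        exact hx.add hy
      | smul c x _ hx =>
        simp only [inner_smul_left]
        exact continuous_const.mul hx
  -- second variable
  by_cases hp : p = 0
  · subst hp
    simpa using continuous_const
  have hp0 : 0 < ‖p‖ := norm_pos_iff.2 hp
  have h2 : Continuous fun T : {T : H →L[ℂ] H // ‖T‖ ≤ 1} => (‖p‖ : ℂ)⁻¹ * ⟪p, T.1 q⟫_ℂ := by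
    refine cont_closed (fun (T : {T : H →L[ℂ] H // ‖T‖ ≤ 1}) (q : H) =>
        (‖p‖ : ℂ)⁻¹ * ⟪p, T.1 q⟫_ℂ) ?_ ?_ ?_
      (S := ((Submodule.span ℂ (Set.range b) : Submodule ℂ H) : Set H)) ?_ (hdense q)
    · intro T x y
      rw [map_add, inner_add_right]
      ring
    · intro T q
      rw [norm_mul, norm_inv, Complex.norm_real, norm_norm]
      have h3 : ‖⟪p, T.1 q⟫_ℂ‖ ≤ ‖p‖ * ‖q‖ := by
        calc ‖⟪p, T.1 q⟫_ℂ‖ ≤ ‖p‖ * ‖T.1 q‖ := norm_inner_le_norm _ _
          _ ≤ ‖p‖ * (‖T.1‖ * ‖q‖) := by gcongr; exact T.1.le_opNorm _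
          _ ≤ ‖p‖ * (1 * ‖q‖) := by
              gcongr
              exact T.2
          _ = ‖p‖ * ‖q‖ := by ring
      calc ‖p‖⁻¹ * ‖⟪p, T.1 q⟫_ℂ‖ ≤ ‖p‖⁻¹ * (‖p‖ * ‖q‖) := by gcongr
        _ = ‖q‖ := by field_simp
    · intro T q
      rw [map_neg, inner_neg_right]
      ring
    · intro q hq
      induction hq using Submodule.span_induction with
      | mem x hx =>
        obtain ⟨i, rfl⟩ := hx
        exact continuous_const.mul (h1 p i)
      | zero => simpa using continuous_const
      | add x y _ _ hx hy =>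
        simp only [map_add, inner_add_right, mul_add]
        exact hx.add hy
      | smul c x _ hx =>
        have h3 : (fun T : {T : H →L[ℂ] H // ‖T‖ ≤ 1} => (‖p‖ : ℂ)⁻¹ * ⟪p, T.1 (c • x)⟫_ℂ) =
            fun T => c * ((‖p‖ : ℂ)⁻¹ * ⟪p, T.1 x⟫_ℂ) := by
          funext T
          rw [map_smul, inner_smul_right]
          ring
        rw [h3]
        exact continuous_const.mul hx
  have hpc : (‖p‖ : ℂ) ≠ 0 := by exact_mod_cast hp0.ne'
  have h3 : (fun T : {T : H →L[ℂ] H // ‖T‖ ≤ 1} => ⟪p, T.1 q⟫_ℂ) =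
      fun T => (‖p‖ : ℂ) * ((‖p‖ : ℂ)⁻¹ * ⟪p, T.1 q⟫_ℂ) := by
    funext T
    rw [← mul_assoc, mul_inv_cancel₀ hpc, one_mul]
  rw [h3]
  exact continuous_const.mul h2

/-- measurability in the weak operator topology from measurability of the coefficients -/
theorem measurable_wot {X : Type u} [MeasurableSpace X] {f : X → (H →L[ℂ] H)}
    (hf : ∀ x, ‖f x‖ ≤ 1) (hm : ∀ i j, Measurable fun x => ⟪b i, f x (b j)⟫_ℂ) :
    @Measurable X (H →L[ℂ] H) _ wotB f := by
  let f' : X → {T : H →L[ℂ] H // ‖T‖ ≤ 1} := fun x => ⟨f x, hf x⟩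
  let c : X → (ι × ι → ℂ) := fun x => cff b (f' x)
  have hc : Measurable c := measurable_pi_lambda _ fun q => hm q.1 q.2
  let τ : TopologicalSpace (H →L[ℂ] H) :=
    TopologicalSpace.induced (fun (T : H →L[ℂ] H) (q : H × H) => ⟪q.1, T q.2⟫_ℂ) inferInstance
  have key : ∀ U : Set (H →L[ℂ] H), @IsOpen _ τ U → MeasurableSet (f ⁻¹' U) := by
    intro U hU
    let _ : TopologicalSpace {T : H →L[ℂ] H // ‖T‖ ≤ 1} := tpc b
    have hg : @Continuous {T : H →L[ℂ] H // ‖T‖ ≤ 1} (H →L[ℂ] H) _ τ Subtype.val := by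
      rw [continuous_induced_rng]
      refine continuous_pi fun q => ?_
      exact cont_inner b q.1 q.2
    have h1 : IsOpen (Subtype.val ⁻¹' U : Set {T : H →L[ℂ] H // ‖T‖ ≤ 1}) := hU.preimage hg
    obtain ⟨O, hO, hOU⟩ := isOpen_induced_iff.1 h1
    have h2 : f ⁻¹' U = c ⁻¹' O := by
      have h3 : f ⁻¹' U = f' ⁻¹' (Subtype.val ⁻¹' U) := rfl
      rw [h3, ← hOU]
      rfl
    rw [h2]
    exact hc hO.measurableSet
  have hwot : (wotB : MeasurableSpace (H →L[ℂ] H)) = MeasurableSpace.generateFrom {U | @IsOpen _ τ U} := rfl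
  rw [hwot]
  exact measurable_generateFrom fun U hU => key U hU

lemma norm_op_le (f : ι ≃. ι) : ‖op b f‖ ≤ 1 := by
  refine ContinuousLinearMap.opNorm_le_bound _ zero_le_one fun x => ?_
  have h1 : ‖op b f x‖ = ‖opl f (b.repr x)‖ := by
    change ‖b.repr.symm (opl f (b.repr x))‖ = _
    exact LinearIsometryEquiv.norm_map _ _
  have h2 : ‖opl f‖ ≤ 1 := LinearMap.mkContinuous_norm_le _ zero_le_one _
  rw [h1]
  calc ‖opl f (b.repr x)‖ ≤ ‖opl f‖ * ‖b.repr x‖ := (opl f).le_opNorm _
    _ ≤ 1 * ‖x‖ := by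
        rw [LinearIsometryEquiv.norm_map]
        gcongr

/-- measurability of operators of partial injections -/
theorem measurable_op {X : Type u} [MeasurableSpace X] {f : X → (ι ≃. ι)}
    (hm : ∀ i j, MeasurableSet {x | j ∈ f x i}) :
    @Measurable X (H →L[ℂ] H) _ wotB (fun x => op b (f x)) := by
  classical
  refine measurable_wot b (fun x => norm_op_le b (f x)) fun i j => ?_
  have h1 : (fun x => ⟪b i, op b (f x) (b j)⟫_ℂ) = fun x => if i ∈ f x j then (1 : ℂ) else 0 := by
    funext x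
    rw [inner_op]
    rfl
  rw [h1]
  exact Measurable.ite (hm j i) measurable_const measurable_const

end wot

end Pool.Agent.L7h66.SA
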