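import Mathlib

/-!
# Ranks of projections

The rank of a projection `p` at a projection `R` of finite rank which commutes with `p`.
The proofs of this file follow `Pool/Agent/TH723/AF/Rank.lean`.
-/

set_option autoImplicit false
set_option linter.unusedSectionVars false

open scoped InnerProductSpace

namespace Pool.Agent.L7h66.SA

universe v

variable {H : Type v} [NormedAddCommGroup H] [InnerProductSpace ℂ H] [CompleteSpace H]

/-- projections -/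
structure Pj (p : H →L[ℂ] H) : Prop where
  mul : p * p = p
  st : star p = p

lemma Pj.inner {p : H →L[ℂ] H} (h : Pj p) (x y : H) : ⟪p x, y⟫_ℂ = ⟪x, p y⟫_ℂ := by
  have := ContinuousLinearMap.adjoint_inner_right p x y
  rw [← ContinuousLinearMap.star_eq_adjoint, h.st] at this
  exact this.symm

lemma Pj.app {p : H →L[ℂ] H} (h : Pj p) (x : H) : p (p x) = p x := by
  conv_rhs => rw [← h.mul]
  rfl

lemma Pj.normsq {p : H →L[ℂ] H} (h : Pj p) (x : H) : RCLike.re ⟪p x, x⟫_ℂ = ‖p x‖ ^ 2 := by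
  rw [← inner_self_eq_norm_sq (𝕜 := ℂ) (p x), ← h.inner (p x) x, h.app]

lemma Pj.norm_le {p : H →L[ℂ] H} (h : Pj p) (x : H) : ‖p x‖ ≤ ‖x‖ := by
  have h1 := h.normsq x
  have h2 : RCLike.re ⟪p x, x⟫_ℂ ≤ ‖p x‖ * ‖x‖ := re_inner_le_norm _ _
  by_contra h3
  push Not at h3
  nlinarith [norm_nonneg x, norm_nonneg (p x)]

lemma Pj.norm_le_one {p : H →L[ℂ] H} (h : Pj p) : ‖p‖ ≤ 1 :=
  ContinuousLinearMap.opNorm_le_bound _ zero_le_one fun x => by rw [one_mul]; exact h.norm_le x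

/-- the range of `p` in the range of `R` -/
def U (R p : H →L[ℂ] H) : Submodule ℂ H where
  carrier := {x | R x = x ∧ p x = x}
  add_mem' := by
    rintro x y ⟨h1, h2⟩ ⟨h3, h4⟩
    exact ⟨by rw [map_add, h1, h3], by rw [map_add, h2, h4]⟩
  zero_mem' := ⟨map_zero _, map_zero _⟩
  smul_mem' := by
    rintro c x ⟨h1, h2⟩
    exact ⟨by rw [map_smul, h1], by rw [map_smul, h2]⟩

/-- the rank of `p` at `R` -/
noncomputable def rank (R p : H →L[ℂ] H) : ℕ := Module.finrank ℂ (U R p)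

lemma mem_U {R p : H →L[ℂ] H} {x : H} : x ∈ U R p ↔ R x = x ∧ p x = x := Iff.rfl

lemma U_finite {R : H →L[ℂ] H} (hR : FiniteDimensional ℂ (LinearMap.range (R : H →ₗ[ℂ] H)))
    (p : H →L[ℂ] H) : FiniteDimensional ℂ (U R p) := by
  refine Submodule.finiteDimensional_of_le (S₂ := LinearMap.range (R : H →ₗ[ℂ] H)) ?_
  intro x hx
  exact ⟨x, hx.1⟩

variable {R p q w p₁ p₂ : H →L[ℂ] H}

lemma abs_re_inner_le {T : H →L[ℂ] H} {δ : ℝ} (h : ‖T‖ ≤ δ) (x : H) :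
    |RCLike.re ⟪T x, x⟫_ℂ| ≤ δ * ‖x‖ ^ 2 := by
  have h1 : |RCLike.re ⟪T x, x⟫_ℂ| ≤ ‖T x‖ * ‖x‖ :=
    (RCLike.abs_re_le_norm _).trans (norm_inner_le_norm _ _)
  have h2 : ‖T x‖ ≤ δ * ‖x‖ := (T.le_opNorm x).trans (by gcongr)
  calc |RCLike.re ⟪T x, x⟫_ℂ| ≤ ‖T x‖ * ‖x‖ := h1
    _ ≤ (δ * ‖x‖) * ‖x‖ := by gcongr
    _ = δ * ‖x‖ ^ 2 := by ring

lemma mul_app (S T : H →L[ℂ] H) (x : H) : (S * T) x = S (T x) := rfl

lemma rank_le (hR : FiniteDimensional ℂ (LinearMap.range (R : H →ₗ[ℂ] H)))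
    (hq : ∀ x, q (R x) = R (q x)) (hqj : Pj q) (hw : ∀ x, w (R x) = R (w x)) {δ : ℝ}
    (hδ : δ < 1 / 2) (h1 : ‖star w * w - p‖ ≤ δ) (h2 : ‖w * star w - q‖ ≤ δ) :
    rank R p ≤ rank R q := by
  have hfd := U_finite hR q
  let φ : U R p →ₗ[ℂ] U R q :=
    { toFun := fun x => ⟨q (w x.1), by
        refine ⟨?_, hqj.app _⟩
        rw [← hq, ← hw, x.2.1]⟩
      map_add' := by
        intro x y
        apply Subtype.ext
        change q (w (x.1 + y.1)) = q (w x.1) + q (w y.1)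
        rw [map_add, map_add]
      map_smul' := by
        intro c x
        apply Subtype.ext
        change q (w (c • x.1)) = c • q (w x.1)
        rw [map_smul, map_smul] }
  apply LinearMap.finrank_le_finrank_of_injective (f := φ)
  rw [← LinearMap.ker_eq_bot, LinearMap.ker_eq_bot']
  intro x hx
  apply Subtype.ext
  have hx' : q (w x.1) = 0 := congrArg Subtype.val hx
  change x.1 = 0
  set x' := x.1 with hx0
  have hpx : p x' = x' := x.2.2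
  set y := w x' with hy
  have e1 : ‖y‖ ^ 2 = RCLike.re ⟪(star w * w) x', x'⟫_ℂ := by
    rw [mul_app, ContinuousLinearMap.star_eq_adjoint,
      ContinuousLinearMap.adjoint_inner_left, inner_self_eq_norm_sq]
  have e2 : RCLike.re ⟪(star w * w) x', x'⟫_ℂ =
      RCLike.re ⟪(star w * w - p) x', x'⟫_ℂ + ‖x'‖ ^ 2 := by
    rw [sub_apply, inner_sub_left, map_sub, hpx, inner_self_eq_norm_sq]
    ring
  have e3 := abs_re_inner_le h1 x'
  have e4 : ‖star w y‖ ^ 2 = RCLike.re ⟪(w * star w) y, y⟫_ℂ := by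
    rw [mul_app, ← ContinuousLinearMap.adjoint_inner_right,
      ← ContinuousLinearMap.star_eq_adjoint, inner_self_eq_norm_sq]
  have e5 : RCLike.re ⟪(w * star w) y, y⟫_ℂ = RCLike.re ⟪(w * star w - q) y, y⟫_ℂ := by
    rw [sub_apply, inner_sub_left, map_sub, hx', inner_zero_left]
    simp
  have e6 := abs_re_inner_le h2 y
  have e7 : ‖y‖ ^ 2 ≤ ‖x'‖ * ‖star w y‖ := by
    have : RCLike.re ⟪x', star w y⟫_ℂ = ‖y‖ ^ 2 := by
      rw [ContinuousLinearMap.star_eq_adjoint, ContinuousLinearMap.adjoint_inner_right,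
        inner_self_eq_norm_sq]
    rw [← this]
    exact re_inner_le_norm _ _
  have e8 : ‖star w y‖ ^ 2 ≤ δ * ‖y‖ ^ 2 := by
    rw [e4, e5]
    exact (le_abs_self _).trans e6
  have e9 : (1 - δ) * ‖x'‖ ^ 2 ≤ ‖y‖ ^ 2 := by
    have := (abs_le.1 e3).1
    rw [e1, e2]
    linarith
  -- ‖y‖⁴ ≤ ‖x‖² δ ‖y‖²
  have e10 : ‖y‖ ^ 2 * ‖y‖ ^ 2 ≤ ‖x'‖ ^ 2 * (δ * ‖y‖ ^ 2) := by
    calc ‖y‖ ^ 2 * ‖y‖ ^ 2 ≤ (‖x'‖ * ‖star w y‖) * (‖x'‖ * ‖star w y‖) := by
          apply mul_le_mul e7 e7 (by positivity) (by positivity)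
      _ = ‖x'‖ ^ 2 * ‖star w y‖ ^ 2 := by ring
      _ ≤ ‖x'‖ ^ 2 * (δ * ‖y‖ ^ 2) := by gcongr
  by_contra hne
  have hpos : 0 < ‖x'‖ ^ 2 := by
    have := norm_pos_iff.2 hne
    positivity
  have hy0 : 0 < ‖y‖ ^ 2 := by nlinarith
  have e11 : ‖y‖ ^ 2 ≤ ‖x'‖ ^ 2 * δ := by
    by_contra h
    push Not at h
    nlinarith
  nlinarith

lemma comm_star {T : H →L[ℂ] H} (hRj : Pj R) (h : ∀ x, T (R x) = R (T x)) (x : H) :
    (star T) (R x) = R ((star T) x) := by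
  have h1 : T * R = R * T := by
    ext x
    exact h x
  have h2 := congrArg star h1
  rw [star_mul, star_mul, hRj.st] at h2
  exact (congrArg (fun T : H →L[ℂ] H => T x) h2).symm

lemma rank_congr (hR : FiniteDimensional ℂ (LinearMap.range (R : H →ₗ[ℂ] H))) (hRj : Pj R)
    (hp : ∀ x, p (R x) = R (p x)) (hpj : Pj p) (hq : ∀ x, q (R x) = R (q x)) (hqj : Pj q)
    (hw : ∀ x, w (R x) = R (w x)) {δ : ℝ} (hδ : δ < 1 / 2)
    (h1 : ‖star w * w - p‖ ≤ δ) (h2 : ‖w * star w - q‖ ≤ δ) :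
    rank R p = rank R q := by
  refine le_antisymm (rank_le hR hq hqj hw hδ h1 h2) ?_
  refine rank_le hR hp hpj (w := star w) (comm_star hRj hw) hδ ?_ ?_
  · rw [star_star]
    exact h2
  · rw [star_star]
    exact h1

lemma rank_add_le (hR : FiniteDimensional ℂ (LinearMap.range (R : H →ₗ[ℂ] H)))
    (hp : ∀ x, p (R x) = R (p x)) (hpj : Pj p)
    (hpj₁ : Pj p₁) (hpj₂ : Pj p₂)
    (h : ‖p₁ + p₂ - p‖ ≤ 1 / 4) : rank R p₁ + rank R p₂ ≤ rank R p := by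
  have hfd := U_finite hR p
  have hfd₁ := U_finite hR p₁
  have hfd₂ := U_finite hR p₂
  let φ : U R p₁ × U R p₂ →ₗ[ℂ] U R p :=
    { toFun := fun x => ⟨p (x.1.1 + x.2.1), by
        refine ⟨?_, hpj.app _⟩
        rw [← hp, map_add, x.1.2.1, x.2.2.1]⟩
      map_add' := by
        intro x y
        apply Subtype.ext
        change p ((x.1.1 + y.1.1) + (x.2.1 + y.2.1)) = p (x.1.1 + x.2.1) + p (y.1.1 + y.2.1)
        rw [← map_add]
        congr 1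
        abel
      map_smul' := by
        intro c x
        apply Subtype.ext
        change p (c • x.1.1 + c • x.2.1) = c • p (x.1.1 + x.2.1)
        rw [← smul_add, map_smul] }
  have h0 : rank R p₁ + rank R p₂ = Module.finrank ℂ (U R p₁ × U R p₂) :=
    Module.finrank_prod.symm
  rw [h0]
  apply LinearMap.finrank_le_finrank_of_injective (f := φ)
  rw [← LinearMap.ker_eq_bot, LinearMap.ker_eq_bot']
  rintro ⟨⟨x, hx⟩, ⟨y, hy⟩⟩ hxy
  have hxy' : p (x + y) = 0 := congrArg Subtype.val hxy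
  have hx1 : p₁ x = x := hx.2
  have hy1 : p₂ y = y := hy.2
  set zz := x + y with hzz
  -- first estimate
  have e1 : ‖p₁ zz‖ ^ 2 + ‖p₂ zz‖ ^ 2 ≤ 1 / 4 * ‖zz‖ ^ 2 := by
    have h1 := abs_re_inner_le h zz
    have h2 : RCLike.re ⟪(p₁ + p₂ - p) zz, zz⟫_ℂ = ‖p₁ zz‖ ^ 2 + ‖p₂ zz‖ ^ 2 := by
      rw [sub_apply, add_apply, inner_sub_left, inner_add_left, map_sub, map_add, hpj₁.normsq,
        hpj₂.normsq, hxy', inner_zero_left]
      simp
    rw [← h2]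
    exact (le_abs_self _).trans h1
  have e2 : ‖zz‖ ^ 2 ≤ ‖p₁ zz‖ * ‖x‖ + ‖p₂ zz‖ * ‖y‖ := by
    have h1 : ‖zz‖ ^ 2 = RCLike.re ⟪zz, x⟫_ℂ + RCLike.re ⟪zz, y⟫_ℂ := by
      rw [← map_add, ← inner_add_right, inner_self_eq_norm_sq]
    have h2 : RCLike.re ⟪zz, x⟫_ℂ ≤ ‖p₁ zz‖ * ‖x‖ := by
      conv_lhs => rw [← hx1, ← hpj₁.inner]
      exact re_inner_le_norm _ _
    have h3 : RCLike.re ⟪zz, y⟫_ℂ ≤ ‖p₂ zz‖ * ‖y‖ := by
      conv_lhs => rw [← hy1, ← hpj₂.inner]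
      exact re_inner_le_norm _ _
    rw [h1]
    exact add_le_add h2 h3
  have e3 : ‖zz‖ ^ 2 * ‖zz‖ ^ 2 ≤ 1 / 4 * ‖zz‖ ^ 2 * (‖x‖ ^ 2 + ‖y‖ ^ 2) := by
    have h1 : (‖p₁ zz‖ * ‖x‖ + ‖p₂ zz‖ * ‖y‖) ^ 2 ≤
        (‖p₁ zz‖ ^ 2 + ‖p₂ zz‖ ^ 2) * (‖x‖ ^ 2 + ‖y‖ ^ 2) := by
      nlinarith [sq_nonneg (‖p₁ zz‖ * ‖y‖ - ‖p₂ zz‖ * ‖x‖)]
    calc ‖zz‖ ^ 2 * ‖zz‖ ^ 2 ≤ (‖p₁ zz‖ * ‖x‖ + ‖p₂ zz‖ * ‖y‖) ^ 2 := by
          rw [pow_two (‖p₁ zz‖ * ‖x‖ + ‖p₂ zz‖ * ‖y‖)]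
          exact mul_le_mul e2 e2 (by positivity) (by positivity)
      _ ≤ _ := h1
      _ ≤ _ := by gcongr
  have e4 : ‖zz‖ ^ 2 ≤ 1 / 4 * (‖x‖ ^ 2 + ‖y‖ ^ 2) := by
    by_contra h1
    push Not at h1
    have h2 : 0 < ‖zz‖ ^ 2 := lt_of_le_of_lt (by positivity) h1
    nlinarith
  -- second estimate
  have e5 : ‖p₂ x‖ ^ 2 ≤ 1 / 4 * ‖x‖ ^ 2 := by
    have h1 := abs_re_inner_le h x
    have h2 : RCLike.re ⟪(p₁ + p₂ - p) x, x⟫_ℂ = ‖x‖ ^ 2 + ‖p₂ x‖ ^ 2 - ‖p x‖ ^ 2 := by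
      rw [sub_apply, add_apply, inner_sub_left, inner_add_left, map_sub, map_add, hpj₁.normsq,
        hpj₂.normsq, hpj.normsq, hx1]
    have h3 := hpj.norm_le x
    have h4 := (le_abs_self _).trans h1
    rw [h2] at h4
    nlinarith [norm_nonneg (p x), norm_nonneg x]
  have e6 : ‖p₂ x‖ ≤ 1 / 2 * ‖x‖ := by
    nlinarith [norm_nonneg (p₂ x), norm_nonneg x]
  have e7 : -(1 / 2 * (‖x‖ * ‖y‖)) ≤ RCLike.re ⟪x, y⟫_ℂ := by
    have h1 : |RCLike.re ⟪x, y⟫_ℂ| ≤ ‖p₂ x‖ * ‖y‖ := by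
      conv_lhs => rw [← hy1, ← hpj₂.inner]
      exact (RCLike.abs_re_le_norm _).trans (norm_inner_le_norm _ _)
    have h2 := (abs_le.1 h1).1
    nlinarith [norm_nonneg y]
  have e8 : ‖zz‖ ^ 2 = ‖x‖ ^ 2 + 2 * RCLike.re ⟪x, y⟫_ℂ + ‖y‖ ^ 2 := norm_add_sq x y
  have e9 : ‖x‖ ^ 2 + ‖y‖ ^ 2 ≤ 0 := by
    nlinarith [sq_nonneg (‖x‖ - ‖y‖)]
  have e10 : x = 0 := by
    have : ‖x‖ ^ 2 = 0 := by nlinarith [sq_nonneg ‖x‖, sq_nonneg ‖y‖]
    exact norm_eq_zero.1 (pow_eq_zero_iff two_ne_zero |>.1 this)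
  have e11 : y = 0 := by
    have : ‖y‖ ^ 2 = 0 := by nlinarith [sq_nonneg ‖x‖, sq_nonneg ‖y‖]
    exact norm_eq_zero.1 (pow_eq_zero_iff two_ne_zero |>.1 this)
  subst e10
  subst e11
  rfl

lemma le_rank_add (hR : FiniteDimensional ℂ (LinearMap.range (R : H →ₗ[ℂ] H)))
    (hp₁ : ∀ x, p₁ (R x) = R (p₁ x)) (hpj₁ : Pj p₁)
    (hp₂ : ∀ x, p₂ (R x) = R (p₂ x)) (hpj₂ : Pj p₂)
    (h : ‖p₁ + p₂ - p‖ ≤ 1 / 4) : rank R p ≤ rank R p₁ + rank R p₂ := by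
  have hfd₁ := U_finite hR p₁
  have hfd₂ := U_finite hR p₂
  let φ : U R p →ₗ[ℂ] U R p₁ × U R p₂ :=
    { toFun := fun x => ⟨⟨p₁ x.1, by
        refine ⟨?_, hpj₁.app _⟩
        rw [← hp₁, x.2.1]⟩, ⟨p₂ x.1, by
        refine ⟨?_, hpj₂.app _⟩
        rw [← hp₂, x.2.1]⟩⟩
      map_add' := by
        intro x y
        refine Prod.ext (Subtype.ext ?_) (Subtype.ext ?_)
        · exact map_add p₁ x.1 y.1
        · exact map_add p₂ x.1 y.1
      map_smul' := by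
        intro c x
        refine Prod.ext (Subtype.ext ?_) (Subtype.ext ?_)
        · exact map_smul p₁ c x.1
        · exact map_smul p₂ c x.1 }
  have h0 : rank R p₁ + rank R p₂ = Module.finrank ℂ (U R p₁ × U R p₂) :=
    Module.finrank_prod.symm
  rw [h0]
  apply LinearMap.finrank_le_finrank_of_injective (f := φ)
  rw [← LinearMap.ker_eq_bot, LinearMap.ker_eq_bot']
  intro x hx
  apply Subtype.ext
  have h1 : p₁ x.1 = 0 := congrArg (fun q => q.1.1) hx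
  have h2 : p₂ x.1 = 0 := congrArg (fun q => q.2.1) hx
  have h3 : (p₁ + p₂ - p) x.1 = -x.1 := by
    rw [sub_apply, add_apply, h1, h2, x.2.2]
    simp
  have h4 := (p₁ + p₂ - p).le_opNorm x.1
  rw [h3, norm_neg] at h4
  have h5 : ‖x.1‖ ≤ 1 / 4 * ‖x.1‖ := h4.trans (by gcongr)
  have h6 : ‖x.1‖ = 0 := by
    have := norm_nonneg x.1
    linarith
  exact norm_eq_zero.1 h6

lemma rank_add (hR : FiniteDimensional ℂ (LinearMap.range (R : H →ₗ[ℂ] H)))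
    (hp : ∀ x, p (R x) = R (p x)) (hpj : Pj p)
    (hp₁ : ∀ x, p₁ (R x) = R (p₁ x)) (hpj₁ : Pj p₁)
    (hp₂ : ∀ x, p₂ (R x) = R (p₂ x)) (hpj₂ : Pj p₂)
    (h : ‖p₁ + p₂ - p‖ ≤ 1 / 4) : rank R p = rank R p₁ + rank R p₂ :=
  le_antisymm (le_rank_add hR hp₁ hpj₁ hp₂ hpj₂ h)
    (rank_add_le hR hp hpj hpj₁ hpj₂ h)

/-! ### trace formula -/

/-- the trace formula for the rank -/
lemma rank_eq_complex {ι : Type*} (b : HilbertBasis ι ℂ H) (A : Finset ι)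
    (hRA : ∀ x, R x = x → ∀ w, w ∉ A → ⟪b w, x⟫_ℂ = 0) (hRA' : ∀ w ∈ A, R (b w) = b w)
    (hR : FiniteDimensional ℂ (LinearMap.range (R : H →ₗ[ℂ] H)))
    (hp : ∀ x, p (R x) = R (p x)) (hpj : Pj p) :
    (rank R p : ℂ) = ∑ w ∈ A, ⟪b w, p (b w)⟫_ℂ := by
  have hfd := U_finite hR p
  let u := stdOrthonormalBasis ℂ (U R p)
  have hmem : ∀ w ∈ A, p (b w) ∈ U R p := fun w hw =>
    ⟨by rw [← hp, hRA' w hw], hpj.app _⟩
  have h1 : ∀ w ∈ A, ⟪b w, p (b w)⟫_ℂ = ∑ i, ⟪(u i : H), b w⟫_ℂ * ⟪b w, (u i : H)⟫_ℂ := by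
    intro w hw
    have h2 := congrArg (fun x : U R p => (x : H)) (u.sum_repr' ⟨p (b w), hmem w hw⟩)
    simp only [Submodule.coe_sum, Submodule.coe_smul, Submodule.coe_inner] at h2
    conv_lhs => rw [← h2]
    rw [inner_sum]
    refine Finset.sum_congr rfl fun i _ => ?_
    rw [inner_smul_right]
    congr 1
    rw [← hpj.inner, (u i).2.2]
  rw [Finset.sum_congr rfl h1, Finset.sum_comm]
  have h3 : ∀ i, ∑ w ∈ A, ⟪(u i : H), b w⟫_ℂ * ⟪b w, (u i : H)⟫_ℂ = 1 := by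
    intro i
    have h4 := b.hasSum_inner_mul_inner (u i : H) (u i : H)
    have h5 : ∀ w, w ∉ A → ⟪(u i : H), b w⟫_ℂ * ⟪b w, (u i : H)⟫_ℂ = 0 := by
      intro w hw
      rw [hRA _ (u i).2.1 w hw, mul_zero]
    have h6 : HasSum (fun w => ⟪(u i : H), b w⟫_ℂ * ⟪b w, (u i : H)⟫_ℂ)
        (∑ w ∈ A, ⟪(u i : H), b w⟫_ℂ * ⟪b w, (u i : H)⟫_ℂ) := hasSum_sum_of_ne_finset_zero h5
    rw [h6.unique h4, ← Submodule.coe_inner]
    have := u.orthonormal.1 i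
    rw [inner_self_eq_norm_sq_to_K, this]
    simp
  rw [Finset.sum_congr rfl fun i _ => h3 i]
  rw [Finset.sum_const, Finset.card_univ, Fintype.card_fin, nsmul_eq_mul, mul_one]
  rfl

lemma rank_eq {ι : Type*} (b : HilbertBasis ι ℂ H) (A : Finset ι)
    (hRA : ∀ x, R x = x → ∀ w, w ∉ A → ⟪b w, x⟫_ℂ = 0) (hRA' : ∀ w ∈ A, R (b w) = b w)
    (hR : FiniteDimensional ℂ (LinearMap.range (R : H →ₗ[ℂ] H)))
    (hp : ∀ x, p (R x) = R (p x)) (hpj : Pj p) :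
    (rank R p : ℝ) = ∑ w ∈ A, ‖p (b w)‖ ^ 2 := by
  have h := congrArg RCLike.re (rank_eq_complex b A hRA hRA' hR hp hpj)
  rw [map_sum] at h
  have h2 : RCLike.re ((rank R p : ℂ)) = (rank R p : ℝ) := by simp
  rw [h2] at h
  rw [h]
  refine Finset.sum_congr rfl fun w _ => ?_
  rw [← hpj.inner, hpj.normsq]

/-! ### approximation of projections -/

/-- the jump function -/
noncomputable def chi (t : ℝ) : ℝ := if t < 1 / 2 then 0 else 1

lemma chi_cont {x : ℝ} (hx : x ≠ 1 / 2) : ContinuousAt chi x := by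
  rcases lt_or_gt_of_ne hx with h | h
  · have : chi =ᶠ[nhds x] fun _ => 0 := by
      filter_upwards [eventually_lt_nhds h] with y hy
      exact if_pos hy
    exact (continuousAt_const).congr this.symm
  · have : chi =ᶠ[nhds x] fun _ => 1 := by
      filter_upwards [eventually_gt_nhds h] with y hy
      exact if_neg (not_lt.2 hy.le)
    exact (continuousAt_const).congr this.symm

lemma exists_proj {F : NonUnitalStarSubalgebra ℂ (H →L[ℂ] H)}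
    (hclosed : IsClosed (F : Set (H →L[ℂ] H))) {y p : H →L[ℂ] H} (hy : y ∈ F) (hp : Pj p)
    (h : ‖p - y‖ ≤ 1 / 200) : ∃ p' ∈ F, Pj p' ∧ ‖p - p'‖ ≤ 1 / 16 := by
  set a : H →L[ℂ] H := (1 / 2 : ℝ) • (y + star y) with ha
  have ha_mem : a ∈ F := by
    have h1 : a = (1 / 2 : ℂ) • (y + star y) := by
      rw [ha]
      ext x
      simp only [smul_apply]
      rw [← Complex.coe_smul]
      norm_num
    rw [h1]
    exact SMulMemClass.smul_mem _ (add_mem hy (star_mem hy))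
  have ha_sa : IsSelfAdjoint a := by
    rw [ha]
    apply IsSelfAdjoint.smul (by simp [isSelfAdjoint_iff])
    exact IsSelfAdjoint.add_star_self y
  have hpa : ‖p - a‖ ≤ 1 / 200 := by
    have h1 : p - a = (1 / 2 : ℝ) • ((p - y) + star (p - y)) := by
      rw [star_sub, hp.st, ha]
      module
    rw [h1, norm_smul]
    have h2 : ‖(p - y) + star (p - y)‖ ≤ 1 / 200 + 1 / 200 := by
      refine (norm_add_le _ _).trans ?_
      rw [norm_star]
      exact add_le_add h h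
    rw [Real.norm_of_nonneg (by norm_num)]
    linarith
  have hp1 := hp.norm_le_one
  have ha1 : ‖a‖ ≤ 1 + 1 / 200 := by
    have : a = p - (p - a) := by abel
    rw [this]
    exact (norm_sub_le _ _).trans (add_le_add hp1 hpa)
  have hsq : ‖a * a - a‖ ≤ 1 / 50 := by
    have h1 : a * a - a = -(a * (p - a)) - (p - a) * p + (p - a) := by
      rw [mul_sub, sub_mul, hp.mul]
      abel
    rw [h1]
    have h2 : ‖a * (p - a)‖ ≤ (1 + 1 / 200) * (1 / 200) :=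
      (norm_mul_le _ _).trans (mul_le_mul ha1 hpa (norm_nonneg _) (by norm_num))
    have h3 : ‖(p - a) * p‖ ≤ 1 / 200 * 1 :=
      (norm_mul_le _ _).trans (mul_le_mul hpa hp1 (norm_nonneg _) (by norm_num))
    calc ‖-(a * (p - a)) - (p - a) * p + (p - a)‖
        ≤ ‖-(a * (p - a)) - (p - a) * p‖ + ‖p - a‖ := norm_add_le _ _
      _ ≤ ‖-(a * (p - a))‖ + ‖(p - a) * p‖ + ‖p - a‖ := by gcongr; exact norm_sub_le _ _
      _ ≤ (1 + 1 / 200) * (1 / 200) + 1 / 200 * 1 + 1 / 200 := by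
          rw [norm_neg]
          gcongr
      _ ≤ 1 / 50 := by norm_num
  have hspec : ∀ x ∈ quasispectrum ℝ a, |x * x - x| ≤ 1 / 50 := by
    intro x hx
    have h1 := norm_apply_le_norm_cfcₙ (fun t : ℝ => t * t - t) a hx
      (by fun_prop) (by simp) ha_sa
    have h2 : cfcₙ (fun t : ℝ => t * t - t) a = a * a - a := by
      rw [cfcₙ_sub (fun t : ℝ => t * t) (fun t : ℝ => t) a, cfcₙ_mul (fun t : ℝ => t)
        (fun t : ℝ => t) a, cfcₙ_id' ℝ a]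
    rw [h2] at h1
    exact h1.trans hsq
  have hne : ∀ x ∈ quasispectrum ℝ a, x ≠ 1 / 2 := by
    rintro x hx rfl
    have := hspec _ hx
    norm_num [abs_of_neg] at this
  have hcont : ContinuousOn chi (quasispectrum ℝ a) := fun x hx =>
    (chi_cont (hne x hx)).continuousWithinAt
  have hchi0 : chi 0 = 0 := if_pos (by norm_num)
  refine ⟨cfcₙ chi a, cfcₙ_mem chi ha_mem, ⟨?_, ?_⟩, ?_⟩
  · rw [← cfcₙ_mul chi chi a hcont hchi0 hcont hchi0]
    congr 1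
    funext t
    unfold chi
    split_ifs <;> simp
  · exact cfcₙ_predicate chi a
  · have h1 : ‖a - cfcₙ chi a‖ ≤ 1 / 25 := by
      have h2 : a - cfcₙ chi a = cfcₙ (fun t : ℝ => t - chi t) a := by
        rw [cfcₙ_sub (fun t : ℝ => t) chi a (by fun_prop) rfl hcont hchi0, cfcₙ_id' ℝ a]
      rw [h2]
      apply norm_cfcₙ_le
      intro x hx
      have h3 := hspec x hx
      rw [Real.norm_eq_abs]
      unfold chi
      have h4 : x * x - x = x * (x - 1) := by ring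
      rw [h4, abs_mul] at h3
      split_ifs with h5
      · rw [sub_zero]
        have h6 : 1 / 2 ≤ |x - 1| := by
          rw [abs_of_neg (by linarith)]
          linarith
        nlinarith [abs_nonneg x]
      · have h6 : 1 / 2 ≤ |x| := by
          push Not at h5
          exact h5.trans (le_abs_self _)
        nlinarith [abs_nonneg (x - 1)]
    have h3 : p - cfcₙ chi a = (p - a) + (a - cfcₙ chi a) := by abel
    rw [h3]
    refine (norm_add_le _ _).trans ?_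
    linarith

lemma Pj.one_le_norm {p : H →L[ℂ] H} (hp : Pj p) (h0 : p ≠ 0) : 1 ≤ ‖p‖ := by
  have h4 : ‖p‖ * ‖p‖ = ‖p‖ := by
    have := CStarRing.norm_star_mul_self (x := p)
    rw [hp.st, hp.mul] at this
    exact this.symm
  have h5 : ‖p‖ ≠ 0 := fun h => h0 (norm_eq_zero.1 h)
  have h7 : ‖p‖ = 1 := mul_right_cancel₀ h5 (h4.trans (one_mul ‖p‖).symm)
  exact h7.ge

end Pool.Agent.L7h66.SA
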