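import Pool.Agent.L7h66.SA.Alg
import Pool.Agent.L7h66.SA.Rank

/-!
# The class of a projection in the algebra of a diagram
-/

set_option autoImplicit false
set_option linter.unusedSectionVars false

open scoped InnerProductSpace

namespace Pool.Agent.L7h66.SA

open Pool.Agent.TH723.AF (op_ext vec_ext op_of_some op_of_none op norm_b inner_op_symm)

universe u v

variable {V : Type u} {D : Dg V}
variable {H : Type v} [NormedAddCommGroup H] [InnerProductSpace ℂ H] [CompleteSpace H]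
  {b : HilbertBasis Om ℂ H}

namespace Dg

lemma Q_pj (A : Set Om) : Pj (D.Q b A) := ⟨Q_mul_self b A, star_Q b A⟩

lemma I1_pj : Pj (D.I1 b) := Q_pj _

variable (D b)

/-- the projection onto the span of the heads of length `k` which end in `v` -/
noncomputable def PB (k : ℕ) (v : V) : H →L[ℂ] H := D.Q b {w | w ∈ D.P k ∧ D.st w k = v}

variable {D b}

lemma Q_fix {A : Set Om} {x : H} (hx : D.Q b A x = x) {w : Om} (hw : w ∉ A) :
    ⟪b w, x⟫_ℂ = 0 := by
  rw [← hx, ← (Q_pj A).inner, Q_of_notMem b hw, inner_zero_left]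

lemma Q_finite {A : Set Om} (hA : A.Finite) :
    FiniteDimensional ℂ (LinearMap.range (D.Q b A : H →ₗ[ℂ] H)) := by
  have hG : Finite A := hA
  let φ : LinearMap.range (D.Q b A : H →ₗ[ℂ] H) →ₗ[ℂ] (A → ℂ) :=
    { toFun := fun x w => ⟪b w.1, x.1⟫_ℂ
      map_add' := by
        intro x y
        funext w
        exact inner_add_right _ _ _
      map_smul' := by
        intro c x
        funext w
        exact inner_smul_right _ _ _ }
  apply FiniteDimensional.of_injective φ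
  have hfix : ∀ x : LinearMap.range (D.Q b A : H →ₗ[ℂ] H), D.Q b A x.1 = x.1 := by
    rintro ⟨_, y, rfl⟩
    exact (Q_pj A).app y
  intro x y h
  apply Subtype.ext
  apply vec_ext b
  intro w
  by_cases hw : w ∈ A
  · exact congrFun h ⟨w, hw⟩
  · rw [Q_fix (hfix x) hw, Q_fix (hfix y) hw]

lemma PB_finite (k : ℕ) (v : V) :
    FiniteDimensional ℂ (LinearMap.range (D.PB b k v : H →ₗ[ℂ] H)) :=
  Q_finite ((P_finite k).subset fun _ h => h.1)

lemma PB_pj (k : ℕ) (v : V) : Pj (D.PB b k v) := Q_pj _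

lemma PB_eq {k : ℕ} {w0 : Om} (h0 : w0 ∈ D.P k) :
    D.PB b k (D.st w0 k) = op b (D.Dp k w0 w0) := by
  apply op_ext b
  intro w
  by_cases h : w ∈ D.P k ∧ D.st w k = D.st w0 k
  · have h1 : D.Tl k w w0 := ⟨h.2, fun n hn => by rw [h.1.2 n hn, h0.2 n hn]⟩
    rw [op_of_some b (Dp_some h.1.1 h.1.1 h1 (Hd.refl _ _) h1)]
    exact Q_of_mem b h.1.1 h
  · have h1 : D.PB b k (D.st w0 k) (b w) = 0 := Q_of_notMem b h
    rw [h1]
    symm
    apply op_of_none
    rcases h2 : D.Dp k w0 w0 w with _ | u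
    · rfl
    · exfalso
      have h3 := mem_Dp.1 h2
      exact h ⟨⟨h3.1, fun n hn => by rw [h3.2.2.1.2 n hn, h0.2 n hn]⟩, h3.2.2.1.1⟩

lemma PB_comm {k : ℕ} {T : H →L[ℂ] H} (hT : T ∈ D.F b k) (v : V) (x : H) :
    T (D.PB b k v x) = D.PB b k v (T x) := by
  by_cases h : ∃ w0 ∈ D.P k, D.st w0 k = v
  · obtain ⟨w0, h0, rfl⟩ := h
    rw [PB_eq h0]
    exact congrArg (fun T : H →L[ℂ] H => T x) (hT.1 k w0 w0 le_rfl)
  · have h1 : D.PB b k v = 0 := by
      apply op_ext b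
      intro w
      exact Q_of_notMem b (fun h2 => h ⟨w, h2.1, h2.2⟩)
    rw [h1]
    simp

open Classical in
lemma rank_PB {k : ℕ} {p : H →L[ℂ] H} (hp : p ∈ D.F b k) (hpj : Pj p) (v : V) :
    (rank (D.PB b k v) p : ℝ) = ∑ w ∈ (D.Pf k).filter (fun w : Om => D.st w k = v), ‖p (b w)‖ ^ 2 := by
  refine rank_eq b _ ?_ ?_ (PB_finite k v) (PB_comm hp v) hpj
  · intro x hx w hw
    refine Q_fix hx fun h => hw ?_
    rw [Finset.mem_filter, mem_Pf]
    exact h
  · intro w hw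
    rw [Finset.mem_filter, mem_Pf] at hw
    exact Q_of_mem b hw.1.1 hw

lemma norm_tr {k : ℕ} {p : H →L[ℂ] H} (hp : p ∈ D.F b k) (hpj : Pj p) {w : Om} (vw : D.Val w) :
    ‖p (b w)‖ ^ 2 = ‖p (b (tr k w))‖ ^ 2 := by
  rw [← hpj.normsq, ← hpj.normsq, hpj.inner, hpj.inner, mc hp vw vw (Tl.refl k w)]

/-- a projection which vanishes on the heads vanishes -/
lemma pj_zero {k : ℕ} {p : H →L[ℂ] H} (hp : p ∈ D.F b k) (hpj : Pj p)
    (h : ∀ w ∈ D.P k, p (b w) = 0) : p = 0 := by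
  apply op_ext b
  intro w
  rw [zero_apply]
  by_cases vw : D.Val w
  · have h1 := norm_tr hp hpj vw
    rw [h _ (tr_mem_P vw k), norm_zero] at h1
    have h4 : ‖p (b w)‖ ^ 2 = 0 := by rw [h1]; norm_num
    exact norm_eq_zero.1 ((pow_eq_zero_iff (two_ne_zero)).1 h4)
  · exact mc_right hp vw

open Classical in
variable (D) in
/-- the vertices of level `k` -/
noncomputable def vs (k : ℕ) : Finset V := (D.Pf k).image fun w : Om => D.st w k

lemma mem_vs {k : ℕ} {v : V} : v ∈ D.vs k ↔ ∃ w ∈ D.P k, D.st w k = v := by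
  classical
  unfold vs
  rw [Finset.mem_image]
  simp only [mem_Pf]

lemma exists_rank {k : ℕ} {p : H →L[ℂ] H} (hp : p ∈ D.F b k) (hpj : Pj p) (h0 : p ≠ 0) :
    ∃ v ∈ D.vs k, rank (D.PB b k v) p ≠ 0 := by
  classical
  by_contra h1
  push Not at h1
  apply h0
  apply pj_zero hp hpj
  intro w hw
  have h2 := h1 (D.st w k) (mem_vs.2 ⟨w, hw, rfl⟩)
  have h3 := rank_PB hp hpj (D.st w k)
  rw [h2, Nat.cast_zero] at h3
  have h4 := (Finset.sum_eq_zero_iff_of_nonneg (fun w _ => sq_nonneg ‖p (b w)‖)).1 h3.symm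
  have h5 := h4 w (Finset.mem_filter.2 ⟨mem_Pf.2 hw, rfl⟩)
  exact norm_eq_zero.1 ((pow_eq_zero_iff (two_ne_zero)).1 h5)

open Classical in
variable (D) in
/-- the number of edges from `v` to `v'` at level `k` -/
noncomputable def mu (k : ℕ) (v v' : V) : ℕ :=
  ((Finset.range (D.od k v)).filter fun i => D.nx k v i = v').card

lemma rank_succ {k : ℕ} {p : H →L[ℂ] H} (hp : p ∈ D.F b k) (hpj : Pj p) (v' : V) :
    rank (D.PB b (k + 1) v') p = ∑ v ∈ D.vs k, D.mu k v v' * rank (D.PB b k v) p := by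
  classical
  have h : (rank (D.PB b (k + 1) v') p : ℝ) =
      ((∑ v ∈ D.vs k, D.mu k v v' * rank (D.PB b k v) p : ℕ) : ℝ) := by
    rw [rank_PB (F_mono (Nat.le_succ k) hp) hpj v', Finset.sum_filter, sum_Pf_succ]
    have h1 : ∀ a ∈ D.Pf k, ∑ i ∈ Finset.range (D.od k (D.st a k)),
        (if D.st (ext k a i) (k + 1) = v' then ‖p (b (ext k a i))‖ ^ 2 else 0) =
        D.mu k (D.st a k) v' * ‖p (b a)‖ ^ 2 := by
      intro a ha
      have h2 : ∀ i ∈ Finset.range (D.od k (D.st a k)),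
          (if D.st (ext k a i) (k + 1) = v' then ‖p (b (ext k a i))‖ ^ 2 else 0) =
          if D.nx k (D.st a k) i = v' then ‖p (b a)‖ ^ 2 else 0 := by
        intro i hi
        rw [ext_at, norm_tr hp hpj (ext_mem_P (mem_Pf.1 ha) (Finset.mem_range.1 hi)).1,
          tr_ext i (mem_Pf.1 ha).2]
      rw [Finset.sum_congr rfl h2, ← Finset.sum_filter, Finset.sum_const, nsmul_eq_mul]
      rfl
    rw [Finset.sum_congr rfl h1]
    push_cast
    have h3 : ∀ v ∈ D.vs k, (D.mu k v v' : ℝ) * (rank (D.PB b k v) p : ℝ) =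
        ∑ a ∈ (D.Pf k).filter (fun w : Om => D.st w k = v), D.mu k (D.st a k) v' * ‖p (b a)‖ ^ 2 := by
      intro v _
      rw [rank_PB hp hpj v, Finset.mul_sum]
      refine Finset.sum_congr rfl fun a ha => ?_
      rw [(Finset.mem_filter.1 ha).2]
    rw [Finset.sum_congr rfl h3]
    exact (Finset.sum_fiberwise_of_maps_to
      (fun a ha => mem_vs.2 ⟨a, mem_Pf.1 ha, rfl⟩) _).symm
  exact_mod_cast h

section grp

variable {V : Type u} [AddCommGroup V] {D : Dg V}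

variable (D) in
/-- each vertex is the sum of the end points of its edges -/
def Sm : Prop := ∀ k, ∀ v ∈ D.vs k, ∑ i ∈ Finset.range (D.od k v), D.nx k v i = v

lemma nx_mem_vs {k : ℕ} {v : V} (hv : v ∈ D.vs k) {i : ℕ} (hi : i < D.od k v) :
    D.nx k v i ∈ D.vs (k + 1) := by
  obtain ⟨w, hw, rfl⟩ := mem_vs.1 hv
  exact mem_vs.2 ⟨ext k w i, ext_mem_P hw hi, ext_at _ _ _⟩

lemma sum_mu (hD : D.Sm) {k : ℕ} {v : V} (hv : v ∈ D.vs k) :
    ∑ v' ∈ D.vs (k + 1), D.mu k v v' • v' = v := by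
  classical
  conv_rhs => rw [← hD k v hv]
  rw [← Finset.sum_fiberwise_of_maps_to (t := D.vs (k + 1)) (g := fun i => D.nx k v i)
    (fun i hi => nx_mem_vs hv (Finset.mem_range.1 hi))]
  refine Finset.sum_congr rfl fun v' _ => ?_
  have h1 : ∀ i ∈ (Finset.range (D.od k v)).filter (fun i => D.nx k v i = v'),
      D.nx k v i = v' := fun i hi => (Finset.mem_filter.1 hi).2
  rw [Finset.sum_congr rfl h1, Finset.sum_const]
  rfl

variable (D b) in
/-- the class at stage `k` -/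
noncomputable def cl (k : ℕ) (p : H →L[ℂ] H) : V := ∑ v ∈ D.vs k, rank (D.PB b k v) p • v

lemma cl_succ (hD : D.Sm) {k : ℕ} {p : H →L[ℂ] H} (hp : p ∈ D.F b k) (hpj : Pj p) :
    D.cl b (k + 1) p = D.cl b k p := by
  unfold cl
  have h1 : ∀ v' ∈ D.vs (k + 1), rank (D.PB b (k + 1) v') p • v' =
      ∑ v ∈ D.vs k, rank (D.PB b k v) p • (D.mu k v v' • v') := by
    intro v' _
    rw [rank_succ hp hpj, Finset.sum_smul]
    refine Finset.sum_congr rfl fun v _ => ?_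
    rw [smul_smul, mul_comm]
  rw [Finset.sum_congr rfl h1, Finset.sum_comm]
  refine Finset.sum_congr rfl fun v hv => ?_
  rw [← Finset.smul_sum, sum_mu hD hv]

lemma cl_stable (hD : D.Sm) {k : ℕ} {p : H →L[ℂ] H} (hp : p ∈ D.F b k) (hpj : Pj p) {j : ℕ}
    (hj : k ≤ j) : D.cl b j p = D.cl b k p := by
  induction j, hj using Nat.le_induction with
  | base => rfl
  | succ j hj ih => rw [cl_succ hD (F_mono hj hp) hpj, ih]

lemma cl_ne_zero {k : ℕ} (hli : LinearIndependent ℤ (fun v : D.vs k => (v : V)))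
    {p : H →L[ℂ] H} (hp : p ∈ D.F b k) (hpj : Pj p) (h0 : p ≠ 0) : D.cl b k p ≠ 0 := by
  obtain ⟨v, hv, h1⟩ := exists_rank hp hpj h0
  intro h2
  rw [Fintype.linearIndependent_iff] at hli
  have h3 := hli (fun v => (rank (D.PB b k v) p : ℤ)) ?_ ⟨v, hv⟩
  · exact h1 (by exact_mod_cast h3)
  · have h4 : ∑ v : D.vs k, ((rank (D.PB b k v) p : ℤ)) • (v : V) =
        ∑ v ∈ D.vs k, rank (D.PB b k v) p • v := by
      rw [← Finset.sum_coe_sort (D.vs k) (fun v => rank (D.PB b k v) p • v)]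
      refine Finset.sum_congr rfl fun v _ => ?_
      rw [natCast_zsmul]
    rw [h4]
    exact h2

/-! ### classes of projections in the closure -/

variable (D b) in
/-- the union of the stages -/
def FU : Set (H →L[ℂ] H) := ⋃ n, (D.F b n : Set (H →L[ℂ] H))

variable (D b) in
/-- an approximation of the projection `p` from stage `n` on -/
def Ap (p : H →L[ℂ] H) (n : ℕ) (p' : H →L[ℂ] H) : Prop :=
  p' ∈ D.F b n ∧ Pj p' ∧ ‖p - p'‖ ≤ 1 / 16

lemma exists_ap {p : H →L[ℂ] H} (hp : Pj p) (h : p ∈ closure (D.FU b)) :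
    ∃ n p', D.Ap b p n p' := by
  obtain ⟨y, hy, hd⟩ := Metric.mem_closure_iff.1 h (1 / 200) (by norm_num)
  obtain ⟨n, hn⟩ := Set.mem_iUnion.1 hy
  rw [dist_eq_norm] at hd
  obtain ⟨p', h1, h2, h3⟩ := exists_proj (F_closed n) hn hp hd.le
  exact ⟨n, p', h1, h2, h3⟩

variable (D b) in
open Classical in
/-- the class of a projection -/
noncomputable def kl (p : H →L[ℂ] H) : V :=
  if h : ∃ n p', D.Ap b p n p' then D.cl b h.choose h.choose_spec.choose else 0

lemma kl_spec (hD : D.Sm) {p : H →L[ℂ] H} (hp : Pj p) (h : p ∈ closure (D.FU b)) :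
    ∃ n p', p' ∈ D.F b n ∧ Pj p' ∧ ‖p - p'‖ ≤ 1 / 16 ∧ ∀ k, n ≤ k → D.kl b p = D.cl b k p' := by
  have h1 := exists_ap hp h
  refine ⟨h1.choose, h1.choose_spec.choose, h1.choose_spec.choose_spec.1,
    h1.choose_spec.choose_spec.2.1, h1.choose_spec.choose_spec.2.2, fun k hk => ?_⟩
  have h2 : D.kl b p = D.cl b h1.choose h1.choose_spec.choose := dif_pos h1
  rw [h2, cl_stable hD h1.choose_spec.choose_spec.1 h1.choose_spec.choose_spec.2.1 hk]

lemma kl_ne_zero (hD : D.Sm) (hli : ∀ k, LinearIndependent ℤ (fun v : D.vs k => (v : V)))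
    {p : H →L[ℂ] H} (hp : Pj p) (h : p ∈ closure (D.FU b)) (h0 : p ≠ 0) : D.kl b p ≠ 0 := by
  obtain ⟨n, p', h1, h2, h3, h4⟩ := kl_spec hD hp h
  rw [h4 n le_rfl]
  refine cl_ne_zero (hli n) h1 h2 ?_
  rintro rfl
  rw [sub_zero] at h3
  have := hp.one_le_norm h0
  norm_num at h3
  linarith

lemma kl_mem (hD : D.Sm) {G : AddSubgroup V} (hG : ∀ k, ∀ v ∈ D.vs k, v ∈ G)
    {p : H →L[ℂ] H} (hp : Pj p) (h : p ∈ closure (D.FU b)) : D.kl b p ∈ G := by
  obtain ⟨n, p', h1, h2, h3, h4⟩ := kl_spec hD hp h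
  rw [h4 n le_rfl]
  exact sum_mem fun v hv => nsmul_mem (hG n v hv) _

lemma kl_add (hD : D.Sm) {p p₁ p₂ : H →L[ℂ] H} (hp : Pj p) (h : p ∈ closure (D.FU b))
    (hp₁ : Pj p₁) (h₁ : p₁ ∈ closure (D.FU b)) (hp₂ : Pj p₂) (h₂ : p₂ ∈ closure (D.FU b))
    (he : p = p₁ + p₂) : D.kl b p = D.kl b p₁ + D.kl b p₂ := by
  obtain ⟨n, q, a1, a2, a3, a4⟩ := kl_spec hD hp h
  obtain ⟨n₁, q₁, b1, b2, b3, b4⟩ := kl_spec hD hp₁ h₁
  obtain ⟨n₂, q₂, c1, c2, c3, c4⟩ := kl_spec hD hp₂ h₂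
  set k := max n (max n₁ n₂) with hk
  rw [a4 k (by omega), b4 k (by omega), c4 k (by omega)]
  unfold cl
  rw [← Finset.sum_add_distrib]
  refine Finset.sum_congr rfl fun v _ => ?_
  rw [← add_smul]
  congr 1
  have e0 : q ∈ D.F b k := F_mono (by omega) a1
  have e1 : q₁ ∈ D.F b k := F_mono (by omega) b1
  have e2 : q₂ ∈ D.F b k := F_mono (by omega) c1
  refine rank_add (PB_finite k v) (PB_comm e0 v) a2 (PB_comm e1 v) b2 (PB_comm e2 v) c2 ?_
  have : q₁ + q₂ - q = (p - q) - (p₁ - q₁) - (p₂ - q₂) := by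
    rw [he]
    abel
  rw [this]
  calc _ ≤ ‖(p - q) - (p₁ - q₁)‖ + ‖p₂ - q₂‖ := norm_sub_le _ _
    _ ≤ ‖p - q‖ + ‖p₁ - q₁‖ + ‖p₂ - q₂‖ := by gcongr; exact norm_sub_le _ _
    _ ≤ 1 / 4 := by linarith

lemma kl_eqv (hD : D.Sm) {p p₁ v : H →L[ℂ] H} (hp : Pj p) (h : p ∈ closure (D.FU b))
    (hp₁ : Pj p₁) (h₁ : p₁ ∈ closure (D.FU b)) (hv : v ∈ closure (D.FU b))
    (e : star v * v = p) (e₁ : v * star v = p₁) : D.kl b p = D.kl b p₁ := by
  obtain ⟨w, hw, hd⟩ := Metric.mem_closure_iff.1 hv (1 / 20) (by norm_num)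
  obtain ⟨n, hn⟩ := Set.mem_iUnion.1 hw
  rw [dist_eq_norm] at hd
  obtain ⟨n₀, q, a1, a2, a3, a4⟩ := kl_spec hD hp h
  obtain ⟨n₁, q₁, b1, b2, b3, b4⟩ := kl_spec hD hp₁ h₁
  set k := max n (max n₀ n₁) with hk
  rw [a4 k (by omega), b4 k (by omega)]
  unfold cl
  refine Finset.sum_congr rfl fun u _ => ?_
  congr 1
  have e0 : q ∈ D.F b k := F_mono (by omega) a1
  have e1 : q₁ ∈ D.F b k := F_mono (by omega) b1
  have e2 : w ∈ D.F b k := F_mono (by omega) hn
  have hv1 : ‖v‖ ≤ 1 := by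
    have h3 := CStarRing.norm_star_mul_self (x := v)
    rw [e] at h3
    have h4 := hp.norm_le_one
    by_contra h5
    push Not at h5
    nlinarith
  have hw1 : ‖w‖ ≤ 1 + 1 / 20 := by
    have : w = v - (v - w) := by abel
    rw [this]
    exact (norm_sub_le _ _).trans (add_le_add hv1 hd.le)
  refine rank_congr (PB_finite k u) (PB_pj k u) (PB_comm e0 u) a2 (PB_comm e1 u) b2
    (PB_comm e2 u) (δ := 1 / 4) (by norm_num) ?_ ?_
  · have : star w * w - q = (p - q) - (star (v - w) * v + star w * (v - w)) := by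
      rw [← e, star_sub, sub_mul, mul_sub]
      abel
    rw [this]
    have g1 : ‖star (v - w) * v‖ ≤ 1 / 20 * 1 := by
      refine (norm_mul_le _ _).trans ?_
      rw [norm_star]
      exact mul_le_mul hd.le hv1 (norm_nonneg _) (by norm_num)
    have g2 : ‖star w * (v - w)‖ ≤ (1 + 1 / 20) * (1 / 20) := by
      refine (norm_mul_le _ _).trans ?_
      rw [norm_star]
      exact mul_le_mul hw1 hd.le (norm_nonneg _) (by norm_num)
    calc _ ≤ ‖p - q‖ + ‖star (v - w) * v + star w * (v - w)‖ := norm_sub_le _ _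
      _ ≤ ‖p - q‖ + (‖star (v - w) * v‖ + ‖star w * (v - w)‖) := by
          gcongr; exact norm_add_le _ _
      _ ≤ 1 / 16 + (1 / 20 * 1 + (1 + 1 / 20) * (1 / 20)) := by gcongr
      _ ≤ 1 / 4 := by norm_num
  · have : w * star w - q₁ = (p₁ - q₁) - ((v - w) * star v + w * star (v - w)) := by
      rw [← e₁, star_sub, sub_mul, mul_sub]
      abel
    rw [this]
    have g1 : ‖(v - w) * star v‖ ≤ 1 / 20 * 1 := by
      refine (norm_mul_le _ _).trans ?_
      rw [norm_star]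
      exact mul_le_mul hd.le hv1 (norm_nonneg _) (by norm_num)
    have g2 : ‖w * star (v - w)‖ ≤ (1 + 1 / 20) * (1 / 20) := by
      refine (norm_mul_le _ _).trans ?_
      rw [norm_star]
      exact mul_le_mul hw1 hd.le (norm_nonneg _) (by norm_num)
    calc _ ≤ ‖p₁ - q₁‖ + ‖(v - w) * star v + w * star (v - w)‖ := norm_sub_le _ _
      _ ≤ ‖p₁ - q₁‖ + (‖(v - w) * star v‖ + ‖w * star (v - w)‖) := by
          gcongr; exact norm_add_le _ _
      _ ≤ 1 / 16 + (1 / 20 * 1 + (1 + 1 / 20) * (1 / 20)) := by gcongr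
      _ ≤ 1 / 4 := by norm_num

end grp

end Dg

end Pool.Agent.L7h66.SA
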