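import Mathlib

/-!
# Diagrams and their paths

A diagram with vertices in `V` has a root and, for each level `k` and each vertex `v`, a nonempty
list of the end points of the edges which leave `v` at level `k`.  A path is a sequence of choices of
edges, starting at the root, which eventually chooses the edge `0`.
-/

set_option autoImplicit false

namespace Pool.Agent.L7h66.SA

universe u

/-- a diagram -/
structure Dg (V : Type u) where
  /-- the root -/
  r : V
  /-- the end points of the edges which leave `v` at level `k` -/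
  el : ℕ → V → List V
  ne : ∀ k v, el k v ≠ []

/-- sequences which are eventually zero -/
abbrev Om : Type := ℕ →₀ ℕ

variable {V : Type u} (D : Dg V)

namespace Dg

/-- the number of edges -/
def od (k : ℕ) (v : V) : ℕ := (D.el k v).length

/-- the end point of the edge `i` -/
def nx (k : ℕ) (v : V) (i : ℕ) : V := (D.el k v).getD i D.r

lemma od_pos (k : ℕ) (v : V) : 0 < D.od k v := List.length_pos_iff.2 (D.ne k v)

/-- the vertex at level `n` of a sequence of choices -/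
def st (c : ℕ → ℕ) : ℕ → V
  | 0 => D.r
  | n + 1 => D.nx n (st c n) (c n)

lemma st_zero (c : ℕ → ℕ) : D.st c 0 = D.r := rfl

lemma st_succ (c : ℕ → ℕ) (n : ℕ) : D.st c (n + 1) = D.nx n (D.st c n) (c n) := rfl

variable {D}

lemma st_congr {c c' : ℕ → ℕ} {k : ℕ} (h : ∀ n < k, c n = c' n) {n : ℕ} (hn : n ≤ k) :
    D.st c n = D.st c' n := by
  induction n with
  | zero => rfl
  | succ n ih => rw [st, st, ih (by omega), h n (by omega)]

lemma st_tail {c c' : ℕ → ℕ} {k : ℕ} (h0 : D.st c k = D.st c' k)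
    (h : ∀ n, k ≤ n → c n = c' n) {n : ℕ} (hn : k ≤ n) : D.st c n = D.st c' n := by
  induction n, hn using Nat.le_induction with
  | base => exact h0
  | succ n hn ih => rw [st, st, ih, h n hn]

variable (D)

/-- valid paths -/
def Val (w : Om) : Prop := ∀ n, w n < D.od n (D.st w n)

/-- same tail -/
def Tl (k : ℕ) (w x : Om) : Prop := D.st w k = D.st x k ∧ ∀ n, k ≤ n → w n = x n

end Dg

/-- same head -/
def Hd (k : ℕ) (w a : Om) : Prop := ∀ n < k, w n = a n

lemma Hd.refl (k : ℕ) (w : Om) : Hd k w w := fun _ _ => rfl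
lemma Hd.symm {k : ℕ} {w a : Om} (h : Hd k w a) : Hd k a w := fun n hn => (h n hn).symm
lemma Hd.trans {k : ℕ} {u v w : Om} (h : Hd k u v) (h' : Hd k v w) : Hd k u w :=
  fun n hn => (h n hn).trans (h' n hn)
lemma Hd.mono {k j : ℕ} (hk : k ≤ j) {u v : Om} (h : Hd j u v) : Hd k u v :=
  fun n hn => h n (by omega)

variable {D}

lemma Hd.at_eq {k : ℕ} {w a : Om} (h : Hd k w a) : D.st w k = D.st a k := Dg.st_congr h le_rfl

namespace Dg

lemma Tl.refl (k : ℕ) (w : Om) : D.Tl k w w := ⟨rfl, fun _ _ => rfl⟩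
lemma Tl.symm {k : ℕ} {w a : Om} (h : D.Tl k w a) : D.Tl k a w :=
  ⟨h.1.symm, fun n hn => (h.2 n hn).symm⟩
lemma Tl.trans {k : ℕ} {u v w : Om} (h : D.Tl k u v) (h' : D.Tl k v w) : D.Tl k u w :=
  ⟨h.1.trans h'.1, fun n hn => (h.2 n hn).trans (h'.2 n hn)⟩
lemma Tl.mono {k j : ℕ} (hk : k ≤ j) {u v : Om} (h : D.Tl k u v) : D.Tl j u v :=
  ⟨st_tail h.1 h.2 hk, fun n hn => h.2 n (by omega)⟩

lemma eq_of_hd_tl {k : ℕ} {u v : Om} (h : Hd k u v) (h' : D.Tl k u v) : u = v := by
  ext n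
  rcases lt_or_ge n k with hn | hn
  · exact h n hn
  · exact h'.2 n hn

/-- validity from the head and the tail -/
lemma val_of {k : ℕ} {v w u : Om} (hw : D.Val w) (hu : D.Val u) (h1 : Hd k v w)
    (h2 : D.Tl k v u) : D.Val v := by
  intro n
  rcases lt_or_ge n k with hn | hn
  · rw [h1 n hn, st_congr (D := D) h1 hn.le]
    exact hw n
  · rw [h2.2 n hn, (h2.mono hn).1]
    exact hu n

end Dg

/-- the sequence with the head of `b` and the tail of `w` -/
noncomputable def splice (k : ℕ) (b w : Om) : Om :=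
  Finsupp.ofSupportFinite (fun n => if n < k then b n else w n) (by
    refine ((Set.finite_Iio k).union w.hasFiniteSupport).subset ?_
    intro n hn
    rw [Function.mem_support] at hn
    by_cases h : n < k
    · exact Or.inl h
    · rw [if_neg h] at hn
      exact Or.inr hn)

lemma splice_apply (k : ℕ) (b w : Om) (n : ℕ) :
    splice k b w n = if n < k then b n else w n := rfl

lemma hd_splice (k : ℕ) (b w : Om) : Hd k (splice k b w) b := by
  intro n hn
  rw [splice_apply, if_pos hn]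

lemma splice_tail (k : ℕ) (b w : Om) {n : ℕ} (hn : k ≤ n) : splice k b w n = w n := by
  rw [splice_apply, if_neg (not_lt.2 hn)]

namespace Dg

lemma tl_splice {k : ℕ} {b w : Om} (h : D.st b k = D.st w k) : D.Tl k (splice k b w) w :=
  ⟨(hd_splice k b w).at_eq.trans h, fun n hn => splice_tail k b w hn⟩

lemma splice_eq {k : ℕ} {b w u : Om} (h1 : Hd k u b) (h2 : ∀ n, k ≤ n → u n = w n) :
    splice k b w = u := by
  ext n
  rw [splice_apply]
  split_ifs with h
  · exact (h1 n h).symm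
  · exact (h2 n (not_lt.1 h)).symm

lemma val_splice {k : ℕ} {b w : Om} (hb : D.Val b) (hw : D.Val w)
    (h : D.st b k = D.st w k) : D.Val (splice k b w) :=
  val_of hb hw (hd_splice k b w) (tl_splice h)

end Dg

/-- truncation -/
noncomputable def tr (k : ℕ) (w : Om) : Om := splice k w 0

lemma hd_tr (k : ℕ) (w : Om) : Hd k (tr k w) w := hd_splice _ _ _

lemma tr_tail (k : ℕ) (w : Om) {n : ℕ} (hn : k ≤ n) : tr k w n = 0 := splice_tail _ _ _ hn

lemma tr_eq {k : ℕ} {w u : Om} (h : Hd k u w) (hu : ∀ n, k ≤ n → u n = 0) : tr k w = u :=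
  Dg.splice_eq h hu

lemma tr_self {k : ℕ} {w : Om} (hw : ∀ n, k ≤ n → w n = 0) : tr k w = w :=
  tr_eq (Hd.refl _ _) hw

lemma tr_congr {k : ℕ} {w u : Om} (h : Hd k u w) : tr k w = tr k u :=
  tr_eq ((hd_tr k u).trans h) fun _ hn => tr_tail _ _ hn

lemma tr_tr {k j : ℕ} (hkj : k ≤ j) (w : Om) : tr k (tr j w) = tr k w :=
  tr_eq ((hd_tr k w).trans ((hd_tr j w).symm.mono hkj)) fun _ hn => tr_tail _ _ hn

lemma hd_of_tr {k : ℕ} {w u : Om} (h : tr k w = tr k u) : Hd k w u :=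
  (hd_tr k w).symm.trans (h ▸ hd_tr k u)

namespace Dg

variable (D) in
lemma tr_at (k : ℕ) (w : Om) : D.st (tr k w) k = D.st w k := (hd_tr k w).at_eq

lemma val_tr {w : Om} (hw : D.Val w) (k : ℕ) : D.Val (tr k w) := by
  intro n
  rcases lt_or_ge n k with hn | hn
  · rw [hd_tr k w n hn, st_congr (D := D) (hd_tr k w) hn.le]
    exact hw n
  · rw [tr_tail k w hn]
    exact D.od_pos _ _

variable (D)

lemma val_zero : D.Val 0 := by
  intro n
  exact D.od_pos _ _

/-- the heads of length `k` (extended by zero) -/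
def P (k : ℕ) : Set Om := {w | D.Val w ∧ ∀ n, k ≤ n → w n = 0}

variable {D}

lemma mem_P {k : ℕ} {w : Om} : w ∈ D.P k ↔ D.Val w ∧ ∀ n, k ≤ n → w n = 0 := Iff.rfl

lemma tr_mem_P {w : Om} (hw : D.Val w) (k : ℕ) : tr k w ∈ D.P k :=
  ⟨val_tr hw k, fun _ hn => tr_tail _ _ hn⟩

lemma P_mono {k j : ℕ} (h : k ≤ j) : D.P k ⊆ D.P j := fun _ hw =>
  ⟨hw.1, fun n hn => hw.2 n (h.trans hn)⟩

lemma zero_mem_P (k : ℕ) : (0 : Om) ∈ D.P k := ⟨D.val_zero, fun _ _ => rfl⟩

lemma P_zero : D.P 0 = {0} := by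
  ext w
  constructor
  · rintro ⟨-, h⟩
    exact Finsupp.ext fun n => h n (Nat.zero_le n)
  · rintro rfl
    exact zero_mem_P 0

lemma eq_of_P {k : ℕ} {w u : Om} (hw : w ∈ D.P k) (hu : u ∈ D.P k) (h : Hd k w u) : w = u := by
  ext n
  rcases lt_or_ge n k with hn | hn
  · exact h n hn
  · rw [hw.2 n hn, hu.2 n hn]

lemma exists_P {w : Om} (hw : D.Val w) : ∃ k, ∀ j, k ≤ j → w ∈ D.P j := by
  obtain ⟨N, hN⟩ := w.hasFiniteSupport.bddAbove
  refine ⟨N + 1, fun j hj => ⟨hw, fun n hn => ?_⟩⟩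
  by_contra h
  have := hN (show n ∈ Function.support w from h)
  omega

/-- extension of a head by an edge -/
noncomputable def _root_.Pool.Agent.L7h66.SA.ext (k : ℕ) (a : Om) (i : ℕ) : Om :=
  splice k a (Finsupp.single k i)

end Dg

lemma ext_hd (k : ℕ) (a : Om) (i : ℕ) : Hd k (ext k a i) a := hd_splice _ _ _

lemma ext_self (k : ℕ) (a : Om) (i : ℕ) : ext k a i k = i := by
  rw [ext, splice_tail k _ _ le_rfl, Finsupp.single_eq_same]

lemma ext_zero {k : ℕ} (a : Om) (i : ℕ) {n : ℕ} (hn : k + 1 ≤ n) : ext k a i n = 0 := by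
  rw [ext, splice_tail k _ _ (by omega), Finsupp.single_apply, if_neg (by omega)]

lemma tr_ext {k : ℕ} {a : Om} (i : ℕ) (ha : ∀ n, k ≤ n → a n = 0) : tr k (ext k a i) = a :=
  tr_eq (ext_hd k a i).symm ha

lemma ext_tr {k : ℕ} {w : Om} (hw : ∀ n, k + 1 ≤ n → w n = 0) : ext k (tr k w) (w k) = w := by
  ext n
  rcases lt_trichotomy n k with h | h | h
  · rw [ext_hd k _ _ n h, hd_tr k w n h]
  · subst h
    exact ext_self _ _ _
  · rw [ext_zero _ _ h, hw n h]

lemma hd_ext_iff {k : ℕ} {a w : Om} {i : ℕ} :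
    Hd (k + 1) w (ext k a i) ↔ Hd k w a ∧ w k = i := by
  constructor
  · intro h1
    exact ⟨(h1.mono (Nat.le_succ k)).trans (ext_hd k a i),
      (h1 k (Nat.lt_succ_self k)).trans (ext_self _ _ _)⟩
  · rintro ⟨h1, h2⟩ n hn
    rcases Nat.lt_succ_iff_lt_or_eq.1 hn with h4 | h4
    · rw [ext_hd k a i n h4]
      exact h1 n h4
    · subst h4
      rw [ext_self]
      exact h2

namespace Dg

lemma ext_at (k : ℕ) (a : Om) (i : ℕ) : D.st (ext k a i) (k + 1) = D.nx k (D.st a k) i := by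
  rw [st_succ, (ext_hd k a i).at_eq, ext_self]

lemma ext_mem_P {k : ℕ} {a : Om} (ha : a ∈ D.P k) {i : ℕ} (hi : i < D.od k (D.st a k)) :
    ext k a i ∈ D.P (k + 1) := by
  refine ⟨fun n => ?_, fun n hn => ext_zero _ _ hn⟩
  rcases lt_trichotomy n k with h | h | h
  · rw [ext_hd k _ _ n h, st_congr (D := D) (ext_hd k a i) h.le]
    exact ha.1 n
  · subst h
    rw [ext_self, (ext_hd n a i).at_eq]
    exact hi
  · rw [ext_zero _ _ h]
    exact D.od_pos _ _

lemma mem_P_succ {k : ℕ} {w : Om} (hw : w ∈ D.P (k + 1)) :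
    tr k w ∈ D.P k ∧ w k < D.od k (D.st (tr k w) k) ∧ ext k (tr k w) (w k) = w :=
  ⟨tr_mem_P hw.1 k, by rw [tr_at]; exact hw.1 k, ext_tr hw.2⟩

/-- induction on the heads -/
lemma P_finite (k : ℕ) : (D.P k).Finite := by
  induction k with
  | zero => rw [P_zero]; exact Set.finite_singleton _
  | succ k ih =>
    have h : D.P (k + 1) ⊆ ⋃ a ∈ D.P k, (fun i => ext k a i) '' Set.Iio (D.od k (D.st a k)) := by
      intro w hw
      obtain ⟨h1, h2, h3⟩ := mem_P_succ hw
      refine Set.mem_biUnion h1 ⟨w k, h2, h3⟩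
    exact (ih.biUnion fun a _ => (Set.finite_Iio _).image _).subset h

variable (D) in
/-- the heads as a finite set -/
noncomputable def Pf (k : ℕ) : Finset Om := (P_finite (D := D) k).toFinset

lemma mem_Pf {k : ℕ} {w : Om} : w ∈ D.Pf k ↔ w ∈ D.P k := Set.Finite.mem_toFinset _

/-- sums over the heads of the next level -/
lemma sum_Pf_succ {M : Type*} [AddCommMonoid M] (k : ℕ) (g : Om → M) :
    ∑ w ∈ D.Pf (k + 1), g w =
      ∑ a ∈ D.Pf k, ∑ i ∈ Finset.range (D.od k (D.st a k)), g (ext k a i) := by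
  rw [Finset.sum_sigma']
  refine Finset.sum_nbij' (fun w => ⟨tr k w, w k⟩) (fun q => ext k q.1 q.2) ?_ ?_ ?_ ?_ ?_
  · intro w hw
    obtain ⟨h1, h2, -⟩ := mem_P_succ (mem_Pf.1 hw)
    rw [Finset.mem_sigma]
    exact ⟨mem_Pf.2 h1, Finset.mem_range.2 h2⟩
  · rintro ⟨a, i⟩ hq
    rw [Finset.mem_sigma] at hq
    exact mem_Pf.2 (ext_mem_P (mem_Pf.1 hq.1) (Finset.mem_range.1 hq.2))
  · intro w hw
    exact (mem_P_succ (mem_Pf.1 hw)).2.2
  · rintro ⟨a, i⟩ hq
    rw [Finset.mem_sigma] at hq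
    have h1 : tr k (ext k a i) = a := tr_ext i (mem_Pf.1 hq.1).2
    have h2 : ext k a i k = i := ext_self _ _ _
    dsimp only
    rw [h1, h2]
  · intro w hw
    dsimp only
    rw [(mem_P_succ (mem_Pf.1 hw)).2.2]

end Dg

end Pool.Agent.L7h66.SA
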