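import Mathlib

/-!
# Positive bases

Finitely many elements on which a functional is positive are strictly positive integral combinations
of a basis on which the functional is positive; the basis is contained in each group which contains
the elements and is closed under division by two.
-/

set_option autoImplicit false

namespace Pool.Agent.L7h66.SA

universe u

variable {Γ : Type u} [AddCommGroup Γ] [Module ℚ Γ]

/-- the values of a functional on a finitely generated group are multiples of one of them -/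
lemma exists_gen (s : Γ →ₗ[ℚ] ℚ) (A : Finset Γ) (hA : A.Nonempty) (hs : ∀ a ∈ A, 0 < s a) :
    ∃ b ∈ AddSubgroup.closure (A : Set Γ), 0 < s b ∧
      ∀ m ∈ AddSubgroup.closure (A : Set Γ), ∃ z : ℤ, s m = z * s b := by
  classical
  set M := AddSubgroup.closure (A : Set Γ) with hM
  set N : ℕ := ∏ a ∈ A, (s a).den with hN
  have hNpos : 0 < N := Finset.prod_pos fun a _ => (s a).den_pos
  have hint : ∀ m ∈ M, ∃ z : ℤ, (N : ℚ) * s m = z := by
    intro m hm
    rw [hM] at hm
    induction hm using AddSubgroup.closure_induction with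
    | mem x hx =>
      obtain ⟨c, hc⟩ := Finset.dvd_prod_of_mem (fun a => (s a).den) hx
      refine ⟨c * (s x).num, ?_⟩
      have h1 : ((s x).den : ℚ) * s x = (s x).num := by
        rw [mul_comm]
        exact Rat.mul_den_eq_num (s x)
      have h2 : (N : ℚ) = ((s x).den : ℚ) * c := by
        rw [hN, hc]
        push_cast
        ring
      push_cast
      rw [h2, ← h1]
      ring
    | zero => exact ⟨0, by simp⟩
    | add x y _ _ hx hy =>
      obtain ⟨z, hz⟩ := hx
      obtain ⟨z', hz'⟩ := hy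
      exact ⟨z + z', by rw [map_add, mul_add, hz, hz']; push_cast; ring⟩
    | neg x _ hx =>
      obtain ⟨z, hz⟩ := hx
      exact ⟨-z, by rw [map_neg, mul_neg, hz]; push_cast; ring⟩
  let I : AddSubgroup ℤ :=
    { carrier := {z | ∃ m ∈ M, (N : ℚ) * s m = z}
      add_mem' := by
        rintro z z' ⟨m, hm, h⟩ ⟨m', hm', h'⟩
        refine ⟨m + m', add_mem hm hm', ?_⟩
        rw [map_add, mul_add, h, h']
        push_cast
        ring
      zero_mem' := ⟨0, zero_mem _, by simp⟩
      neg_mem' := by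
        rintro z ⟨m, hm, h⟩
        refine ⟨-m, neg_mem hm, ?_⟩
        rw [map_neg, mul_neg, h]
        push_cast
        ring }
  obtain ⟨g, hg⟩ := Int.subgroup_cyclic I
  have hgI : g ∈ I := by rw [hg]; exact AddSubgroup.subset_closure rfl
  obtain ⟨m, hm, hmg⟩ := hgI
  have hz : ∀ x ∈ M, ∃ z : ℤ, s x = z * s m := by
    intro x hx
    obtain ⟨y, hy⟩ := hint x hx
    have h1 : y ∈ I := ⟨x, hx, hy⟩
    rw [hg, AddSubgroup.mem_closure_singleton] at h1
    obtain ⟨z, hz⟩ := h1
    refine ⟨z, ?_⟩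
    have hN0 : (N : ℚ) ≠ 0 := by exact_mod_cast hNpos.ne'
    have h2 : (N : ℚ) * s x = N * (z * s m) := by
      rw [hy, ← hz, smul_eq_mul]
      push_cast
      rw [← hmg]
      ring
    exact mul_left_cancel₀ hN0 h2
  obtain ⟨a, ha⟩ := hA
  have hsm : s m ≠ 0 := by
    intro h
    obtain ⟨z, hz'⟩ := hz a (AddSubgroup.subset_closure ha)
    have := hs a ha
    rw [hz', h, mul_zero] at this
    exact lt_irrefl _ this
  rcases lt_or_gt_of_ne hsm with h | h
  · refine ⟨-m, neg_mem hm, by rw [map_neg]; linarith, fun x hx => ?_⟩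
    obtain ⟨z, hz'⟩ := hz x hx
    exact ⟨-z, by rw [hz', map_neg]; push_cast; ring⟩
  · exact ⟨m, hm, h, hz⟩

/-- basis of the kernel -/
lemma exists_ker_basis (s : Γ →ₗ[ℚ] ℚ) (A : Finset Γ) :
    ∃ (k : ℕ) (f : Fin k → Γ), LinearIndependent ℚ f ∧ (∀ i, s (f i) = 0) ∧
      (∀ i, f i ∈ AddSubgroup.closure (A : Set Γ)) ∧
      ∀ m ∈ AddSubgroup.closure (A : Set Γ), s m = 0 → ∃ c : Fin k → ℤ, ∑ i, c i • f i = m := by
  let s' : Γ →ₗ[ℤ] ℚ := s.toAddMonoidHom.toIntLinearMap
  let M : Submodule ℤ Γ := Submodule.span ℤ (A : Set Γ)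
  let Kr : Submodule ℤ Γ := M ⊓ LinearMap.ker s'
  have hMn : IsNoetherian ℤ M := isNoetherian_span_of_finite ℤ A.finite_toSet
  have hKn : IsNoetherian ℤ Kr := isNoetherian_of_le (inf_le_left : Kr ≤ M)
  have hKf : Module.Finite ℤ Kr := inferInstance
  have htor0 : IsAddTorsionFree Γ := IsAddTorsionFree.of_module_rat Γ
  have hfree : Module.Free ℤ Kr := inferInstance
  let bs := Module.finBasis ℤ Kr
  have hmem : ∀ x, x ∈ M ↔ x ∈ AddSubgroup.closure (A : Set Γ) := by
    intro x
    rw [← Submodule.span_int_eq_addSubgroupClosure]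
    rfl
  refine ⟨_, fun i => (bs i : Γ), ?_, ?_, ?_, ?_⟩
  · rw [← LinearIndependent.iff_fractionRing ℤ ℚ]
    exact bs.linearIndependent.map' Kr.subtype (Submodule.ker_subtype Kr)
  · intro i
    exact (bs i).2.2
  · intro i
    exact (hmem _).1 (bs i).2.1
  · intro m hm hsm
    have h1 : m ∈ Kr := ⟨(hmem m).2 hm, hsm⟩
    refine ⟨fun i => bs.repr ⟨m, h1⟩ i, ?_⟩
    have h2 : ((∑ i, bs.repr ⟨m, h1⟩ i • bs i : Kr) : Γ) = m := by rw [bs.sum_repr]
    simpa only [Submodule.coe_sum, Submodule.coe_smul] using h2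

/-- positive bases -/
theorem exists_pos_basis (s : Γ →ₗ[ℚ] ℚ) (A : Finset Γ) (hA : A.Nonempty)
    (hs : ∀ a ∈ A, 0 < s a) :
    ∃ B : Finset Γ, LinearIndependent ℚ (fun v : B => (v : Γ)) ∧ (∀ v ∈ B, 0 < s v) ∧
      (∀ v ∈ B, ∀ G : AddSubgroup Γ, (∀ g ∈ G, (2 : ℚ)⁻¹ • g ∈ G) → (∀ a ∈ A, a ∈ G) → v ∈ G) ∧
      ∀ a ∈ A, ∃ c : Γ → ℕ, (∀ v ∈ B, 0 < c v) ∧ ∑ v ∈ B, c v • v = a := by
  classical
  obtain ⟨b0, hb0, hsb, hgen⟩ := exists_gen s A hA hs
  obtain ⟨k, f, f1, f2, f3, f4⟩ := exists_ker_basis s A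
  -- coordinates
  have h1 : ∀ a : Γ, ∃ (α : ℤ) (β : Fin k → ℤ), a ∈ A → 1 ≤ α ∧ a = α • b0 + ∑ i, β i • f i := by
    intro a
    by_cases ha : a ∈ A
    · have haM : a ∈ AddSubgroup.closure (A : Set Γ) := AddSubgroup.subset_closure ha
      obtain ⟨α, hα⟩ := hgen a haM
      have h2 : s (a - α • b0) = 0 := by
        rw [map_sub, map_zsmul, hα, zsmul_eq_mul, sub_self]
      obtain ⟨β, hβ⟩ := f4 _ (sub_mem haM (zsmul_mem hb0 α)) h2
      refine ⟨α, β, fun _ => ⟨?_, ?_⟩⟩
      · have h3 := hs a ha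
        rw [hα] at h3
        have h4 : (0 : ℚ) < α := (pos_iff_pos_of_mul_pos h3).2 hsb
        have h5 : 0 < α := by exact_mod_cast h4
        omega
      · rw [hβ]
        abel
    · exact ⟨0, 0, fun h => absurd h ha⟩
  choose α β hαβ using h1
  obtain ⟨C0, hC0⟩ := ((A ×ˢ (Finset.univ : Finset (Fin k))).image
    fun q => 1 - β q.1 q.2).exists_le
  have hC : ∀ a ∈ A, ∀ i, 1 ≤ β a i + C0.toNat * α a := by
    intro a ha i
    have h2 := hC0 (1 - β a i) (Finset.mem_image.2 ⟨(a, i), by simp [ha], rfl⟩)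
    have h3 : C0 ≤ C0.toNat := Int.self_le_toNat C0
    have h4 := (hαβ a ha).1
    have h5 : (C0.toNat : ℤ) * 1 ≤ C0.toNat * α a := by gcongr
    linarith
  set C := C0.toNat with hCdef
  obtain ⟨N0, hN0⟩ := (A.image fun a => ∑ i, (β a i + C * α a)).exists_le
  have hN : ∀ a ∈ A, ∑ i, (β a i + C * α a) < 2 ^ N0.toNat * α a := by
    intro a ha
    have h2 := hN0 _ (Finset.mem_image.2 ⟨a, ha, rfl⟩)
    have h3 : N0 ≤ N0.toNat := Int.self_le_toNat N0
    have h4 := (hαβ a ha).1
    have h5 : (N0.toNat : ℤ) < 2 ^ N0.toNat := by exact_mod_cast Nat.lt_two_pow_self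
    have h6 : (2 : ℤ) ^ N0.toNat * 1 ≤ 2 ^ N0.toNat * α a := by gcongr
    linarith
  set N := N0.toNat with hNdef
  -- the basis
  set b1 : Γ := b0 - C • ∑ i, f i with hb1
  set b' : Γ := ((2 : ℚ) ^ N)⁻¹ • b1 with hb'
  let v : Option (Fin k) → Γ := fun o => o.elim b' fun i => b' + f i
  have hsb1 : s b1 = s b0 := by
    rw [hb1, map_sub, map_nsmul, map_sum, Finset.sum_eq_zero fun i _ => f2 i, smul_zero, sub_zero]
  have hsb' : 0 < s b' := by
    rw [hb', map_smul, hsb1, smul_eq_mul]
    positivity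
  have hsv : ∀ o, s (v o) = s b' := by
    rintro (_ | i)
    · rfl
    · change s (b' + f i) = s b'
      rw [map_add, f2, add_zero]
  have hli : LinearIndependent ℚ v := by
    rw [Fintype.linearIndependent_iff]
    intro g hg
    have e1 : ∑ o, g o = 0 := by
      have h2 := congrArg s hg
      rw [map_sum, map_zero] at h2
      have h3 : ∑ o, s (g o • v o) = (∑ o, g o) * s b' := by
        rw [Finset.sum_mul]
        refine Finset.sum_congr rfl fun o _ => ?_
        rw [map_smul, hsv, smul_eq_mul]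
      rw [h3] at h2
      exact (mul_eq_zero.1 h2).resolve_right hsb'.ne'
    have e2 : ∑ i, g (some i) • f i = 0 := by
      rw [Fintype.sum_option] at hg e1
      have h2 : ∑ i, g (some i) • v (some i) = (∑ i, g (some i)) • b' + ∑ i, g (some i) • f i := by
        rw [Finset.sum_smul, ← Finset.sum_add_distrib]
        refine Finset.sum_congr rfl fun i _ => ?_
        change g (some i) • (b' + f i) = _
        rw [smul_add]
      rw [h2] at hg
      change g none • b' + ((∑ i, g (some i)) • b' + ∑ i, g (some i) • f i) = 0 at hg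
      rw [← add_assoc, ← add_smul, e1, zero_smul, zero_add] at hg
      exact hg
    rw [Fintype.linearIndependent_iff] at f1
    have e3 := f1 _ e2
    rintro (_ | i)
    · rw [Fintype.sum_option, Finset.sum_eq_zero fun i _ => e3 i, add_zero] at e1
      exact e1
    · exact e3 i
  have hinj : Function.Injective v := hli.injective
  refine ⟨Finset.univ.image v, ?_, ?_, ?_, ?_⟩
  · have h2 : ∀ x : (Finset.univ.image v : Finset Γ), ∃ o, v o = x := by
      intro x
      obtain ⟨o, -, ho⟩ := Finset.mem_image.1 x.2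
      exact ⟨o, ho⟩
    choose ι hι using h2
    have h3 : (fun x : (Finset.univ.image v : Finset Γ) => (x : Γ)) = v ∘ ι := by
      funext x
      exact (hι x).symm
    rw [h3]
    refine hli.comp ι ?_
    intro x y h
    apply Subtype.ext
    rw [← hι x, ← hι y, h]
  · intro w hw
    obtain ⟨o, -, rfl⟩ := Finset.mem_image.1 hw
    rw [hsv]
    exact hsb'
  · intro w hw G hG2 hGA
    have hGM : AddSubgroup.closure (A : Set Γ) ≤ G := (AddSubgroup.closure_le G).2 hGA
    have hGN : ∀ (n : ℕ), ∀ g ∈ G, ((2 : ℚ) ^ n)⁻¹ • g ∈ G := by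
      intro n
      induction n with
      | zero => intro g hg; simpa using hg
      | succ n ih =>
        intro g hg
        rw [pow_succ, mul_inv, mul_comm, mul_smul]
        exact hG2 _ (ih g hg)
    have hb'G : b' ∈ G := hGN N _ (sub_mem (hGM hb0)
      (nsmul_mem (sum_mem fun i _ => hGM (f3 i)) _))
    obtain ⟨o, -, rfl⟩ := Finset.mem_image.1 hw
    rcases o with _ | i
    · exact hb'G
    · exact add_mem hb'G (hGM (f3 i))
  · intro a ha
    obtain ⟨hα1, hae⟩ := hαβ a ha
    let n : Option (Fin k) → ℕ := fun o => o.elim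
      ((2 ^ N * α a - ∑ i, (β a i + C * α a)).toNat) fun i => (β a i + C * α a).toNat
    have n0 : (n none : ℤ) = 2 ^ N * α a - ∑ i, (β a i + C * α a) :=
      Int.toNat_of_nonneg (by have := hN a ha; linarith)
    have n1 : ∀ i, (n (some i) : ℤ) = β a i + C * α a := fun i =>
      Int.toNat_of_nonneg (by have := hC a ha i; linarith)
    refine ⟨Function.extend v n 0, ?_, ?_⟩
    · intro w hw
      obtain ⟨o, -, rfl⟩ := Finset.mem_image.1 hw
      rw [hinj.extend_apply]
      rcases o with _ | i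
      · have := hN a ha
        have h2 : (0 : ℤ) < n none := by rw [n0]; linarith
        exact_mod_cast h2
      · have := hC a ha i
        have h2 : (0 : ℤ) < n (some i) := by rw [n1]; linarith
        exact_mod_cast h2
    · rw [Finset.sum_image fun x _ y _ h => hinj h]
      have h2 : ∀ o ∈ (Finset.univ : Finset (Option (Fin k))),
          Function.extend v n 0 (v o) • v o = ((n o : ℤ) : ℚ) • v o := by
        intro o _
        rw [hinj.extend_apply, Int.cast_natCast, Nat.cast_smul_eq_nsmul]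
      rw [Finset.sum_congr rfl h2, Fintype.sum_option]
      have h3 : ∀ i ∈ (Finset.univ : Finset (Fin k)), ((n (some i) : ℤ) : ℚ) • v (some i) =
          ((β a i + C * α a : ℤ) : ℚ) • b' + ((β a i + C * α a : ℤ) : ℚ) • f i := by
        intro i _
        rw [n1]
        exact smul_add _ _ _
      rw [Finset.sum_congr rfl h3, Finset.sum_add_distrib, ← Finset.sum_smul, n0]
      change ((2 ^ N * α a - ∑ i, (β a i + C * α a) : ℤ) : ℚ) • b' + _ = a
      rw [← add_assoc, ← add_smul]
      have h4 : ((2 ^ N * α a - ∑ i, (β a i + C * α a) : ℤ) : ℚ) +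
          ∑ i, ((β a i + C * α a : ℤ) : ℚ) = 2 ^ N * α a := by
        push_cast
        ring
      have h5 : ((2 : ℚ) ^ N * α a) • b' = (α a : ℚ) • b1 := by
        rw [hb', smul_smul]
        congr 1
        have : (2 : ℚ) ^ N ≠ 0 := by positivity
        field_simp
      have h6 : ∑ i, ((β a i + C * α a : ℤ) : ℚ) • f i =
          ∑ i, (β a i : ℚ) • f i + ((C : ℚ) * α a) • ∑ i, f i := by
        rw [Finset.smul_sum, ← Finset.sum_add_distrib]
        refine Finset.sum_congr rfl fun i _ => ?_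
        rw [← add_smul]
        push_cast
        rfl
      rw [h4, h5, h6, hb1, smul_sub]
      have h7 : (α a : ℚ) • (C • ∑ i, f i) = ((C : ℚ) * α a) • ∑ i, f i := by
        rw [← Nat.cast_smul_eq_nsmul ℚ, smul_smul, mul_comm]
      rw [h7]
      have h8 : (α a : ℚ) • b0 + ∑ i, (β a i : ℚ) • f i = a := by
        conv_rhs => rw [hae]
        simp only [Int.cast_smul_eq_zsmul]
      conv_rhs => rw [← h8]
      abel

end Pool.Agent.L7h66.SA
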