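import Pool.Agent.L7h66.SA.Lift
import Pool.Agent.L7h66.SA.Lat

/-!
# The diagram of a group with a state
-/

set_option autoImplicit false
set_option linter.unusedSectionVars false

namespace Pool.Agent.L7h66.SA

universe u v

variable {Γ : Type u} [AddCommGroup Γ] [Module ℚ Γ] (s : Γ →ₗ[ℚ] ℚ)

open Classical in
/-- the positive basis of a finite set -/
noncomputable def Fb (A : Finset Γ) : Finset Γ :=
  if h : A.Nonempty ∧ ∀ a ∈ A, 0 < s a then (exists_pos_basis s A h.1 h.2).choose else ∅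

lemma Fb_spec {A : Finset Γ} (h1 : A.Nonempty) (h2 : ∀ a ∈ A, 0 < s a) :
    LinearIndependent ℚ (fun v : Fb s A => (v : Γ)) ∧ (∀ v ∈ Fb s A, 0 < s v) ∧
      (∀ v ∈ Fb s A, ∀ G : AddSubgroup Γ, (∀ g ∈ G, (2 : ℚ)⁻¹ • g ∈ G) → (∀ a ∈ A, a ∈ G) →
        v ∈ G) ∧
      ∀ a ∈ A, ∃ c : Γ → ℕ, (∀ v ∈ Fb s A, 0 < c v) ∧ ∑ v ∈ Fb s A, c v • v = a := by
  have h : A.Nonempty ∧ ∀ a ∈ A, 0 < s a := ⟨h1, h2⟩
  have e : Fb s A = (exists_pos_basis s A h.1 h.2).choose := dif_pos h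
  rw [e]
  exact (exists_pos_basis s A h.1 h.2).choose_spec

open Classical in
/-- the coefficients of a positive combination -/
noncomputable def cf (B : Finset Γ) (a : Γ) : Γ → ℕ :=
  if h : ∃ c : Γ → ℕ, (∀ v ∈ B, 0 < c v) ∧ ∑ v ∈ B, c v • v = a then h.choose else 0

/-- the list of a positive combination -/
noncomputable def lst (B : Finset Γ) (a : Γ) : List Γ :=
  (∑ v ∈ B, cf B a v • ({v} : Multiset Γ)).toList

lemma lst_sum {B : Finset Γ} {a : Γ}
    (h : ∃ c : Γ → ℕ, (∀ v ∈ B, 0 < c v) ∧ ∑ v ∈ B, c v • v = a) : (lst B a).sum = a := by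
  have e : cf B a = h.choose := dif_pos h
  have h1 := h.choose_spec.2
  rw [← e] at h1
  unfold lst
  rw [Multiset.sum_toList]
  have h2 : (∑ v ∈ B, cf B a v • ({v} : Multiset Γ)).sum = ∑ v ∈ B, cf B a v • v := by
    rw [← Multiset.coe_sumAddMonoidHom, map_sum]
    refine Finset.sum_congr rfl fun v _ => ?_
    rw [map_nsmul]
    simp
  rw [h2, h1]

lemma mem_lst {B : Finset Γ} {a : Γ}
    (h : ∃ c : Γ → ℕ, (∀ v ∈ B, 0 < c v) ∧ ∑ v ∈ B, c v • v = a) (v : Γ) :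
    v ∈ lst B a ↔ v ∈ B := by
  have e : cf B a = h.choose := dif_pos h
  have h1 := h.choose_spec.1
  rw [← e] at h1
  unfold lst
  rw [Multiset.mem_toList, Multiset.mem_sum]
  constructor
  · rintro ⟨w, hw, h2⟩
    have h3 := Multiset.mem_of_mem_nsmul h2
    rw [Multiset.mem_singleton] at h3
    rw [h3]
    exact hw
  · intro hv
    refine ⟨v, hv, ?_⟩
    rw [Multiset.mem_nsmul_of_ne_zero (h1 v hv).ne']
    exact Multiset.mem_singleton_self v

/-- the bases; `S j` is the set of elements which become positive at stage `j + 1` -/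
noncomputable def Bs (u : Γ) (S : ℕ → Finset Γ) : ℕ → Finset Γ
  | 0 => {u}
  | j + 1 => open Classical in Fb s (Bs u S j ∪ S j)

open Classical in
/-- the edges -/
noncomputable def els (u : Γ) (S : ℕ → Finset Γ) (j : ℕ) (v : Γ) : List Γ :=
  if lst (Bs s u S (j + 1)) v = [] then [v] else lst (Bs s u S (j + 1)) v

/-- the diagram -/
noncomputable def dia (u : Γ) (S : ℕ → Finset Γ) : Dg Γ where
  r := u
  el := els s u S
  ne := by
    intro k v
    unfold els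
    split_ifs with h
    · simp
    · exact h

variable {s} {u : Γ} {S : ℕ → Finset Γ} (hu : 0 < s u) (hS : ∀ j, ∀ a ∈ S j, 0 < s a)

include hu hS

lemma Bs_pos (j : ℕ) : (Bs s u S j).Nonempty ∧ ∀ v ∈ Bs s u S j, 0 < s v := by
  classical
  induction j with
  | zero =>
    refine ⟨Finset.singleton_nonempty u, fun v hv => ?_⟩
    rw [Bs, Finset.mem_singleton] at hv
    rw [hv]
    exact hu
  | succ j ih =>
    have hA : (Bs s u S j ∪ S j).Nonempty := ih.1.mono Finset.subset_union_left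
    have hA2 : ∀ a ∈ Bs s u S j ∪ S j, 0 < s a := by
      intro a ha
      rcases Finset.mem_union.1 ha with h | h
      · exact ih.2 a h
      · exact hS j a h
    obtain ⟨f1, f2, f3, f4⟩ := Fb_spec s hA hA2
    refine ⟨?_, f2⟩
    obtain ⟨a, ha⟩ := ih.1
    obtain ⟨c, c1, c2⟩ := f4 a (Finset.mem_union_left _ ha)
    rw [Bs, Finset.nonempty_iff_ne_empty]
    intro h0
    rw [h0, Finset.sum_empty] at c2
    have := ih.2 a ha
    rw [← c2, map_zero] at this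
    exact lt_irrefl _ this

open Classical in
lemma Bs_succ (j : ℕ) : LinearIndependent ℚ (fun v : Bs s u S (j + 1) => (v : Γ)) ∧
      (∀ v ∈ Bs s u S (j + 1), ∀ G : AddSubgroup Γ, (∀ g ∈ G, (2 : ℚ)⁻¹ • g ∈ G) →
        (∀ a ∈ Bs s u S j ∪ S j, a ∈ G) → v ∈ G) ∧
      ∀ a ∈ Bs s u S j ∪ S j, ∃ c : Γ → ℕ, (∀ v ∈ Bs s u S (j + 1), 0 < c v) ∧
        ∑ v ∈ Bs s u S (j + 1), c v • v = a := by
  have ih := Bs_pos hu hS j
  have hA : (Bs s u S j ∪ S j).Nonempty := ih.1.mono Finset.subset_union_left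
  have hA2 : ∀ a ∈ Bs s u S j ∪ S j, 0 < s a := by
    intro a ha
    rcases Finset.mem_union.1 ha with h | h
    · exact ih.2 a h
    · exact hS j a h
  obtain ⟨f1, f2, f3, f4⟩ := Fb_spec s hA hA2
  exact ⟨f1, f3, f4⟩

lemma Bs_li (j : ℕ) : LinearIndependent ℚ (fun v : Bs s u S j => (v : Γ)) := by
  rcases j with _ | j
  · have h0 : u ≠ 0 := by
      rintro rfl
      rw [map_zero] at hu
      exact lt_irrefl _ hu
    have h1 : LinearIndependent ℚ (fun v : ({u} : Finset Γ) => (v : Γ)) := by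
      rw [Fintype.linearIndependent_iff]
      intro g hg i
      have hi : i = ⟨u, Finset.mem_singleton_self u⟩ := Subtype.ext (Finset.mem_singleton.1 i.2)
      have h2 : ∑ i : ({u} : Finset Γ), g i • (i : Γ) = g i • u := by
        rw [Fintype.sum_eq_single i]
        · rw [hi]
        · intro j hj
          exact absurd (Subtype.ext ((Finset.mem_singleton.1 j.2).trans
            (Finset.mem_singleton.1 i.2).symm)) hj
      rw [h2] at hg
      exact (smul_eq_zero.1 hg).resolve_right h0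
    exact h1
  · exact (Bs_succ hu hS j).1

lemma Bs_liZ (j : ℕ) : LinearIndependent ℤ (fun v : Bs s u S j => (v : Γ)) := by
  rw [LinearIndependent.iff_fractionRing ℤ ℚ]
  exact Bs_li hu hS j

lemma Bs_mem {G : AddSubgroup Γ} (hG : ∀ g ∈ G, (2 : ℚ)⁻¹ • g ∈ G) (huG : u ∈ G)
    (hSG : ∀ j, ∀ a ∈ S j, a ∈ G) (j : ℕ) : ∀ v ∈ Bs s u S j, v ∈ G := by
  classical
  induction j with
  | zero =>
    intro v hv
    rw [Bs, Finset.mem_singleton] at hv
    rw [hv]
    exact huG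
  | succ j ih =>
    intro v hv
    refine (Bs_succ hu hS j).2.1 v hv G hG fun a ha => ?_
    rcases Finset.mem_union.1 ha with h | h
    · exact ih a h
    · exact hSG j a h

lemma cov (j : ℕ) {v : Γ} (hv : v ∈ Bs s u S j ∨ v ∈ S j) :
    ∃ c : Γ → ℕ, (∀ w ∈ Bs s u S (j + 1), 0 < c w) ∧ ∑ w ∈ Bs s u S (j + 1), c w • w = v := by
  classical
  exact (Bs_succ hu hS j).2.2 v (Finset.mem_union.2 hv)

lemma els_eq {j : ℕ} {v : Γ} (hv : v ∈ Bs s u S j) :
    els s u S j v = lst (Bs s u S (j + 1)) v := by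
  have h1 := cov hu hS j (Or.inl hv)
  unfold els
  rw [if_neg]
  intro h2
  obtain ⟨w, hw⟩ := (Bs_pos hu hS (j + 1)).1
  have h3 := (mem_lst h1 w).2 hw
  rw [h2] at h3
  simp at h3

lemma od_eq {j : ℕ} {v : Γ} (hv : v ∈ Bs s u S j) :
    (dia s u S).od j v = (lst (Bs s u S (j + 1)) v).length := by
  change (els s u S j v).length = _
  rw [els_eq hu hS hv]

lemma nx_eq {j : ℕ} {v : Γ} (hv : v ∈ Bs s u S j) {i : ℕ}
    (hi : i < (lst (Bs s u S (j + 1)) v).length) :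
    (dia s u S).nx j v i = (lst (Bs s u S (j + 1)) v)[i] := by
  change (els s u S j v).getD i _ = _
  rw [els_eq hu hS hv, List.getD_eq_getElem _ _ hi]

lemma exists_nx {j : ℕ} {v w : Γ} (hv : v ∈ Bs s u S j) (hw : w ∈ Bs s u S (j + 1)) :
    ∃ i < (dia s u S).od j v, (dia s u S).nx j v i = w := by
  have h1 := (mem_lst (cov hu hS j (Or.inl hv)) w).2 hw
  obtain ⟨i, hi, h2⟩ := List.getElem_of_mem h1
  exact ⟨i, by rw [od_eq hu hS hv]; exact hi, by rw [nx_eq hu hS hv hi, h2]⟩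

lemma vs_eq (j : ℕ) : (dia s u S).vs j = Bs s u S j := by
  induction j with
  | zero =>
    ext v
    rw [Dg.mem_vs, Bs, Finset.mem_singleton]
    constructor
    · rintro ⟨w, -, rfl⟩
      rfl
    · rintro rfl
      exact ⟨0, Dg.zero_mem_P 0, rfl⟩
  | succ j ih =>
    ext v
    rw [Dg.mem_vs]
    constructor
    · rintro ⟨w, hw, rfl⟩
      obtain ⟨h1, h2, h3⟩ := Dg.mem_P_succ hw
      have h4 : (dia s u S).st (tr j w) j ∈ Bs s u S j := by
        rw [← ih]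
        exact Dg.mem_vs.2 ⟨_, h1, rfl⟩
      rw [← h3, Dg.ext_at]
      rw [od_eq hu hS h4] at h2
      rw [nx_eq hu hS h4 h2]
      exact (mem_lst (cov hu hS j (Or.inl h4)) _).1 (List.getElem_mem h2)
    · intro hv
      obtain ⟨v0, hv0⟩ := (Bs_pos hu hS j).1
      obtain ⟨i, hi, h1⟩ := exists_nx hu hS hv0 hv
      rw [← ih] at hv0
      obtain ⟨w, hw, rfl⟩ := Dg.mem_vs.1 hv0
      exact ⟨ext j w i, Dg.ext_mem_P hw hi, by rw [Dg.ext_at, h1]⟩

lemma dia_Sm : (dia s u S).Sm := by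
  intro k v hv
  rw [vs_eq hu hS] at hv
  rw [od_eq hu hS hv]
  have h1 : ∑ i ∈ Finset.range (lst (Bs s u S (k + 1)) v).length, (dia s u S).nx k v i =
      ∑ i : Fin (lst (Bs s u S (k + 1)) v).length, (lst (Bs s u S (k + 1)) v)[i] := by
    rw [← Fin.sum_univ_eq_sum_range (fun i => (dia s u S).nx k v i)]
    refine Finset.sum_congr rfl fun i _ => ?_
    exact nx_eq hu hS hv i.2
  rw [h1]
  have h2 := List.sum_ofFn (f := fun i : Fin (lst (Bs s u S (k + 1)) v).length =>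
    (lst (Bs s u S (k + 1)) v)[i])
  rw [← h2]
  have h3 : List.ofFn (fun i : Fin (lst (Bs s u S (k + 1)) v).length =>
      (lst (Bs s u S (k + 1)) v)[i]) = lst (Bs s u S (k + 1)) v := List.ofFn_getElem
  rw [h3]
  exact lst_sum (cov hu hS k (Or.inl hv))

/-- positive combinations propagate -/
lemma pos_mono {j : ℕ} {g : Γ} (hg : ∃ c : Γ → ℕ, ∑ v ∈ Bs s u S j, c v • v = g) {k : ℕ}
    (hk : j ≤ k) : ∃ c : Γ → ℕ, ∑ v ∈ Bs s u S k, c v • v = g := by
  classical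
  induction k, hk using Nat.le_induction with
  | base => exact hg
  | succ k _ ih =>
    obtain ⟨c, hc⟩ := ih
    have h1 : ∀ v : Γ, ∃ d : Γ → ℕ, v ∈ Bs s u S k → ∑ w ∈ Bs s u S (k + 1), d w • w = v := by
      intro v
      by_cases hv : v ∈ Bs s u S k
      · obtain ⟨d, -, hd⟩ := cov hu hS k (Or.inl hv)
        exact ⟨d, fun _ => hd⟩
      · exact ⟨0, fun h => absurd h hv⟩
    choose d hd using h1
    refine ⟨fun w => ∑ v ∈ Bs s u S k, c v * d v w, ?_⟩
    simp only [Finset.sum_smul]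
    rw [Finset.sum_comm, ← hc]
    refine Finset.sum_congr rfl fun v hv => ?_
    have e : c v • v = c v • ∑ w ∈ Bs s u S (k + 1), d v w • w := by rw [hd v hv]
    rw [e, Finset.smul_sum]
    refine Finset.sum_congr rfl fun w _ => ?_
    rw [mul_smul]

lemma pos_of_mem {j : ℕ} {g : Γ} (hg : g ∈ S j) {k : ℕ} (hk : j + 1 ≤ k) :
    ∃ c : Γ → ℕ, ∑ v ∈ Bs s u S k, c v • v = g := by
  obtain ⟨c, -, hc⟩ := cov hu hS j (Or.inr hg)
  exact pos_mono hu hS ⟨c, hc⟩ hk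

omit hu hS

/-! ### the diagram of a group -/

open Classical in
variable (s) in
/-- the elements to be made positive -/
noncomputable def Ss (e : ℕ → Γ) (G : Set Γ) (j : ℕ) : Finset Γ :=
  ((Finset.range (j + 1)).image e).filter fun a => a ∈ G ∧ 0 < s a

lemma mem_Ss {e : ℕ → Γ} {G : Set Γ} {j : ℕ} {a : Γ} :
    a ∈ Ss s e G j ↔ (∃ i ≤ j, e i = a) ∧ a ∈ G ∧ 0 < s a := by
  classical
  unfold Ss
  rw [Finset.mem_filter, Finset.mem_image]
  simp only [Finset.mem_range, Nat.lt_succ_iff]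

variable (s) in
/-- the diagram of a group -/
noncomputable def DG (e : ℕ → Γ) (u : Γ) (G : Set Γ) : Dg Γ := dia s u (Ss s e G)

section DG

variable {e : ℕ → Γ} (he : Function.Surjective e) (hu : 0 < s u)

lemma Ss_pos (G : Set Γ) : ∀ j, ∀ a ∈ Ss s e G j, 0 < s a := fun _ _ ha => (mem_Ss.1 ha).2.2

include hu

lemma DG_Sm (G : Set Γ) : (DG s e u G).Sm := dia_Sm hu (Ss_pos G)

lemma DG_li (G : Set Γ) (k : ℕ) :
    LinearIndependent ℤ (fun v : (DG s e u G).vs k => (v : Γ)) := by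
  have h := Bs_liZ hu (Ss_pos (e := e) G) k
  unfold DG
  rw [vs_eq hu (Ss_pos G)]
  exact h

lemma DG_vs_pos (G : Set Γ) {k : ℕ} {v : Γ} (hv : v ∈ (DG s e u G).vs k) : 0 < s v := by
  unfold DG at hv
  rw [vs_eq hu (Ss_pos G)] at hv
  exact (Bs_pos hu (Ss_pos G) k).2 v hv

lemma DG_vs_mem {G : AddSubgroup Γ} (hG : ∀ g ∈ G, (2 : ℚ)⁻¹ • g ∈ G) (huG : u ∈ G)
    {k : ℕ} {v : Γ} (hv : v ∈ (DG s e u G).vs k) : v ∈ G := by
  unfold DG at hv
  rw [vs_eq hu (Ss_pos _)] at hv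
  exact Bs_mem hu (Ss_pos _) hG huG (fun j a ha => (mem_Ss.1 ha).2.1) k v hv

include he

lemma DG_pos {G : Set Γ} {g : Γ} (hg : g ∈ G) (hs : 0 < s g) :
    ∃ m0, ∀ m, m0 ≤ m → ∃ c : Γ → ℕ, ∑ v ∈ (DG s e u G).vs m, c v • v = g := by
  obtain ⟨i, hi⟩ := he g
  refine ⟨i + 1, fun m hm => ?_⟩
  unfold DG
  rw [vs_eq hu (Ss_pos _)]
  exact pos_of_mem hu (Ss_pos _) (mem_Ss.2 ⟨⟨i, le_rfl, hi⟩, hg, hs⟩) hm

lemma DG_gen {G : AddSubgroup Γ} (huG : u ∈ G) {g : Γ} (hg : g ∈ G) :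
    ∃ n, ∃ c : Γ → ℤ, ∑ v ∈ (DG s e u G).vs n, c v • v = g := by
  obtain ⟨N, hN⟩ := exists_nat_gt (-(s g) / s u)
  rw [div_lt_iff₀ hu] at hN
  have h1 : 0 < s (g + N • u) := by
    rw [map_add, map_nsmul, nsmul_eq_mul]
    linarith
  obtain ⟨m1, h2⟩ := DG_pos (G := (G : Set Γ)) hu he (add_mem hg (nsmul_mem huG N)) h1
  obtain ⟨m2, h3⟩ := DG_pos (G := (G : Set Γ)) hu he huG hu
  obtain ⟨c, hc⟩ := h2 (max m1 m2) (le_max_left _ _)
  obtain ⟨d, hd⟩ := h3 (max m1 m2) (le_max_right _ _)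
  refine ⟨max m1 m2, fun v => (c v : ℤ) - N * d v, ?_⟩
  simp only [sub_smul]
  rw [Finset.sum_sub_distrib]
  have e1 : ∑ v ∈ (DG s e u (G : Set Γ)).vs (max m1 m2), (c v : ℤ) • v = g + N • u := by
    rw [← hc]
    exact Finset.sum_congr rfl fun v _ => natCast_zsmul _ _
  have e2 : ∑ v ∈ (DG s e u (G : Set Γ)).vs (max m1 m2), ((N : ℤ) * d v) • v = N • u := by
    conv_rhs => rw [← hd, Finset.smul_sum]
    refine Finset.sum_congr rfl fun v _ => ?_
    rw [mul_smul, natCast_zsmul, natCast_zsmul]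
  rw [e1, e2, add_sub_cancel_right]

end DG

end Pool.Agent.L7h66.SA
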