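import Pool.Agent.L7h66.SA.Cls

/-!
# An embedding of algebras of diagrams gives a homomorphism of groups
-/

set_option autoImplicit false
set_option linter.unusedSectionVars false

open scoped InnerProductSpace

namespace Pool.Agent.L7h66.SA

universe u v

variable {H : Type v} [NormedAddCommGroup H] [InnerProductSpace ℂ H] [CompleteSpace H]

section im

variable {A A' : NonUnitalStarSubalgebra ℂ (H →L[ℂ] H)} (φ : A →⋆ₙₐ[ℂ] A')

open Classical in
/-- the image of an operator -/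
noncomputable def im (T : H →L[ℂ] H) : H →L[ℂ] H := if h : T ∈ A then (φ ⟨T, h⟩ : H →L[ℂ] H) else 0

variable {T T' : H →L[ℂ] H}

lemma im_of (h : T ∈ A) : im φ T = (φ ⟨T, h⟩ : H →L[ℂ] H) := dif_pos h

lemma im_mem (h : T ∈ A) : im φ T ∈ A' := by
  rw [im_of φ h]
  exact (φ ⟨T, h⟩).2

lemma im_mul (h : T ∈ A) (h' : T' ∈ A) : im φ (T * T') = im φ T * im φ T' := by
  rw [im_of φ h, im_of φ h', im_of φ (mul_mem h h')]
  have := map_mul φ ⟨T, h⟩ ⟨T', h'⟩
  exact congrArg Subtype.val this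

lemma im_add (h : T ∈ A) (h' : T' ∈ A) : im φ (T + T') = im φ T + im φ T' := by
  rw [im_of φ h, im_of φ h', im_of φ (add_mem h h')]
  have := map_add φ ⟨T, h⟩ ⟨T', h'⟩
  exact congrArg Subtype.val this

lemma im_zero : im φ 0 = 0 := by
  rw [im_of φ (zero_mem A)]
  exact congrArg Subtype.val (map_zero φ)

lemma im_star (h : T ∈ A) : im φ (star T) = star (im φ T) := by
  rw [im_of φ h, im_of φ (star_mem h)]
  have := map_star φ ⟨T, h⟩
  exact congrArg Subtype.val this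

lemma im_pj (h : T ∈ A) (hp : Pj T) : Pj (im φ T) := by
  constructor
  · rw [← im_mul φ h h, hp.mul]
  · rw [← im_star φ h, hp.st]

lemma im_ne (hφ : Function.Injective φ) (h : T ∈ A) (h0 : T ≠ 0) : im φ T ≠ 0 := by
  rw [im_of φ h]
  intro h1
  apply h0
  have h2 : φ ⟨T, h⟩ = 0 := Subtype.ext h1
  have h3 : (⟨T, h⟩ : A) = 0 := hφ (by rw [h2, map_zero])
  exact congrArg Subtype.val h3

end im

namespace Dg

variable {V : Type u} (D : Dg V) (b : HilbertBasis Om ℂ H)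

/-- the union of the stages as a subalgebra -/
noncomputable def A0 : NonUnitalStarSubalgebra ℂ (H →L[ℂ] H) where
  carrier := D.FU b
  mul_mem' := by
    intro T T' hT hT'
    obtain ⟨n, hn⟩ := Set.mem_iUnion.1 hT
    obtain ⟨m, hm⟩ := Set.mem_iUnion.1 hT'
    refine Set.mem_iUnion.2 ⟨max n m, ?_⟩
    exact mul_mem (F_mono (le_max_left n m) hn) (F_mono (le_max_right n m) hm)
  add_mem' := by
    intro T T' hT hT'
    obtain ⟨n, hn⟩ := Set.mem_iUnion.1 hT
    obtain ⟨m, hm⟩ := Set.mem_iUnion.1 hT'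
    refine Set.mem_iUnion.2 ⟨max n m, ?_⟩
    exact add_mem (F_mono (le_max_left n m) hn) (F_mono (le_max_right n m) hm)
  zero_mem' := Set.mem_iUnion.2 ⟨0, zero_mem (D.F b 0)⟩
  smul_mem' := by
    intro c T hT
    obtain ⟨n, hn⟩ := Set.mem_iUnion.1 hT
    exact Set.mem_iUnion.2 ⟨n, SMulMemClass.smul_mem (s := D.F b n) c hn⟩
  star_mem' := by
    intro T hT
    obtain ⟨n, hn⟩ := Set.mem_iUnion.1 hT
    exact Set.mem_iUnion.2 ⟨n, star_mem (s := D.F b n) hn⟩

/-- the algebra of a diagram -/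
noncomputable def AA : NonUnitalStarSubalgebra ℂ (H →L[ℂ] H) := (D.A0 b).topologicalClosure

variable {D b}

lemma coe_AA : (D.AA b : Set (H →L[ℂ] H)) = closure (D.FU b) := rfl

lemma F_le_AA (k : ℕ) : D.F b k ≤ D.AA b := by
  intro T hT
  exact subset_closure (Set.mem_iUnion.2 ⟨k, hT⟩)

lemma E_mem_AA (k : ℕ) (c a : Om) : D.E b k c a ∈ D.AA b := F_le_AA k (E_mem c a)

lemma E_pj {k : ℕ} {a : Om} (ha : D.Val a) : Pj (D.E b k a a) :=
  ⟨E_mul ha rfl, star_E k a a⟩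

variable {V' : Type u} [AddCommGroup V'] {D' : Dg V'}

section

variable (φ : D.AA b →⋆ₙₐ[ℂ] D'.AA b)

/-- the class of the image of a minimal projection -/
noncomputable def kap (n : ℕ) (a : Om) : V' := D'.kl b (im φ (D.E b n a a))

lemma kap_eqv (hD' : D'.Sm) {n : ℕ} {a c : Om} (ha : D.Val a) (hc : D.Val c)
    (h : D.st a n = D.st c n) : kap φ n a = kap φ n c := by
  refine kl_eqv hD' (im_pj φ (E_mem_AA n a a) (E_pj ha)) (im_mem φ (E_mem_AA n a a))
    (im_pj φ (E_mem_AA n c c) (E_pj hc)) (im_mem φ (E_mem_AA n c c))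
    (im_mem φ (E_mem_AA n c a)) ?_ ?_
  · rw [← im_star φ (E_mem_AA n c a), ← im_mul φ (star_mem (E_mem_AA n c a)) (E_mem_AA n c a),
      star_E, E_mul hc h]
  · rw [← im_star φ (E_mem_AA n c a), ← im_mul φ (E_mem_AA n c a) (star_mem (E_mem_AA n c a)),
      star_E, E_mul ha h.symm]

lemma kap_ne_zero (hφ : Function.Injective φ) (hD' : D'.Sm)
    (hli : ∀ k, LinearIndependent ℤ (fun v : D'.vs k => (v : V'))) {n : ℕ} {a : Om}
    (ha : D.Val a) : kap φ n a ≠ 0 :=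
  kl_ne_zero hD' hli (im_pj φ (E_mem_AA n a a) (E_pj ha)) (im_mem φ (E_mem_AA n a a))
    (im_ne φ hφ (E_mem_AA n a a) (E_ne_zero ha ha rfl))

lemma kap_mem (hD' : D'.Sm) {G : AddSubgroup V'} (hG : ∀ k, ∀ v ∈ D'.vs k, v ∈ G) {n : ℕ}
    {a : Om} (ha : D.Val a) : kap φ n a ∈ G :=
  kl_mem hD' hG (im_pj φ (E_mem_AA n a a) (E_pj ha)) (im_mem φ (E_mem_AA n a a))

/-- the sum of the first projections of the next level -/
lemma sum_pj {n : ℕ} {a : Om} (ha : a ∈ D.P n) {m : ℕ} (hm : m ≤ D.od n (D.st a n)) :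
    Pj (∑ i ∈ Finset.range m, D.E b (n + 1) (ext n a i) (ext n a i)) ∧
      ∑ i ∈ Finset.range m, D.E b (n + 1) (ext n a i) (ext n a i) ∈ D.AA b := by
  refine ⟨⟨?_, ?_⟩, sum_mem fun i _ => E_mem_AA _ _ _⟩
  · rw [Finset.sum_mul]
    refine Finset.sum_congr rfl fun i hi => ?_
    rw [Finset.mul_sum, Finset.sum_eq_single_of_mem i hi]
    · exact E_mul (ext_mem_P ha (lt_of_lt_of_le (Finset.mem_range.1 hi) hm)).1 rfl
    · intro j _ hj
      apply E_mul_zero
      intro h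
      have h1 := h n (Nat.lt_succ_self n)
      rw [ext_self, ext_self] at h1
      exact hj h1.symm
  · rw [star_sum]
    refine Finset.sum_congr rfl fun i _ => star_E _ _ _

lemma kap_sum (hD' : D'.Sm) {n : ℕ} {a : Om} (ha : a ∈ D.P n) :
    kap φ n a = ∑ i ∈ Finset.range (D.od n (D.st a n)), kap φ (n + 1) (ext n a i) := by
  have h : ∀ m, m ≤ D.od n (D.st a n) →
      D'.kl b (im φ (∑ i ∈ Finset.range m, D.E b (n + 1) (ext n a i) (ext n a i))) =
        ∑ i ∈ Finset.range m, kap φ (n + 1) (ext n a i) := by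
    intro m
    induction m with
    | zero =>
      intro _
      rw [Finset.sum_range_zero, Finset.sum_range_zero, im_zero]
      have h0 : Pj (0 : H →L[ℂ] H) := ⟨mul_zero _, star_zero _⟩
      have h1 : (0 : H →L[ℂ] H) ∈ D'.AA b := zero_mem _
      have h2 := kl_add hD' h0 h1 h0 h1 h0 h1 (add_zero (0 : H →L[ℂ] H)).symm
      exact left_eq_add.1 h2
    | succ m ih =>
      intro hm
      obtain ⟨p1, m1⟩ := sum_pj (b := b) ha hm
      obtain ⟨p2, m2⟩ := sum_pj (b := b) ha (Nat.le_of_succ_le hm)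
      have hv : D.Val (ext n a m) := (ext_mem_P ha hm).1
      have p3 : Pj (D.E b (n + 1) (ext n a m) (ext n a m)) := E_pj hv
      have m3 := E_mem_AA (b := b) (D := D) (n + 1) (ext n a m) (ext n a m)
      rw [Finset.sum_range_succ (fun i => kap φ (n + 1) (ext n a i)),
        ← ih (Nat.le_of_succ_le hm)]
      refine kl_add hD' (im_pj φ m1 p1) (im_mem φ m1) (im_pj φ m2 p2) (im_mem φ m2)
        (im_pj φ m3 p3) (im_mem φ m3) ?_
      rw [← im_add φ m2 m3, Finset.sum_range_succ]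
  rw [← h _ le_rfl, kap, E_succ ha.1 rfl]

end

/-! ### the homomorphism -/

section hom

variable {V : Type u} [AddCommGroup V] {D : Dg V} {V' : Type u} [AddCommGroup V']

variable (D) in
/-- `y` is the image of `g` computed at level `n` -/
def Rl (K : ℕ → V → V') (n : ℕ) (g : V) (y : V') : Prop :=
  ∃ c : V → ℤ, ∑ v ∈ D.vs n, c v • v = g ∧ ∑ v ∈ D.vs n, c v • K n v = y

variable {K : ℕ → V → V'}

lemma Rl.add {n : ℕ} {g g' : V} {y y' : V'} (h : D.Rl K n g y) (h' : D.Rl K n g' y') :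
    D.Rl K n (g + g') (y + y') := by
  obtain ⟨c, rfl, rfl⟩ := h
  obtain ⟨c', rfl, rfl⟩ := h'
  refine ⟨fun v => c v + c' v, ?_, ?_⟩
  · rw [← Finset.sum_add_distrib]
    exact Finset.sum_congr rfl fun v _ => add_smul _ _ _
  · rw [← Finset.sum_add_distrib]
    exact Finset.sum_congr rfl fun v _ => add_smul _ _ _

lemma Rl.succ (hD : D.Sm) (hK : ∀ n, ∀ v ∈ D.vs n,
      ∑ i ∈ Finset.range (D.od n v), K (n + 1) (D.nx n v i) = K n v)
    {n : ℕ} {g : V} {y : V'} (h : D.Rl K n g y) : D.Rl K (n + 1) g y := by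
  classical
  obtain ⟨c, rfl, rfl⟩ := h
  have hK' : ∀ v ∈ D.vs n, ∑ v' ∈ D.vs (n + 1), D.mu n v v' • K (n + 1) v' = K n v := by
    intro v hv
    rw [← hK n v hv]
    rw [← Finset.sum_fiberwise_of_maps_to (t := D.vs (n + 1)) (g := fun i => D.nx n v i)
      (fun i hi => nx_mem_vs hv (Finset.mem_range.1 hi))]
    refine Finset.sum_congr rfl fun v' _ => ?_
    have h1 : ∀ i ∈ (Finset.range (D.od n v)).filter (fun i => D.nx n v i = v'),
        K (n + 1) (D.nx n v i) = K (n + 1) v' := fun i hi => by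
      rw [(Finset.mem_filter.1 hi).2]
    rw [Finset.sum_congr rfl h1, Finset.sum_const]
    rfl
  refine ⟨fun v' => ∑ v ∈ D.vs n, c v * D.mu n v v', ?_, ?_⟩
  · simp only [Finset.sum_smul]
    rw [Finset.sum_comm]
    refine Finset.sum_congr rfl fun v hv => ?_
    have e : c v • v = c v • ∑ v' ∈ D.vs (n + 1), D.mu n v v' • v' := by rw [sum_mu hD hv]
    rw [e, Finset.smul_sum]
    refine Finset.sum_congr rfl fun v' _ => ?_
    rw [mul_smul, natCast_zsmul]
  · simp only [Finset.sum_smul]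
    rw [Finset.sum_comm]
    refine Finset.sum_congr rfl fun v hv => ?_
    rw [← hK' v hv, Finset.smul_sum]
    refine Finset.sum_congr rfl fun v' _ => ?_
    rw [mul_smul, natCast_zsmul]

lemma Rl.mono (hD : D.Sm) (hK : ∀ n, ∀ v ∈ D.vs n,
      ∑ i ∈ Finset.range (D.od n v), K (n + 1) (D.nx n v i) = K n v)
    {n : ℕ} {g : V} {y : V'} (h : D.Rl K n g y) {m : ℕ} (hm : n ≤ m) : D.Rl K m g y := by
  induction m, hm using Nat.le_induction with
  | base => exact h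
  | succ m _ ih => exact ih.succ hD hK

lemma Rl.unique {n : ℕ} (hli : LinearIndependent ℤ (fun v : D.vs n => (v : V)))
    {g : V} {y y' : V'} (h : D.Rl K n g y) (h' : D.Rl K n g y') : y = y' := by
  obtain ⟨c, h1, rfl⟩ := h
  obtain ⟨c', h2, rfl⟩ := h'
  refine Finset.sum_congr rfl fun v hv => ?_
  rw [Fintype.linearIndependent_iff] at hli
  have h3 := hli (fun v => c v - c' v) ?_ ⟨v, hv⟩
  · rw [sub_eq_zero.1 h3]
  · have h4 : ∑ v : D.vs n, (c v - c' v) • (v : V) = ∑ v ∈ D.vs n, (c v - c' v) • v := by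
      rw [← Finset.sum_coe_sort (D.vs n) (fun v => (c v - c' v) • v)]
    rw [h4]
    simp only [sub_smul]
    rw [Finset.sum_sub_distrib, h1, h2, sub_self]

/-- the homomorphism -/
theorem exists_hom (hD : D.Sm) (hli : ∀ n, LinearIndependent ℤ (fun v : D.vs n => (v : V)))
    (hK : ∀ n, ∀ v ∈ D.vs n, ∑ i ∈ Finset.range (D.od n v), K (n + 1) (D.nx n v i) = K n v)
    {G : AddSubgroup V} (hG : ∀ g ∈ G, ∃ n, ∃ c : V → ℤ, ∑ v ∈ D.vs n, c v • v = g)
    {G' : AddSubgroup V'} (hG' : ∀ n, ∀ v ∈ D.vs n, K n v ∈ G') :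
    ∃ f : V → V', (∀ g ∈ G, ∀ g' ∈ G, f (g + g') = f g + f g') ∧ (∀ g ∈ G, f g ∈ G') ∧
      (∀ n, ∀ v ∈ D.vs n, v ∈ G → f v = K n v) := by
  classical
  have h1 : ∀ g : V, ∃ y : V', g ∈ G → ∃ n, D.Rl K n g y := by
    intro g
    by_cases hg : g ∈ G
    · obtain ⟨n, c, hc⟩ := hG g hg
      exact ⟨_, fun _ => ⟨n, c, hc, rfl⟩⟩
    · exact ⟨0, fun h => absurd h hg⟩
  choose f hf using h1
  have h2 : ∀ g ∈ G, ∀ n y, D.Rl K n g y → f g = y := by
    intro g hg n y h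
    obtain ⟨m, hm⟩ := hf g hg
    exact Rl.unique (hli (max n m)) (hm.mono hD hK (le_max_right _ _))
      (h.mono hD hK (le_max_left _ _))
  refine ⟨f, ?_, ?_, ?_⟩
  · intro g hg g' hg'
    obtain ⟨m, hm⟩ := hf g hg
    obtain ⟨m', hm'⟩ := hf g' hg'
    exact h2 _ (add_mem hg hg') (max m m') _
      ((hm.mono hD hK (le_max_left _ _)).add (hm'.mono hD hK (le_max_right _ _)))
  · intro g hg
    obtain ⟨m, c, h3, h4⟩ := hf g hg
    rw [← h4]
    exact sum_mem fun v hv => zsmul_mem (hG' m v hv) _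
  · intro n v hv hvG
    refine h2 v hvG n _ ⟨fun u => if u = v then 1 else 0, ?_, ?_⟩
    · rw [Finset.sum_eq_single_of_mem v hv]
      · dsimp only
        rw [if_pos rfl, one_smul]
      · intro u _ hu
        dsimp only
        rw [if_neg hu, zero_smul]
    · rw [Finset.sum_eq_single_of_mem v hv]
      · dsimp only
        rw [if_pos rfl, one_smul]
      · intro u _ hu
        dsimp only
        rw [if_neg hu, zero_smul]

/-- an embedding gives a homomorphism -/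
theorem hom_of_embedding {D' : Dg V'} (hD : D.Sm) (hD' : D'.Sm)
    (hli : ∀ n, LinearIndependent ℤ (fun v : D.vs n => (v : V)))
    (hli' : ∀ n, LinearIndependent ℤ (fun v : D'.vs n => (v : V')))
    {G : AddSubgroup V} (hG : ∀ g ∈ G, ∃ n, ∃ c : V → ℤ, ∑ v ∈ D.vs n, c v • v = g)
    (hr : D.r ∈ G) {G' : AddSubgroup V'} (hG' : ∀ n, ∀ v ∈ D'.vs n, v ∈ G')
    (φ : D.AA b →⋆ₙₐ[ℂ] D'.AA b) (hφ : Function.Injective φ) :
    ∃ f : V → V', (∀ g ∈ G, ∀ g' ∈ G, f (g + g') = f g + f g') ∧ (∀ g ∈ G, f g ∈ G') ∧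
      f D.r ≠ 0 := by
  classical
  have h1 : ∀ n : ℕ, ∀ v : V, ∃ y : V', ∀ a ∈ D.P n, D.st a n = v → kap φ n a = y := by
    intro n v
    by_cases h : ∃ a ∈ D.P n, D.st a n = v
    · obtain ⟨a, ha, hav⟩ := h
      exact ⟨kap φ n a, fun c hc hcv => kap_eqv φ hD' hc.1 ha.1 (hcv.trans hav.symm)⟩
    · exact ⟨0, fun a ha hav => absurd ⟨a, ha, hav⟩ h⟩
  choose K hK using h1
  have hKs : ∀ n, ∀ v ∈ D.vs n,
      ∑ i ∈ Finset.range (D.od n v), K (n + 1) (D.nx n v i) = K n v := by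
    intro n v hv
    obtain ⟨a, ha, rfl⟩ := mem_vs.1 hv
    rw [← hK n _ a ha rfl, kap_sum φ hD' ha]
    refine Finset.sum_congr rfl fun i hi => ?_
    exact (hK (n + 1) _ _ (ext_mem_P ha (Finset.mem_range.1 hi)) (ext_at _ _ _)).symm
  have hKm : ∀ n, ∀ v ∈ D.vs n, K n v ∈ G' := by
    intro n v hv
    obtain ⟨a, ha, rfl⟩ := mem_vs.1 hv
    rw [← hK n _ a ha rfl]
    exact kap_mem φ hD' hG' ha.1
  obtain ⟨f, f1, f2, f3⟩ := exists_hom (K := K) hD hli hKs hG hKm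
  refine ⟨f, f1, f2, ?_⟩
  have h2 : D.r ∈ D.vs 0 := mem_vs.2 ⟨0, zero_mem_P 0, rfl⟩
  rw [f3 0 D.r h2 hr, ← hK 0 D.r 0 (zero_mem_P 0) rfl]
  exact kap_ne_zero φ hφ hD' hli' D.val_zero

end hom

end Dg

end Pool.Agent.L7h66.SA
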