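import Mathlib

/-!
# Extension of isometric *-homomorphisms to the closure
-/

set_option autoImplicit false

namespace Pool.Agent.L7h66.SA

universe v

variable {B : Type v} [CStarAlgebra B]

/-- an isometric *-homomorphism on a *-subalgebra extends to its closure -/
theorem exists_ext (A0 A' : NonUnitalStarSubalgebra ℂ B) (hA' : IsClosed (A' : Set B))
    (ψ : B → B) (h_add : ∀ x ∈ A0, ∀ y ∈ A0, ψ (x + y) = ψ x + ψ y)
    (h_smul : ∀ (c : ℂ), ∀ x ∈ A0, ψ (c • x) = c • ψ x)
    (h_mul : ∀ x ∈ A0, ∀ y ∈ A0, ψ (x * y) = ψ x * ψ y)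
    (h_star : ∀ x ∈ A0, ψ (star x) = star (ψ x)) (h_mem : ∀ x ∈ A0, ψ x ∈ A')
    (h_norm : ∀ x ∈ A0, ‖ψ x‖ = ‖x‖) :
    ∃ φ : A0.topologicalClosure →⋆ₙₐ[ℂ] A', Function.Injective φ := by
  let f : A0 →ₗ[ℂ] B :=
    { toFun := fun x => ψ x
      map_add' := fun x y => h_add x x.2 y y.2
      map_smul' := fun c x => h_smul c x x.2 }
  let e : A0 →ₗ[ℂ] A0.topologicalClosure :=
    { toFun := fun x => ⟨x.1, subset_closure x.2⟩
      map_add' := fun x y => rfl
      map_smul' := fun c x => rfl }
  have hd : DenseRange e := by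
    rw [DenseRange, dense_iff_closure_eq, Set.eq_univ_iff_forall]
    intro x
    rw [closure_subtype]
    have h1 : Subtype.val '' (Set.range e) = (A0 : Set B) := by
      ext y
      constructor
      · rintro ⟨_, ⟨z, rfl⟩, rfl⟩
        exact z.2
      · intro hy
        exact ⟨_, ⟨⟨y, hy⟩, rfl⟩, rfl⟩
    rw [h1]
    exact x.2
  have hn : ∃ C : ℝ, ∀ x, ‖f x‖ ≤ C * ‖e x‖ := ⟨1, fun x => by
    rw [one_mul]
    exact (h_norm x.1 x.2).le⟩
  let Φ : A0.topologicalClosure →L[ℂ] B := f.extendOfNorm e
  have hΦ : ∀ x, Φ (e x) = f x := fun x => LinearMap.extendOfNorm_eq hd hn x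
  have hmem : ∀ x, Φ x ∈ A' := by
    intro x
    refine hd.induction_on (p := fun x => Φ x ∈ A') x ?_ ?_
    · exact hA'.preimage Φ.continuous
    · intro y
      rw [hΦ]
      exact h_mem y.1 y.2
  have hmul : ∀ x y, Φ (x * y) = Φ x * Φ y := by
    intro x y
    refine hd.induction_on₂ (p := fun x y => Φ (x * y) = Φ x * Φ y) ?_ ?_ x y
    · exact isClosed_eq (Φ.continuous.comp (continuous_fst.mul continuous_snd))
        ((Φ.continuous.comp continuous_fst).mul (Φ.continuous.comp continuous_snd))
    · intro x y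
      have : e x * e y = e (x * y) := rfl
      rw [this, hΦ, hΦ, hΦ]
      exact h_mul x.1 x.2 y.1 y.2
  have hstar : ∀ x, Φ (star x) = star (Φ x) := by
    intro x
    refine hd.induction_on (p := fun x => Φ (star x) = star (Φ x)) x ?_ ?_
    · have hcs : Continuous (fun x : A0.topologicalClosure => star x) :=
        Continuous.subtype_mk (continuous_star.comp continuous_subtype_val) _
      exact isClosed_eq (Φ.continuous.comp hcs) (continuous_star.comp Φ.continuous)
    · intro y
      have : star (e y) = e (star y) := rfl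
      rw [this, hΦ, hΦ]
      exact h_star y.1 y.2
  have hnorm : ∀ x, ‖Φ x‖ = ‖x‖ := by
    intro x
    refine hd.induction_on (p := fun x => ‖Φ x‖ = ‖x‖) x ?_ ?_
    · exact isClosed_eq (continuous_norm.comp Φ.continuous) continuous_norm
    · intro y
      rw [hΦ]
      exact h_norm y.1 y.2
  refine ⟨{ toFun := fun x => ⟨Φ x, hmem x⟩
            map_smul' := fun c x => Subtype.ext (map_smul Φ c x)
            map_zero' := Subtype.ext (map_zero Φ)
            map_add' := fun x y => Subtype.ext (map_add Φ x y)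
            map_mul' := fun x y => Subtype.ext (hmul x y)
            map_star' := fun x => Subtype.ext (hstar x) }, ?_⟩
  intro x y hxy
  have h1 : Φ x = Φ y := congrArg Subtype.val hxy
  have h2 : ‖Φ (x - y)‖ = 0 := by rw [map_sub, h1, sub_self, norm_zero]
  rw [hnorm, norm_eq_zero, sub_eq_zero] at h2
  exact h2

end Pool.Agent.L7h66.SA
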