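import Mathlib
import Pool.Agent.H579R3.Epi1

/-!
# The group of a labelled tree
-/

set_option autoImplicit false

namespace Pool.Agent.L7h66.SA

open Pool.Agent.H579R3.Epi (K IsAuto TLe)

/-- the ambient group -/
abbrev Ga : Type := List ℤ →₀ ℚ

/-- odd primes -/
noncomputable def pm (i : ℕ) : ℕ := Nat.nth Nat.Prime (i + 1)

lemma pm_prime (i : ℕ) : (pm i).Prime := Nat.prime_nth_prime _

lemma pm_inj {i j : ℕ} (h : pm i = pm j) : i = j := by
  have := Nat.nth_injective Nat.infinite_setOfPred_prime h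
  omega

lemma pm_ne_two (i : ℕ) : pm i ≠ 2 := by
  intro h
  have h0 : Nat.nth Nat.Prime 0 = 2 := Nat.nth_prime_zero_eq_two
  have := Nat.nth_injective Nat.infinite_setOfPred_prime (h.trans h0.symm)
  omega

/-- the prime of a level -/
noncomputable def lp (k : ℕ) : ℕ := pm (3 * k)

/-- the prime of the edges between two levels -/
noncomputable def rp (k : ℕ) : ℕ := pm (3 * k + 1)

/-- the prime of a label -/
noncomputable def qp (κ : K) : ℕ := pm (3 * Encodable.encode κ + 2)

/-- a generator -/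
noncomputable def ga (m n P : ℕ) (x : Ga) : Ga := ((2 : ℚ) ^ m * (P : ℚ) ^ n)⁻¹ • x

/-- a unit vector -/
noncomputable def ev (p : List ℤ) : Ga := Finsupp.single p 1

/-- the generators of the group of a labelled tree -/
def Gen (Λ : List ℤ → Set K) : Set Ga :=
  {g | (∃ p m n, g = ga m n (lp p.length) (ev p)) ∨
    (∃ p κ m n, κ ∈ Λ p ∧ g = ga m n (qp κ) (ev p)) ∨
    (∃ k p m n, g = ga m n (rp p.length) (ev (k :: p) + ev p))}

/-- the group of a labelled tree -/
noncomputable def GG (Λ : List ℤ → Set K) : AddSubgroup Ga := AddSubgroup.closure (Gen Λ)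

/-- the state -/
noncomputable def stt : Ga →ₗ[ℚ] ℚ := Finsupp.linearCombination ℚ fun _ => (1 : ℚ)

lemma stt_ev (p : List ℤ) : stt (ev p) = 1 := by
  simp [stt, ev]

lemma half_ga (m n P : ℕ) (x : Ga) : (2 : ℚ)⁻¹ • ga m n P x = ga (m + 1) n P x := by
  rw [ga, ga, smul_smul]
  congr 1
  rw [pow_succ, mul_inv, mul_inv, mul_inv]
  ring

lemma half_mem {Λ : List ℤ → Set K} {g : Ga} (hg : g ∈ GG Λ) : (2 : ℚ)⁻¹ • g ∈ GG Λ := by
  unfold GG at hg
  induction hg using AddSubgroup.closure_induction with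
  | mem x hx =>
    apply AddSubgroup.subset_closure
    rcases hx with ⟨p, m, n, rfl⟩ | ⟨p, κ, m, n, h, rfl⟩ | ⟨k, p, m, n, rfl⟩
    · exact Or.inl ⟨p, m + 1, n, half_ga _ _ _ _⟩
    · exact Or.inr (Or.inl ⟨p, κ, m + 1, n, h, half_ga _ _ _ _⟩)
    · exact Or.inr (Or.inr ⟨k, p, m + 1, n, half_ga _ _ _ _⟩)
  | zero => rw [smul_zero]; exact zero_mem _
  | add x y _ _ hx hy => rw [smul_add]; exact add_mem hx hy
  | neg x _ hx => rw [smul_neg]; exact neg_mem hx

lemma ev_mem (Λ : List ℤ → Set K) (p : List ℤ) : ev p ∈ GG Λ := by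
  apply AddSubgroup.subset_closure
  exact Or.inl ⟨p, 0, 0, by simp [ga]⟩

/-! ### valuations -/

section

variable {P : ℕ} [hP : Fact P.Prime]

lemma nrm_unit {Q : ℕ} (hQ : Q.Prime) (h2 : P ≠ 2) (hPQ : P ≠ Q) (m n : ℕ) :
    padicNorm P (((2 : ℚ) ^ m * (Q : ℚ) ^ n)⁻¹) = 1 := by
  have : Fact Q.Prime := ⟨hQ⟩
  have e1 : padicNorm P (Q : ℚ) = 1 := padicNorm.padicNorm_of_prime_of_ne hPQ
  have e2 : padicNorm P ((2 : ℕ) : ℚ) = 1 := padicNorm.padicNorm_of_prime_of_ne h2
  have e3 : ∀ (x : ℚ) (k : ℕ), padicNorm P (x ^ k) = padicNorm P x ^ k := by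
    intro x k
    induction k with
    | zero => rw [pow_zero, pow_zero, padicNorm.one]
    | succ k ih => rw [pow_succ, padicNorm.mul, ih, pow_succ]
  have e4 : ∀ x : ℚ, padicNorm P x = 1 → padicNorm P x⁻¹ = 1 := by
    intro x hx
    have hx0 : x ≠ 0 := by
      rintro rfl
      rw [padicNorm.zero] at hx
      exact zero_ne_one hx
    have h1 : padicNorm P (x * x⁻¹) = 1 := by rw [mul_inv_cancel₀ hx0, padicNorm.one]
    rw [padicNorm.mul, hx, one_mul] at h1
    exact h1
  apply e4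
  rw [padicNorm.mul, e3, e3, e1]
  have : (2 : ℚ) = ((2 : ℕ) : ℚ) := by norm_num
  rw [this, e2]
  simp

lemma nrm_le {Q : ℕ} (hQ : Q.Prime) (h2 : P ≠ 2) (hPQ : P ≠ Q) (m n : ℕ) (z : ℤ) :
    padicNorm P (((2 : ℚ) ^ m * (Q : ℚ) ^ n)⁻¹ * z) ≤ 1 := by
  rw [padicNorm.mul, nrm_unit hQ h2 hPQ, one_mul]
  exact padicNorm.of_int z

/-- `P`-integral functionals -/
lemma nrm_closure {S : Set Ga} (L : Ga →ₗ[ℚ] ℚ) (h : ∀ x ∈ S, padicNorm P (L x) ≤ 1) {g : Ga}
    (hg : g ∈ AddSubgroup.closure S) : padicNorm P (L g) ≤ 1 := by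
  induction hg using AddSubgroup.closure_induction with
  | mem x hx => exact h x hx
  | zero => rw [map_zero, padicNorm.zero]; exact zero_le_one
  | add x y _ _ hx hy =>
    rw [map_add]
    exact (padicNorm.nonarchimedean).trans (max_le hx hy)
  | neg x _ hx =>
    rw [map_neg, padicNorm.neg]
    exact hx

lemma div_zero' {q : ℚ} (h : ∀ n : ℕ, ∃ y : ℚ, padicNorm P y ≤ 1 ∧ q = (P : ℚ) ^ n * y) :
    q = 0 := by
  by_contra hq
  have h1 : ∀ n : ℕ, padicNorm P q ≤ ((P : ℚ)⁻¹) ^ n := by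
    intro n
    obtain ⟨y, hy, rfl⟩ := h n
    have e3 : ∀ (x : ℚ) (k : ℕ), padicNorm P (x ^ k) = padicNorm P x ^ k := by
      intro x k
      induction k with
      | zero => rw [pow_zero, pow_zero, padicNorm.one]
      | succ k ih => rw [pow_succ, padicNorm.mul, ih, pow_succ]
    rw [padicNorm.mul, e3, padicNorm.padicNorm_p_of_prime]
    have h0 : (0 : ℚ) ≤ ((P : ℚ)⁻¹) ^ n := by positivity
    calc ((P : ℚ)⁻¹) ^ n * padicNorm P y ≤ ((P : ℚ)⁻¹) ^ n * 1 := by gcongr
      _ = _ := mul_one _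
  have h2 : 0 < padicNorm P q := lt_of_le_of_ne (padicNorm.nonneg _)
    (Ne.symm (fun h => hq (padicNorm.zero_of_padicNorm_eq_zero h)))
  have hP2 : (2 : ℚ) ≤ P := by exact_mod_cast hP.out.two_le
  obtain ⟨n, hn⟩ := exists_pow_lt_of_lt_one h2
    (show ((P : ℚ)⁻¹) < 1 from inv_lt_one_of_one_lt₀ (by linarith))
  exact absurd (h1 n) (not_le.2 hn)

end

instance (i : ℕ) : Fact (pm i).Prime := ⟨pm_prime i⟩
instance (i : ℕ) : Fact (lp i).Prime := ⟨pm_prime _⟩
instance (i : ℕ) : Fact (rp i).Prime := ⟨pm_prime _⟩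
instance (κ : K) : Fact (qp κ).Prime := ⟨pm_prime _⟩

/-- the coordinate at `w` -/
noncomputable def co (w : List ℤ) : Ga →ₗ[ℚ] ℚ := Finsupp.lapply w

lemma co_apply (w : List ℤ) (x : Ga) : co w x = x w := rfl

lemma co_ev (w p : List ℤ) : ∃ z : ℤ, co w (ev p) = z ∧ (p ≠ w → z = 0) := by
  by_cases h : p = w
  · exact ⟨1, by simp [co_apply, ev, h], fun h' => absurd h h'⟩
  · exact ⟨0, by simp [co_apply, ev, Finsupp.single_apply, h], fun _ => rfl⟩

lemma L_ga (L : Ga →ₗ[ℚ] ℚ) (m n P : ℕ) (x : Ga) :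
    L (ga m n P x) = ((2 : ℚ) ^ m * (P : ℚ) ^ n)⁻¹ * L x := by
  rw [ga, map_smul, smul_eq_mul]

/-- the first constraint -/
lemma con1 {Λ : List ℤ → Set K} {g : Ga} (hg : g ∈ GG Λ) {k : ℕ} {w : List ℤ}
    (hk : w.length ≠ k) : padicNorm (lp k) (co w g) ≤ 1 := by
  refine nrm_closure (co w) ?_ hg
  rintro x (⟨p, m, n, rfl⟩ | ⟨p, κ, m, n, h, rfl⟩ | ⟨j, p, m, n, rfl⟩)
  · obtain ⟨z, hz, hz0⟩ := co_ev w p
    rw [L_ga, hz]
    by_cases hp : p = w
    · refine nrm_le (pm_prime _) (pm_ne_two _) ?_ m n z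
      intro h
      have := pm_inj h
      subst hp
      omega
    · rw [hz0 hp]
      simp
  · obtain ⟨z, hz, -⟩ := co_ev w p
    rw [L_ga, hz]
    refine nrm_le (pm_prime _) (pm_ne_two _) ?_ m n z
    intro h
    have := pm_inj h
    omega
  · obtain ⟨z, hz, -⟩ := co_ev w p
    obtain ⟨z', hz', -⟩ := co_ev w (j :: p)
    rw [L_ga, map_add, hz, hz']
    have := nrm_le (P := lp k) (pm_prime (3 * p.length + 1)) (pm_ne_two _) ?_ m n (z' + z)
    · push_cast at this
      exact this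
    · intro h
      have := pm_inj h
      omega

/-- the second constraint -/
lemma con2 {Λ : List ℤ → Set K} {g : Ga} (hg : g ∈ GG Λ) {κ : K} {w : List ℤ}
    (hκ : κ ∉ Λ w) : padicNorm (qp κ) (co w g) ≤ 1 := by
  refine nrm_closure (co w) ?_ hg
  rintro x (⟨p, m, n, rfl⟩ | ⟨p, κ', m, n, h, rfl⟩ | ⟨j, p, m, n, rfl⟩)
  · obtain ⟨z, hz, -⟩ := co_ev w p
    rw [L_ga, hz]
    refine nrm_le (pm_prime _) (pm_ne_two _) ?_ m n z
    intro h
    have := pm_inj h
    omega
  · obtain ⟨z, hz, hz0⟩ := co_ev w p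
    rw [L_ga, hz]
    by_cases hp : p = w
    · refine nrm_le (pm_prime _) (pm_ne_two _) ?_ m n z
      intro h'
      have h1 := pm_inj h'
      have h2 : Encodable.encode κ = Encodable.encode κ' := by omega
      have h3 := Encodable.encode_injective h2
      subst h3
      subst hp
      exact hκ h
    · rw [hz0 hp]
      simp
  · obtain ⟨z, hz, -⟩ := co_ev w p
    obtain ⟨z', hz', -⟩ := co_ev w (j :: p)
    rw [L_ga, map_add, hz, hz']
    have := nrm_le (P := qp κ) (pm_prime (3 * p.length + 1)) (pm_ne_two _) ?_ m n (z' + z)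
    · push_cast at this
      exact this
    · intro h
      have := pm_inj h
      omega

open Classical in
/-- the coefficients of the third functional -/
noncomputable def ct (w' w : List ℤ) : ℤ :=
  if w = w' then 1 else if ∃ k, w = k :: w' then -1 else 0

/-- the third functional -/
noncomputable def tau (w' : List ℤ) : Ga →ₗ[ℚ] ℚ :=
  Finsupp.linearCombination ℚ fun w => ((ct w' w : ℤ) : ℚ)

lemma tau_ev (w' p : List ℤ) : tau w' (ev p) = ct w' p := by
  simp [tau, ev]

/-- the third constraint -/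
lemma con3 {Λ : List ℤ → Set K} {g : Ga} (hg : g ∈ GG Λ) (w' : List ℤ) :
    padicNorm (rp w'.length) (tau w' g) ≤ 1 := by
  refine nrm_closure (tau w') ?_ hg
  rintro x (⟨p, m, n, rfl⟩ | ⟨p, κ', m, n, h, rfl⟩ | ⟨j, p, m, n, rfl⟩)
  · rw [L_ga, tau_ev]
    refine nrm_le (pm_prime _) (pm_ne_two _) ?_ m n _
    intro h
    have := pm_inj h
    omega
  · rw [L_ga, tau_ev]
    refine nrm_le (pm_prime _) (pm_ne_two _) ?_ m n _
    intro h
    have := pm_inj h
    omega
  · rw [L_ga, map_add, tau_ev, tau_ev]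
    by_cases hp : p.length = w'.length
    · have h0 : ((ct w' (j :: p) : ℤ) : ℚ) + ((ct w' p : ℤ) : ℚ) = 0 := by
        have h1 : j :: p ≠ w' := by
          intro h
          have := congrArg List.length h
          simp at this
          omega
        by_cases h2 : p = w'
        · subst h2
          have e1 : ct p (j :: p) = -1 := by
            unfold ct
            rw [if_neg h1, if_pos ⟨j, rfl⟩]
          have e2 : ct p p = 1 := if_pos rfl
          rw [e1, e2]
          norm_num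
        · have e1 : ct w' (j :: p) = 0 := by
            unfold ct
            rw [if_neg h1, if_neg]
            rintro ⟨k, hk⟩
            exact h2 (List.cons.inj hk).2
          have e2 : ct w' p = 0 := by
            unfold ct
            rw [if_neg h2, if_neg]
            rintro ⟨k, hk⟩
            have := congrArg List.length hk
            simp at this
            omega
          rw [e1, e2]
          norm_num
      rw [h0, mul_zero, padicNorm.zero]
      exact zero_le_one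
    · have := nrm_le (P := rp w'.length) (pm_prime (3 * p.length + 1)) (pm_ne_two _) ?_ m n
        (ct w' (j :: p) + ct w' p)
      · push_cast at this
        exact this
      · intro h
        have := pm_inj h
        omega

/-! ### rigidity -/

section rigid

variable {Λ Λ' : List ℤ → Set K} {f : Ga → Ga}
  (f1 : ∀ g ∈ GG Λ, ∀ g' ∈ GG Λ, f (g + g') = f g + f g') (f2 : ∀ g ∈ GG Λ, f g ∈ GG Λ')

include f1 in
lemma f_nsmul {g : Ga} (hg : g ∈ GG Λ) (n : ℕ) : f (n • g) = n • f g := by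
  induction n with
  | zero =>
    have h := f1 0 (zero_mem _) 0 (zero_mem _)
    rw [add_zero] at h
    rw [zero_smul, zero_smul]
    exact left_eq_add.1 h
  | succ n ih => rw [succ_nsmul, f1 _ (nsmul_mem hg n) _ hg, ih, succ_nsmul]

include f1 f2 in
/-- a functional which is integral on the group vanishes on divisible elements -/
lemma div_L {P : ℕ} [hP : Fact P.Prime] (L : Ga →ₗ[ℚ] ℚ)
    (hL : ∀ g ∈ GG Λ', padicNorm P (L g) ≤ 1) {x : Ga} (hx : ∀ n, ga 0 n P x ∈ GG Λ) :
    L (f x) = 0 := by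
  apply div_zero' (P := P)
  intro n
  refine ⟨L (f (ga 0 n P x)), hL _ (f2 _ (hx n)), ?_⟩
  have hP0 : (P : ℚ) ≠ 0 := by exact_mod_cast hP.out.ne_zero
  have h1 : x = (P ^ n) • ga 0 n P x := by
    rw [ga, pow_zero, one_mul, ← Nat.cast_smul_eq_nsmul ℚ, smul_smul, Nat.cast_pow,
      mul_inv_cancel₀ (pow_ne_zero n hP0), one_smul]
  conv_lhs => rw [h1]
  rw [f_nsmul f1 (hx n), ← Nat.cast_smul_eq_nsmul ℚ, map_smul, smul_eq_mul, Nat.cast_pow]

include f1 f2 in
lemma rig1 {v w : List ℤ} (h : co w (f (ev v)) ≠ 0) : w.length = v.length := by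
  by_contra h1
  apply h
  exact div_L f1 f2 (P := lp v.length) (co w) (fun g hg => con1 hg h1)
    fun n => AddSubgroup.subset_closure (Or.inl ⟨v, 0, n, rfl⟩)

include f1 f2 in
lemma rig2 {v w : List ℤ} (h : co w (f (ev v)) ≠ 0) : Λ v ⊆ Λ' w := by
  intro κ hκ
  by_contra h1
  apply h
  exact div_L f1 f2 (P := qp κ) (co w) (fun g hg => con2 hg h1)
    fun n => AddSubgroup.subset_closure (Or.inr (Or.inl ⟨v, κ, 0, n, hκ, rfl⟩))

lemma tau_apply (w' : List ℤ) (x : Ga) :
    tau w' x = x.sum fun w q => q * ((ct w' w : ℤ) : ℚ) := by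
  rw [tau, Finsupp.linearCombination_apply]
  simp only [smul_eq_mul]

include f1 f2 in
lemma rig3 (k : ℤ) {p w' : List ℤ} (h : co w' (f (ev p)) ≠ 0) :
    ∃ k', co (k' :: w') (f (ev (k :: p))) ≠ 0 := by
  have hl := rig1 f1 f2 h
  have h0 : tau w' (f (ev (k :: p) + ev p)) = 0 := by
    refine div_L f1 f2 (P := rp w'.length) (tau w') (fun g hg => con3 hg w') fun n => ?_
    rw [hl]
    exact AddSubgroup.subset_closure (Or.inr (Or.inr ⟨k, p, 0, n, rfl⟩))
  rw [f1 _ (ev_mem Λ _) _ (ev_mem Λ _), map_add] at h0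
  have h1 : tau w' (f (ev p)) = co w' (f (ev p)) := by
    rw [tau_apply, Finsupp.sum, Finset.sum_eq_single w']
    · have : ct w' w' = 1 := if_pos rfl
      rw [this]
      simp [co_apply]
    · intro w hw hne
      have h2 := rig1 f1 f2 (v := p) (w := w) (Finsupp.mem_support_iff.1 hw)
      have : ct w' w = 0 := by
        unfold ct
        rw [if_neg hne, if_neg]
        rintro ⟨k, rfl⟩
        rw [List.length_cons] at h2
        omega
      rw [this]
      simp
    · intro h2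
      rw [Finsupp.notMem_support_iff.1 h2, zero_mul]
  rw [h1] at h0
  by_contra h2
  push Not at h2
  apply h
  have h3 : tau w' (f (ev (k :: p))) = 0 := by
    rw [tau_apply, Finsupp.sum]
    refine Finset.sum_eq_zero fun w hw => ?_
    have h4 := rig1 f1 f2 (v := k :: p) (w := w) (Finsupp.mem_support_iff.1 hw)
    rw [List.length_cons] at h4
    have : ct w' w = 0 := by
      unfold ct
      rw [if_neg, if_neg]
      · rintro ⟨k', rfl⟩
        exact (Finsupp.mem_support_iff.1 hw) (h2 k')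
      · rintro rfl
        omega
    rw [this]
    simp
  rw [h3, zero_add] at h0
  exact h0

include f1 f2 in
/-- a homomorphism of groups gives a map of trees -/
theorem tree_of_hom (f3 : f (ev []) ≠ 0) :
    ∃ g : List ℤ → List ℤ, g [] = [] ∧ (∀ k p, ∃ k', g (k :: p) = k' :: g p) ∧
      ∀ p, Λ p ⊆ Λ' (g p) := by
  classical
  have h1 : ∀ (k : ℤ) (p w' : List ℤ), ∃ k' : ℤ,
      co w' (f (ev p)) ≠ 0 → co (k' :: w') (f (ev (k :: p))) ≠ 0 := by
    intro k p w'
    by_cases h : co w' (f (ev p)) ≠ 0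
    · obtain ⟨k', hk'⟩ := rig3 f1 f2 k h
      exact ⟨k', fun _ => hk'⟩
    · exact ⟨0, fun h' => absurd h' h⟩
  choose sel hsel using h1
  let g : List ℤ → List ℤ := fun p => List.rec (motive := fun _ => List ℤ) []
    (fun k p gp => sel k p gp :: gp) p
  have hg0 : g [] = [] := rfl
  have hgs : ∀ k p, g (k :: p) = sel k p (g p) :: g p := fun k p => rfl
  have hg : ∀ p, co (g p) (f (ev p)) ≠ 0 := by
    intro p
    induction p with
    | nil =>
      rw [hg0]
      obtain ⟨w, hw⟩ := Finsupp.ne_iff.1 f3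
      have hw' : co w (f (ev [])) ≠ 0 := hw
      have h2 := rig1 f1 f2 hw'
      rw [List.length_nil, List.length_eq_zero_iff] at h2
      rw [h2] at hw'
      exact hw'
    | cons k p ih =>
      rw [hgs]
      exact hsel k p _ ih
  exact ⟨g, hg0, fun k p => ⟨_, hgs k p⟩, fun p => rig2 f1 f2 (hg p)⟩

end rigid

/-! ### maps of trees give homomorphisms -/

/-- the homomorphism of a map of trees -/
noncomputable def mapg (g : List ℤ → List ℤ) : Ga →ₗ[ℚ] Ga := Finsupp.lmapDomain ℚ ℚ g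

lemma mapg_ev (g : List ℤ → List ℤ) (p : List ℤ) : mapg g (ev p) = ev (g p) := by
  simp [mapg, ev, Finsupp.mapDomain_single]

lemma stt_mapg (g : List ℤ → List ℤ) (x : Ga) : stt (mapg g x) = stt x := by
  have h : stt ∘ₗ mapg g = stt := by
    apply Finsupp.lhom_ext
    intro p q
    have e : (Finsupp.single p q : Ga) = q • ev p := by simp [ev]
    rw [e, map_smul, map_smul, LinearMap.comp_apply, mapg_ev, stt_ev, stt_ev]
  exact congrArg (fun L : Ga →ₗ[ℚ] ℚ => L x) h

lemma mapg_mem {Λ Λ' : List ℤ → Set K} {g : List ℤ → List ℤ} (hg0 : g [] = [])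
    (hg : ∀ k p, ∃ k', g (k :: p) = k' :: g p) (hL : ∀ p, Λ p ⊆ Λ' (g p)) {x : Ga}
    (hx : x ∈ GG Λ) : mapg g x ∈ GG Λ' := by
  have hlen : ∀ p, (g p).length = p.length := by
    intro p
    induction p with
    | nil => rw [hg0]
    | cons k p ih =>
      obtain ⟨k', hk'⟩ := hg k p
      rw [hk', List.length_cons, List.length_cons, ih]
  unfold GG at hx
  induction hx using AddSubgroup.closure_induction with
  | mem x hx =>
    apply AddSubgroup.subset_closure
    rcases hx with ⟨p, m, n, rfl⟩ | ⟨p, κ, m, n, h, rfl⟩ | ⟨k, p, m, n, rfl⟩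
    · refine Or.inl ⟨g p, m, n, ?_⟩
      rw [hlen, ga, map_smul, mapg_ev, ga]
    · refine Or.inr (Or.inl ⟨g p, κ, m, n, hL p h, ?_⟩)
      rw [ga, map_smul, mapg_ev, ga]
    · obtain ⟨k', hk'⟩ := hg k p
      refine Or.inr (Or.inr ⟨k', g p, m, n, ?_⟩)
      rw [hlen, ga, map_smul, map_add, mapg_ev, mapg_ev, ga, hk']
  | zero => rw [map_zero]; exact zero_mem _
  | add x y _ _ hx hy => rw [map_add]; exact add_mem hx hy
  | neg x _ hx => rw [map_neg]; exact neg_mem hx

end Pool.Agent.L7h66.SA
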