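import Pool.Agent.L7h66.SA.Rep

/-!
# Homomorphisms of groups give embeddings
-/

set_option autoImplicit false
set_option linter.unusedSectionVars false

open scoped InnerProductSpace

namespace Pool.Agent.L7h66.SA

open Pool.Agent.TH723.AF (op_ext vec_ext op_of_some op_of_none op norm_b inner_op_symm inner_b)

universe u v w

/-! ### counting -/

lemma card_of_sum {V : Type u} [AddCommGroup V] {B : Finset V}
    (hli : LinearIndependent ℤ (fun v : B => (v : V))) {ι : Type v} {κ : Type w} [Fintype ι]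
    [Fintype κ] (f : ι → V) (g : κ → V) (hf : ∀ i, f i ∈ B) (hg : ∀ j, g j ∈ B)
    (h : ∑ i, f i = ∑ j, g j) : ∃ e : ι ≃ κ, ∀ i, g (e i) = f i := by
  classical
  have hsum : ∀ (σ : Type v) [Fintype σ] (k : σ → V), (∀ i, k i ∈ B) →
      ∑ i, k i = ∑ c : B, (Fintype.card {i // k i = c} : ℤ) • (c : V) := by
    intro σ _ k hk
    have h1 : ∑ c : B, (Fintype.card {i // k i = c} : ℤ) • (c : V) =
        ∑ c ∈ B, (Fintype.card {i // k i = c} : ℤ) • c :=
      Finset.sum_coe_sort B (fun c => (Fintype.card {i // k i = c} : ℤ) • c)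
    rw [h1, ← Finset.sum_fiberwise_of_maps_to (t := B) (g := k) (fun i _ => hk i)]
    refine Finset.sum_congr rfl fun c _ => ?_
    have h2 : ∀ i ∈ (Finset.univ : Finset σ).filter (fun i => k i = c), k i = c :=
      fun i hi => (Finset.mem_filter.1 hi).2
    rw [Finset.sum_congr rfl h2, Finset.sum_const, Fintype.card_subtype, natCast_zsmul]
  have hsum' : ∀ (σ : Type w) [Fintype σ] (k : σ → V), (∀ i, k i ∈ B) →
      ∑ i, k i = ∑ c : B, (Fintype.card {i // k i = c} : ℤ) • (c : V) := by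
    intro σ _ k hk
    have h1 : ∑ c : B, (Fintype.card {i // k i = c} : ℤ) • (c : V) =
        ∑ c ∈ B, (Fintype.card {i // k i = c} : ℤ) • c :=
      Finset.sum_coe_sort B (fun c => (Fintype.card {i // k i = c} : ℤ) • c)
    rw [h1, ← Finset.sum_fiberwise_of_maps_to (t := B) (g := k) (fun i _ => hk i)]
    refine Finset.sum_congr rfl fun c _ => ?_
    have h2 : ∀ i ∈ (Finset.univ : Finset σ).filter (fun i => k i = c), k i = c :=
      fun i hi => (Finset.mem_filter.1 hi).2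
    rw [Finset.sum_congr rfl h2, Finset.sum_const, Fintype.card_subtype, natCast_zsmul]
  have hc : ∀ c ∈ B, Fintype.card {i // f i = c} = Fintype.card {j // g j = c} := by
    intro c hc
    rw [hsum ι f hf, hsum' κ g hg] at h
    rw [Fintype.linearIndependent_iff] at hli
    have h3 := hli (fun c => (Fintype.card {i // f i = c} : ℤ) -
      (Fintype.card {j // g j = c} : ℤ)) ?_ ⟨c, hc⟩
    · have h4 := sub_eq_zero.1 h3
      exact_mod_cast h4
    · simp only [sub_smul]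
      rw [Finset.sum_sub_distrib, h, sub_self]
  have he : ∀ c : V, Nonempty ({i // f i = c} ≃ {j // g j = c}) := by
    intro c
    by_cases h1 : c ∈ B
    · exact ⟨Fintype.equivOfCardEq (hc c h1)⟩
    · have e1 : IsEmpty {i // f i = c} := ⟨fun i => h1 (by rw [← i.2]; exact hf _)⟩
      have e2 : IsEmpty {j // g j = c} := ⟨fun j => h1 (by rw [← j.2]; exact hg _)⟩
      exact ⟨Equiv.equivOfIsEmpty _ _⟩
  exact ⟨Equiv.ofFiberEquiv fun c => (he c).some, fun i => Equiv.ofFiberEquiv_map _ i⟩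

namespace Dg

section

variable {V : Type u} {D : Dg V}

open Classical in
variable (D) in
/-- the heads of length `j` which extend an element of `A` -/
noncomputable def exs (k : ℕ) (A : Finset Om) (j : ℕ) : Finset Om :=
  (D.Pf j).filter fun w => tr k w ∈ A

lemma mem_exs {k : ℕ} {A : Finset Om} {j : ℕ} {w : Om} :
    w ∈ D.exs k A j ↔ w ∈ D.P j ∧ tr k w ∈ A := by
  classical
  unfold exs
  rw [Finset.mem_filter, mem_Pf]

lemma exs_self {k : ℕ} {A : Finset Om} (hA : ∀ w ∈ A, w ∈ D.P k) : D.exs k A k = A := by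
  ext w
  rw [mem_exs]
  constructor
  · rintro ⟨h1, h2⟩
    rwa [tr_self h1.2] at h2
  · intro h
    refine ⟨hA w h, ?_⟩
    rw [tr_self (hA w h).2]
    exact h

/-- sums over the extensions -/
lemma sum_exs {M : Type*} [AddCommMonoid M] {g : ℕ → Om → M}
    (hg : ∀ k, ∀ a ∈ D.P k, ∑ i ∈ Finset.range (D.od k (D.st a k)), g (k + 1) (ext k a i) = g k a)
    {k : ℕ} {A : Finset Om} (hA : ∀ w ∈ A, w ∈ D.P k) {j : ℕ} (hj : k ≤ j) :
    ∑ w ∈ D.exs k A j, g j w = ∑ a ∈ A, g k a := by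
  classical
  induction j, hj using Nat.le_induction with
  | base => rw [exs_self hA]
  | succ j hj ih =>
    rw [← ih]
    unfold exs
    rw [Finset.sum_filter, Finset.sum_filter, sum_Pf_succ]
    refine Finset.sum_congr rfl fun a ha => ?_
    have h1 : ∀ i, tr k (ext j a i) = tr k a := by
      intro i
      rw [← tr_tr hj, tr_ext i (mem_Pf.1 ha).2]
    simp only [h1]
    split_ifs
    · exact hg j a (mem_Pf.1 ha)
    · exact Finset.sum_const_zero

end

section

variable {V : Type u} [AddCommGroup V] {D : Dg V}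

lemma st_sum (hD : D.Sm) (k : ℕ) (a : Om) (ha : a ∈ D.P k) :
    ∑ i ∈ Finset.range (D.od k (D.st a k)), D.st (ext k a i) (k + 1) = D.st a k := by
  conv_rhs => rw [← hD k _ (mem_vs.2 ⟨a, ha, rfl⟩)]
  exact Finset.sum_congr rfl fun i _ => ext_at _ _ _

lemma st_total (hD : D.Sm) (k : ℕ) : ∑ w ∈ D.Pf k, D.st w k = D.r := by
  have h := sum_exs (D := D) (g := fun k w => D.st w k) (st_sum hD) (k := 0) (A := {0})
    (fun w hw => by rw [Finset.mem_singleton.1 hw]; exact zero_mem_P 0) (Nat.zero_le k)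
  have h1 : D.exs 0 {0} k = D.Pf k := by
    ext w
    rw [mem_exs, mem_Pf]
    constructor
    · exact fun h => h.1
    · intro h
      refine ⟨h, ?_⟩
      rw [Finset.mem_singleton]
      exact Finsupp.ext fun n => tr_tail 0 w (Nat.zero_le n)
  rw [h1] at h
  rw [h, Finset.sum_singleton]
  rfl

/-- total sum in terms of the vertices -/
lemma exists_sets {V' : Type u} [AddCommGroup V'] {D' : Dg V'} (hD : D.Sm) (hD' : D'.Sm)
    (α : V →+ V') (hr : α D.r = D'.r) (n m : ℕ)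
    (hli' : LinearIndependent ℤ (fun v : D'.vs m => (v : V')))
    (hpos : ∀ v ∈ D.vs n, ∃ c : V' → ℕ, ∑ v' ∈ D'.vs m, c v' • v' = α v) :
    ∀ v ∈ D.vs n, ∃ S : Finset Om, (∀ w ∈ S, w ∈ D'.P m) ∧ ∑ w ∈ S, D'.st w m = α v := by
  classical
  have hpos' : ∀ v : V, ∃ c : V' → ℕ, v ∈ D.vs n → ∑ v' ∈ D'.vs m, c v' • v' = α v := by
    intro v
    by_cases hv : v ∈ D.vs n
    · obtain ⟨c, hc⟩ := hpos v hv
      exact ⟨c, fun _ => hc⟩
    · exact ⟨0, fun h => absurd h hv⟩
  choose c hc using hpos'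
  let J : Type u := Σ a : D.Pf n, Σ v' : D'.vs m, ULift.{u} (Fin (c (D.st a.1 n) v'.1))
  let f : J → V' := fun j => j.2.1.1
  let g : ULift.{u} (D'.Pf m) → V' := fun w => D'.st w.down.1 m
  have hfib : ∀ a : D.Pf n, ∑ x : (Σ v' : D'.vs m, ULift.{u} (Fin (c (D.st a.1 n) v'.1))),
      (x.1.1 : V') = α (D.st a.1 n) := by
    intro a
    rw [Fintype.sum_sigma]
    have h1 : ∀ v' : D'.vs m, ∑ _y : ULift.{u} (Fin (c (D.st a.1 n) v'.1)), (v'.1 : V') =
        c (D.st a.1 n) v'.1 • v'.1 := by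
      intro v'
      rw [Finset.sum_const, Finset.card_univ, Fintype.card_ulift, Fintype.card_fin]
    simp only [h1]
    rw [Finset.sum_coe_sort (D'.vs m) (fun v' => c (D.st a.1 n) v' • v')]
    exact hc _ (mem_vs.2 ⟨a.1, mem_Pf.1 a.2, rfl⟩)
  have hsum : ∑ j, f j = ∑ w, g w := by
    have h1 : ∑ j, f j = D'.r := by
      change ∑ j : J, f j = D'.r
      rw [Fintype.sum_sigma]
      have h2 : ∀ a : D.Pf n, ∑ x : (Σ v' : D'.vs m, ULift.{u} (Fin (c (D.st a.1 n) v'.1))),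
          f ⟨a, x⟩ = α (D.st a.1 n) := hfib
      simp only [h2]
      rw [Finset.sum_coe_sort (D.Pf n) (fun a => α (D.st a n)), ← map_sum, st_total hD, hr]
    have h2 : ∑ w, g w = D'.r := by
      rw [← st_total hD' m, ← Finset.sum_coe_sort (D'.Pf m) (fun w => D'.st w m)]
      exact Fintype.sum_equiv Equiv.ulift _ _ fun x => rfl
    rw [h1, h2]
  obtain ⟨e, he⟩ := card_of_sum hli' f g (fun j => j.2.1.2)
    (fun w => mem_vs.2 ⟨w.down.1, mem_Pf.1 w.down.2, rfl⟩) hsum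
  intro v hv
  obtain ⟨a, ha, rfl⟩ := mem_vs.1 hv
  let a' : D.Pf n := ⟨a, mem_Pf.2 ha⟩
  let ι : (Σ v' : D'.vs m, ULift.{u} (Fin (c (D.st a n) v'.1))) → Om := fun x => (e ⟨a', x⟩).down.1
  have hι : Function.Injective ι := by
    intro x y hxy
    have h1 : e ⟨a', x⟩ = e ⟨a', y⟩ := ULift.ext _ _ (Subtype.ext hxy)
    have h2 := e.injective h1
    exact eq_of_heq ((Sigma.mk.injEq _ _ _ _).mp h2).2
  refine ⟨Finset.univ.image ι, ?_, ?_⟩
  · intro w hw
    obtain ⟨x, -, rfl⟩ := Finset.mem_image.1 hw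
    exact mem_Pf.1 (e ⟨a', x⟩).down.2
  · rw [Finset.sum_image fun x _ y _ h => hι h]
    have h1 : ∀ x ∈ (Finset.univ : Finset (Σ v' : D'.vs m, ULift.{u} (Fin (c (D.st a n) v'.1)))),
        D'.st (ι x) m = x.1.1 := fun x _ => he ⟨a', x⟩
    rw [Finset.sum_congr rfl h1]
    exact hfib a'

/-- the levels -/
lemma exists_levels {V' : Type u} [AddCommGroup V'] {D' : Dg V'}
    (α : V →+ V')
    (hpos : ∀ n, ∀ v ∈ D.vs n, ∃ m0, ∀ m, m0 ≤ m → ∃ c : V' → ℕ,
      ∑ v' ∈ D'.vs m, c v' • v' = α v) :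
    ∃ M : ℕ → ℕ, (∀ n, M n ≤ M (n + 1)) ∧ ∀ n, ∀ v ∈ D.vs n, ∃ c : V' → ℕ,
      ∑ v' ∈ D'.vs (M n), c v' • v' = α v := by
  classical
  have h1 : ∀ n, ∃ m0, ∀ m, m0 ≤ m → ∀ v ∈ D.vs n, ∃ c : V' → ℕ,
      ∑ v' ∈ D'.vs m, c v' • v' = α v := by
    intro n
    have h2 : ∀ v : V, ∃ m0, v ∈ D.vs n → ∀ m, m0 ≤ m → ∃ c : V' → ℕ,
        ∑ v' ∈ D'.vs m, c v' • v' = α v := by
      intro v
      by_cases hv : v ∈ D.vs n
      · obtain ⟨m0, h⟩ := hpos n v hv
        exact ⟨m0, fun _ => h⟩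
      · exact ⟨0, fun h => absurd h hv⟩
    choose m0 hm0 using h2
    refine ⟨(D.vs n).sup m0, fun m hm v hv => hm0 v hv m ((Finset.le_sup hv).trans hm)⟩
  choose m0 hm0 using h1
  let M : ℕ → ℕ := fun n => Nat.rec (motive := fun _ => ℕ) (m0 0) (fun n r => max r (m0 (n + 1))) n
  have hM : ∀ n, m0 n ≤ M n := by
    intro n
    cases n with
    | zero => exact le_rfl
    | succ n => exact le_max_right _ _
  exact ⟨M, fun n => le_max_left _ _, fun n v hv => hm0 n (M n) (hM n) v hv⟩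

variable {H : Type v} [NormedAddCommGroup H] [InnerProductSpace ℂ H] [CompleteSpace H]
  {b : HilbertBasis Om ℂ H}

lemma E_sum {V : Type u} {D : Dg V} (k : ℕ) (a : Om) (ha : a ∈ D.P k) :
    ∑ i ∈ Finset.range (D.od k (D.st a k)), D.E b (k + 1) (ext k a i) (ext k a i) =
      D.E b k a a := (E_succ ha.1 rfl).symm

/-- a homomorphism gives a representation -/
theorem exists_rep {V' : Type u} [AddCommGroup V'] {D' : Dg V'} (hD : D.Sm) (hD' : D'.Sm)
    (hli' : ∀ m, LinearIndependent ℤ (fun v : D'.vs m => (v : V')))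
    (α : V →+ V') (hr : α D.r = D'.r) (hα : ∀ n, ∀ v ∈ D.vs n, α v ≠ 0)
    (hpos : ∀ n, ∀ v ∈ D.vs n, ∃ m0, ∀ m, m0 ≤ m → ∃ c : V' → ℕ,
      ∑ v' ∈ D'.vs m, c v' • v' = α v) :
    ∃ (q : ℕ → V → (H →L[ℂ] H)) (t : ℕ → V → ℕ → (H →L[ℂ] H)), D.Rp q t ∧
      q 0 D.r ∈ D'.AA b ∧ ∀ n v i, t n v i ∈ D'.AA b := by
  classical
  obtain ⟨M, hM, hMp⟩ := exists_levels α hpos
  have h1 : ∀ (n : ℕ) (v : V), ∃ S : Finset Om, v ∈ D.vs n →
      (∀ w ∈ S, w ∈ D'.P (M n)) ∧ ∑ w ∈ S, D'.st w (M n) = α v := by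
    intro n v
    by_cases hv : v ∈ D.vs n
    · obtain ⟨S, hS⟩ := exists_sets hD hD' α hr n (M n) (hli' _) (hMp n) v hv
      exact ⟨S, fun _ => hS⟩
    · exact ⟨∅, fun h => absurd h hv⟩
  choose S hS using h1
  -- the bijections
  have h2 : ∀ (n : ℕ) (v : V), ∃ e : (Σ i : Fin (D.od n v), S (n + 1) (D.nx n v i)) → Om,
      v ∈ D.vs n → Function.Injective e ∧
        (∀ x, e x ∈ D'.exs (M n) (S n v) (M (n + 1))) ∧
        (∀ w ∈ D'.exs (M n) (S n v) (M (n + 1)), ∃ x, e x = w) ∧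
        (∀ x, D'.st (e x) (M (n + 1)) = D'.st x.2.1 (M (n + 1))) := by
    intro n v
    by_cases hv : v ∈ D.vs n
    · let f : (Σ i : Fin (D.od n v), S (n + 1) (D.nx n v i)) → V' :=
        fun x => D'.st x.2.1 (M (n + 1))
      let g : D'.exs (M n) (S n v) (M (n + 1)) → V' := fun w => D'.st w.1 (M (n + 1))
      have hnx : ∀ i : Fin (D.od n v), D.nx n v i ∈ D.vs (n + 1) := fun i => nx_mem_vs hv i.2
      have hf : ∀ x, f x ∈ D'.vs (M (n + 1)) := fun x =>
        mem_vs.2 ⟨x.2.1, (hS (n + 1) _ (hnx x.1)).1 _ x.2.2, rfl⟩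
      have hg : ∀ w, g w ∈ D'.vs (M (n + 1)) := fun w =>
        mem_vs.2 ⟨w.1, (mem_exs.1 w.2).1, rfl⟩
      have hsum : ∑ x, f x = ∑ w, g w := by
        have e1 : ∑ x, f x = α v := by
          rw [Fintype.sum_sigma]
          have e2 : ∀ i : Fin (D.od n v), ∑ w : S (n + 1) (D.nx n v i), f ⟨i, w⟩ =
              α (D.nx n v i) := by
            intro i
            change ∑ w : S (n + 1) (D.nx n v i), D'.st w.1 (M (n + 1)) = _
            rw [Finset.sum_coe_sort (S (n + 1) (D.nx n v i)) (fun w => D'.st w (M (n + 1)))]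
            exact (hS (n + 1) _ (hnx i)).2
          simp only [e2]
          rw [← map_sum]
          congr 1
          rw [Fin.sum_univ_eq_sum_range (fun i => D.nx n v i)]
          exact hD n v hv
        have e3 : ∑ w, g w = α v := by
          change ∑ w : D'.exs (M n) (S n v) (M (n + 1)), D'.st w.1 (M (n + 1)) = α v
          rw [Finset.sum_coe_sort (D'.exs (M n) (S n v) (M (n + 1)))
            (fun w => D'.st w (M (n + 1)))]
          rw [sum_exs (D := D') (g := fun k w => D'.st w k) (st_sum hD') (hS n v hv).1 (hM n)]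
          exact (hS n v hv).2
        rw [e1, e3]
      obtain ⟨e, he⟩ := card_of_sum (hli' _) f g hf hg hsum
      refine ⟨fun x => (e x).1, fun _ => ⟨?_, fun x => (e x).2, ?_, he⟩⟩
      · intro x y hxy
        exact e.injective (Subtype.ext hxy)
      · intro w hw
        exact ⟨e.symm ⟨w, hw⟩, by dsimp only; rw [e.apply_symm_apply]⟩
    · exact ⟨fun _ => 0, fun h => absurd h hv⟩
  choose e he using h2
  -- the operators
  let q : ℕ → V → (H →L[ℂ] H) := fun n v => ∑ w ∈ S n v, D'.E b (M n) w w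
  let t : ℕ → V → ℕ → (H →L[ℂ] H) := fun n v i =>
    if hi : i < D.od n v then
      ∑ w : S (n + 1) (D.nx n v i), D'.E b (M (n + 1)) (e n v ⟨⟨i, hi⟩, w⟩) w.1
    else 0
  have ht : ∀ (n : ℕ) (v : V) (i : ℕ) (hi : i < D.od n v), t n v i =
      ∑ w : S (n + 1) (D.nx n v i), D'.E b (M (n + 1)) (e n v ⟨⟨i, hi⟩, w⟩) w.1 :=
    fun n v i hi => dif_pos hi
  have hP1 : ∀ n, ∀ v ∈ D.vs n, ∀ (i : ℕ) (hi : i < D.od n v) (w : S (n + 1) (D.nx n v i)),
      w.1 ∈ D'.P (M (n + 1)) := fun n v hv i hi w => (hS (n + 1) _ (nx_mem_vs hv hi)).1 _ w.2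
  have hP2 : ∀ n, ∀ v ∈ D.vs n, ∀ x, e n v x ∈ D'.P (M (n + 1)) :=
    fun n v hv x => (mem_exs.1 ((he n v hv).2.1 x)).1
  have hq : ∀ (n : ℕ) (v : V) (i : ℕ), q (n + 1) (D.nx n v i) =
      ∑ w : S (n + 1) (D.nx n v i), D'.E b (M (n + 1)) w.1 w.1 := by
    intro n v i
    exact (Finset.sum_coe_sort (S (n + 1) (D.nx n v i))
      (fun w => D'.E b (M (n + 1)) w w)).symm
  refine ⟨q, t, ⟨?_, ?_, ?_, ?_, ?_⟩, ?_, ?_⟩
  · -- qt
    intro n v hv i hi
    rw [hq, ht n v i hi, star_sum, Finset.sum_mul]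
    refine Finset.sum_congr rfl fun w _ => ?_
    rw [Finset.mul_sum, Finset.sum_eq_single_of_mem w (Finset.mem_univ _)]
    · rw [star_E]
      exact E_mul (hP2 n v hv _).1 ((he n v hv).2.2.2 ⟨⟨i, hi⟩, w⟩).symm
    · intro w' _ hne
      rw [star_E]
      apply E_mul_zero
      intro h3
      have h4 := eq_of_P (hP2 n v hv _) (hP2 n v hv _) h3
      have h5 := (he n v hv).1 h4
      simp only [Sigma.mk.injEq, heq_eq_eq, true_and] at h5
      exact hne h5.symm
  · -- ort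
    intro n v hv i hi j hj hij
    rw [ht n v i hi, ht n v j hj, star_sum, Finset.sum_mul]
    refine Finset.sum_eq_zero fun w _ => ?_
    rw [Finset.mul_sum]
    refine Finset.sum_eq_zero fun w' _ => ?_
    rw [star_E]
    apply E_mul_zero
    intro h3
    have h4 := eq_of_P (hP2 n v hv _) (hP2 n v hv _) h3
    have h5 := (he n v hv).1 h4
    have h6 := congrArg (fun x => x.1.1) h5
    exact hij h6
  · -- sum
    intro n v hv
    have e1 : ∀ i : Fin (D.od n v), t n v i * star (t n v i) =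
        ∑ w : S (n + 1) (D.nx n v i),
          D'.E b (M (n + 1)) (e n v ⟨i, w⟩) (e n v ⟨i, w⟩) := by
      intro i
      rw [ht n v i i.2, star_sum, Finset.sum_mul]
      refine Finset.sum_congr rfl fun w _ => ?_
      rw [Finset.mul_sum, Finset.sum_eq_single_of_mem w (Finset.mem_univ _)]
      · rw [star_E]
        exact E_mul (hP1 n v hv i i.2 w).1 ((he n v hv).2.2.2 ⟨i, w⟩)
      · intro w' _ hne
        rw [star_E]
        apply E_mul_zero
        intro h3
        exact hne (Subtype.ext (eq_of_P (hP1 n v hv i i.2 _) (hP1 n v hv i i.2 _) h3)).symm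
    rw [← Fin.sum_univ_eq_sum_range (fun i => t n v i * star (t n v i))]
    simp only [e1]
    have e2 : ∑ i : Fin (D.od n v), ∑ w : S (n + 1) (D.nx n v i),
        D'.E b (M (n + 1)) (e n v ⟨i, w⟩) (e n v ⟨i, w⟩) =
        ∑ x : (Σ i : Fin (D.od n v), S (n + 1) (D.nx n v i)),
          D'.E b (M (n + 1)) (e n v x) (e n v x) :=
      (Fintype.sum_sigma (fun x => D'.E b (M (n + 1)) (e n v x) (e n v x))).symm
    rw [e2]
    have e3 : ∑ x : (Σ i : Fin (D.od n v), S (n + 1) (D.nx n v i)),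
        D'.E b (M (n + 1)) (e n v x) (e n v x) =
        ∑ w ∈ D'.exs (M n) (S n v) (M (n + 1)), D'.E b (M (n + 1)) w w := by
      refine Finset.sum_bij (fun x _ => e n v x) ?_ ?_ ?_ ?_
      · intro x _
        exact (he n v hv).2.1 x
      · intro x _ y _ h3
        exact (he n v hv).1 h3
      · intro w hw
        obtain ⟨x, hx⟩ := (he n v hv).2.2.1 w hw
        exact ⟨x, Finset.mem_univ _, hx⟩
      · intro x _
        rfl
    rw [e3, sum_exs (D := D') (g := fun k w => D'.E b k w w) E_sum (hS n v hv).1 (hM n)]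
  · -- tq
    intro n v hv i hi
    rw [hq, ht n v i hi, Finset.sum_mul]
    refine Finset.sum_congr rfl fun w _ => ?_
    rw [Finset.mul_sum, Finset.sum_eq_single_of_mem w (Finset.mem_univ _)]
    · exact E_mul (hP1 n v hv i hi w).1 ((he n v hv).2.2.2 ⟨⟨i, hi⟩, w⟩)
    · intro w' _ hne
      apply E_mul_zero
      intro h3
      exact hne (Subtype.ext (eq_of_P (hP1 n v hv i hi _) (hP1 n v hv i hi _) h3)).symm
  · -- ne
    intro n v hv h0
    have h3 : (S n v).Nonempty := by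
      rw [Finset.nonempty_iff_ne_empty]
      intro h4
      have h5 := (hS n v hv).2
      rw [h4, Finset.sum_empty] at h5
      exact hα n v hv h5.symm
    obtain ⟨w, hw⟩ := h3
    have hwP := (hS n v hv).1 w hw
    have h4 := congrArg (fun T : H →L[ℂ] H => T (b w)) h0
    simp only [zero_apply] at h4
    change (∑ w ∈ S n v, D'.E b (M n) w w) (b w) = 0 at h4
    rw [sum_apply, Finset.sum_eq_single_of_mem w hw] at h4
    · rw [E_of hwP.1 hwP.1 (Hd.refl _ _) (Hd.refl _ _) (Tl.refl _ _)] at h4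
      have h5 := norm_b b w
      rw [h4, norm_zero] at h5
      exact zero_ne_one h5
    · intro w' hw' hne
      apply E_of_not
      rintro ⟨-, h5⟩
      exact hne (eq_of_P hwP ((hS n v hv).1 w' hw') h5).symm
  · exact sum_mem fun w _ => E_mem_AA _ _ _
  · intro n v i
    by_cases hi : i < D.od n v
    · rw [ht n v i hi]
      exact sum_mem fun w _ => E_mem_AA _ _ _
    · have : t n v i = 0 := dif_neg hi
      rw [this]
      exact zero_mem _

/-- a homomorphism gives an embedding -/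
theorem embedding_of_hom {V' : Type u} [AddCommGroup V'] {D' : Dg V'} (hD : D.Sm) (hD' : D'.Sm)
    (hli' : ∀ m, LinearIndependent ℤ (fun v : D'.vs m => (v : V')))
    (α : V →+ V') (hr : α D.r = D'.r) (hα : ∀ n, ∀ v ∈ D.vs n, α v ≠ 0)
    (hpos : ∀ n, ∀ v ∈ D.vs n, ∃ m0, ∀ m, m0 ≤ m → ∃ c : V' → ℕ,
      ∑ v' ∈ D'.vs m, c v' • v' = α v) :
    ∃ φ : D.AA b →⋆ₙₐ[ℂ] D'.AA b, Function.Injective φ := by
  obtain ⟨q, t, h1, h2, h3⟩ := exists_rep (b := b) hD hD' hli' α hr hα hpos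
  exact exists_embedding h1 (D'.AA b) (NonUnitalStarSubalgebra.isClosed_topologicalClosure _) h2
    fun n v _ i _ => h3 n v i

end

end Dg

end Pool.Agent.L7h66.SA
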