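import Pool.Agent.L7h66.SA.Nuc
import Pool.Agent.L7h66.SA.Brl
import Pool.Agent.L7h66.SA.Grp
import Pool.Agent.TH723.AF.Tree
import Pool.Agent.TH723.AF.Basis

/-!
# Every analytic quasi-order is the embeddability of simple unital AF algebras
-/

set_option autoImplicit false
set_option linter.unusedSectionVars false

open scoped InnerProductSpace

namespace Pool.Agent.L7h66.SA

open Pool.Agent.H579R3.Epi (K IsAuto TLe)
open Pool.Agent.TH723.AF (op exists_tree AnalyticRel countable_of_orthonormal finite_dim_of_basis)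

universe u v

variable {H : Type v} [NormedAddCommGroup H] [InnerProductSpace ℂ H] [CompleteSpace H]

/-- a separable infinite dimensional Hilbert space has a basis indexed by `Om` -/
theorem exists_basis [TopologicalSpace.SeparableSpace H]
    (hH : ¬ FiniteDimensional ℂ H) : Nonempty (HilbertBasis Om ℂ H) := by
  obtain ⟨w, b, -⟩ := exists_hilbertBasis ℂ H
  have hc : Countable w := countable_of_orthonormal b.orthonormal
  have hi : Infinite w := by
    by_contra h
    rw [not_infinite_iff_finite] at h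
    exact hH (finite_dim_of_basis b)
  obtain ⟨e⟩ : Nonempty (Om ≃ w) := nonempty_equiv_of_countable
  have h1 : Orthonormal ℂ (b ∘ e) := b.orthonormal.comp _ e.injective
  refine ⟨HilbertBasis.mk h1 ?_⟩
  rw [Set.range_comp, e.surjective.range_eq, Set.image_univ, b.dense_span]

/-- the C*-algebra generated by the entries of a sequence of operators -/
noncomputable def CA (γ : ℕ → (H →L[ℂ] H)) : NonUnitalStarSubalgebra ℂ (H →L[ℂ] H) :=
  (NonUnitalStarAlgebra.adjoin ℂ (Set.range γ)).topologicalClosure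

variable (b : HilbertBasis Om ℂ H)

/-- the code of the algebra of a diagram -/
noncomputable def cod {V : Type u} (e : ℕ → ℕ × Om × Om) (D : Dg V) (n : ℕ) : H →L[ℂ] H :=
  D.E b (e n).1 (e n).2.1 (e n).2.2

variable {b}

lemma CA_cod {V : Type u} {e : ℕ → ℕ × Om × Om} (he : Function.Surjective e) (D : Dg V) :
    CA (cod b e D) = D.AA b := by
  have h1 : NonUnitalStarAlgebra.adjoin ℂ (Set.range (cod b e D)) = D.A0 b := by
    apply le_antisymm
    · apply NonUnitalStarAlgebra.adjoin_le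
      rintro _ ⟨n, rfl⟩
      exact Set.mem_iUnion.2 ⟨(e n).1, Dg.E_mem _ _⟩
    · intro T hT
      obtain ⟨k, hk⟩ := Set.mem_iUnion.1 hT
      rw [Dg.F_sum k hk]
      refine sum_mem fun a _ => sum_mem fun c _ => SMulMemClass.smul_mem _ ?_
      obtain ⟨n, hn⟩ := he (k, c, a)
      refine NonUnitalStarAlgebra.subset_adjoin ℂ _ ⟨n, ?_⟩
      unfold cod
      rw [hn]
  unfold CA Dg.AA
  rw [h1]

lemma measurable_gen {X : Type u} [MeasurableSpace X] {Λ : X → List ℤ → Set K}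
    (hΛ : ∀ p κ, MeasurableSet {x : X | κ ∈ Λ x p}) (g : Ga) :
    MeasurableSet {x | g ∈ Gen (Λ x)} := by
  have : {x | g ∈ Gen (Λ x)} = {_x | ∃ p m n, g = ga m n (lp p.length) (ev p)} ∪
      ((⋃ q : {q : List ℤ × K × ℕ × ℕ // g = ga q.2.2.1 q.2.2.2 (qp q.2.1) (ev q.1)},
        {x | q.1.2.1 ∈ Λ x q.1.1}) ∪
      {_x | ∃ k p m n, g = ga m n (rp p.length) (ev (k :: p) + ev p)}) := by
    ext x
    simp only [Set.mem_union, Set.mem_iUnion, Set.mem_ofPred_eq]
    unfold Gen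
    constructor
    · rintro (h | ⟨p, κ, m, n, h1, h2⟩ | h)
      · exact Or.inl h
      · exact Or.inr (Or.inl ⟨⟨(p, κ, m, n), h2⟩, h1⟩)
      · exact Or.inr (Or.inr h)
    · rintro (h | ⟨⟨⟨p, κ, m, n⟩, h2⟩, h1⟩ | h)
      · exact Or.inl h
      · exact Or.inr (Or.inl ⟨p, κ, m, n, h1, h2⟩)
      · exact Or.inr (Or.inr h)
  rw [this]
  exact (MeasurableSet.const _).union ((MeasurableSet.iUnion fun q => hΛ _ _).union
    (MeasurableSet.const _))

/-- the properties of the coded algebras -/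
structure Good (A : Set (H →L[ℂ] H)) : Prop where
  unit : ∃ e ∈ A, e ≠ 0 ∧ ∀ a ∈ A, e * a = a ∧ a * e = a
  af : ∃ N : ℕ → NonUnitalStarSubalgebra ℂ (H →L[ℂ] H), Monotone N ∧
    (∀ n, FiniteDimensional ℂ (N n)) ∧ A = closure (⋃ n, (N n : Set (H →L[ℂ] H)))
  simple : ∀ J : Set (H →L[ℂ] H), J ⊆ A → IsClosed J → (0 : H →L[ℂ] H) ∈ J →
    (∀ x ∈ J, ∀ y ∈ J, x + y ∈ J) → (∀ x ∈ J, ∀ y ∈ A, x * y ∈ J ∧ y * x ∈ J) → J = {0} ∨ J = A
  nuc : ∀ F : Set (H →L[ℂ] H), F.Finite → F ⊆ A → ∀ ε : ℝ, 0 < ε →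
    ∃ (n : ℕ) (φ : (H →L[ℂ] H) →ₗ[ℂ] Mat n) (ψ : Mat n →ₗ[ℂ] (H →L[ℂ] H)),
      (∀ x, ‖φ x‖ ≤ ‖x‖) ∧
      (∀ (k : ℕ) (a : Fin k → (H →L[ℂ] H)) (c : Fin k → Mat n),
        (∑ i, ∑ j, star (c i) * φ (star (a i) * a j) * c j).IsPositive) ∧
      (∀ T, ψ T ∈ A) ∧ (∀ T, ‖ψ T‖ ≤ ‖T‖) ∧
      (∀ (k : ℕ) (a : Fin k → Mat n) (c : Fin k → (H →L[ℂ] H)),
        (∑ i, ∑ j, star (c i) * ψ (star (a i) * a j) * c j).IsPositive) ∧
      ∀ x ∈ F, ‖ψ (φ x) - x‖ < ε

lemma stt_u : 0 < stt (ev []) := by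
  rw [stt_ev]
  exact one_pos

/-- every analytic quasi-order is the embeddability of simple unital AF algebras on a Borel family
of codes -/
theorem main [TopologicalSpace.SeparableSpace H] (hH : ¬ FiniteDimensional ℂ H)
    {X : Type u} [MeasurableSpace X] [StandardBorelSpace X]
    (R : X → X → Prop) (hrefl : ∀ x, R x x) (htrans : ∀ x y z, R x y → R y z → R x z)
    (hR : AnalyticRel R) :
    ∃ f : X → ℕ → (H →L[ℂ] H), (∀ n, @Measurable X (H →L[ℂ] H) _ wotB (fun x => f x n)) ∧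
      (∀ x, Good (CA (f x) : Set (H →L[ℂ] H))) ∧
      ∀ x y, R x y ↔ ∃ φ : CA (f x) →⋆ₙₐ[ℂ] CA (f y), Function.Injective φ := by
  obtain ⟨b⟩ := exists_basis (H := H) hH
  obtain ⟨Λ, h1, h2, h3⟩ := exists_tree R hrefl htrans hR
  obtain ⟨e, he⟩ := exists_surjective_nat (ℕ × Om × Om)
  obtain ⟨d, hd⟩ := exists_surjective_nat Ga
  let D : X → Dg Ga := fun x => DG stt d (ev []) (GG (Λ x) : Set Ga)
  have hG : ∀ g : Ga, MeasurableSet {x | g ∈ (GG (Λ x) : Set Ga)} := fun g =>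
    measurable_closure (fun g => measurable_gen h1 g) g
  have hSm : ∀ x, (D x).Sm := fun x => DG_Sm stt_u _
  have hli : ∀ x k, LinearIndependent ℤ (fun v : (D x).vs k => (v : Ga)) :=
    fun x k => DG_li stt_u _ k
  have hvs : ∀ x k, ∀ v ∈ (D x).vs k, v ∈ GG (Λ x) := fun x k v hv =>
    DG_vs_mem stt_u (G := GG (Λ x)) (fun g hg => half_mem hg) (ev_mem _ _) hv
  refine ⟨fun x => cod b e (D x), ?_, ?_, ?_⟩
  · intro n
    refine measurable_op b fun i j => ?_
    exact measurable_Ep (D := D) (fun _ => Ms.const _ _) (fun k v => Ms_DG d (ev []) hG k v)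
      _ _ _ _ _
  · intro x
    rw [CA_cod he]
    refine ⟨⟨(D x).I1 b, Dg.I1_mem_AA, Dg.I1_ne_zero, fun a ha => Dg.AA_I1 ha⟩,
      ⟨fun n => (D x).F b n, fun n m h => Dg.F_mono h, fun n => Dg.F_finite n, rfl⟩, ?_, ?_⟩
    · intro J hJ hcl h0 hadd hmul
      by_cases hJ0 : J = {0}
      · exact Or.inl hJ0
      · right
        obtain ⟨a, ha, ha0⟩ : ∃ a ∈ J, a ≠ 0 := by
          by_contra h
          push Not at h
          apply hJ0
          ext a
          constructor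
          · exact fun ha => h a ha
          · rintro rfl
            exact h0
        refine Dg.simple ?_ hJ hcl hadd h0 hmul ha ha0
        intro k v hv v' hv'
        have e1 := vs_eq (stt_u) (Ss_pos (s := stt) (e := d) (GG (Λ x) : Set Ga)) k
        have e2 := vs_eq (stt_u) (Ss_pos (s := stt) (e := d) (GG (Λ x) : Set Ga)) (k + 1)
        change v ∈ (dia stt (ev []) (Ss stt d (GG (Λ x) : Set Ga))).vs k at hv
        change v' ∈ (dia stt (ev []) (Ss stt d (GG (Λ x) : Set Ga))).vs (k + 1) at hv'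
        rw [e1] at hv
        rw [e2] at hv'
        exact exists_nx stt_u (Ss_pos _) hv hv'
    · intro F hF hFA ε hε
      exact Dg.nuclear F hF hFA hε
  · intro x y
    rw [CA_cod he, CA_cod he]
    constructor
    · intro hxy
      obtain ⟨g, hg, hL⟩ := h2 x y hxy
      refine Dg.embedding_of_hom (hSm x) (hSm y) (hli y) (mapg g).toAddMonoidHom ?_ ?_ ?_
      · change mapg g (ev []) = ev []
        rw [mapg_ev, hg.nil]
      · intro n v hv h0
        have h4 : 0 < stt v := DG_vs_pos stt_u _ hv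
        rw [← stt_mapg g] at h4
        have h5 : mapg g v = 0 := h0
        rw [h5, map_zero] at h4
        exact lt_irrefl _ h4
      · intro n v hv
        have h4 : 0 < stt (mapg g v) := by
          rw [stt_mapg]
          exact DG_vs_pos stt_u _ hv
        exact DG_pos (s := stt) stt_u hd (G := (GG (Λ y) : Set Ga))
          (mapg_mem hg.nil hg.cons hL (hvs x n v hv)) h4
    · rintro ⟨φ, hφ⟩
      apply h3
      obtain ⟨f, f1, f2, f3⟩ := Dg.hom_of_embedding (G := GG (Λ x)) (G' := GG (Λ y))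
        (hSm x) (hSm y) (hli x) (hli y)
        (fun g hg => DG_gen (s := stt) stt_u hd (ev_mem _ _) hg) (ev_mem _ _) (hvs y) φ hφ
      exact tree_of_hom f1 f2 f3

end Pool.Agent.L7h66.SA
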