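import Pool.Agent.L7h66.SA.Smp

/-!
# Nuclearity (the completely positive approximation property)
-/

set_option autoImplicit false
set_option linter.unusedSectionVars false

open scoped InnerProductSpace

namespace Pool.Agent.L7h66.SA

open Pool.Agent.TH723.AF (op_ext vec_ext op_of_some op_of_none op norm_b inner_op_symm inner_b)

universe u v w

variable {H : Type v} [NormedAddCommGroup H] [InnerProductSpace ℂ H] [CompleteSpace H]

/-- the matrix algebra -/
abbrev Mat (n : ℕ) : Type := EuclideanSpace ℂ (Fin n) →L[ℂ] EuclideanSpace ℂ (Fin n)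

/-! ### maps from the matrix algebra -/

section psi

variable {n : ℕ} (X : Fin n → (H →L[ℂ] H))

/-- unit vectors -/
noncomputable def uv (n : ℕ) : OrthonormalBasis (Fin n) ℂ (EuclideanSpace ℂ (Fin n)) :=
  EuclideanSpace.basisFun (Fin n) ℂ

/-- the map from the matrix algebra -/
noncomputable def psi : Mat n →ₗ[ℂ] (H →L[ℂ] H) where
  toFun T := ∑ i, ∑ j, ⟪uv n i, T (uv n j)⟫_ℂ • (star (X i) * X j)
  map_add' S T := by
    rw [← Finset.sum_add_distrib]
    refine Finset.sum_congr rfl fun i _ => ?_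
    rw [← Finset.sum_add_distrib]
    refine Finset.sum_congr rfl fun j _ => ?_
    rw [add_apply, inner_add_right, add_smul]
  map_smul' c T := by
    rw [RingHom.id_apply, Finset.smul_sum]
    refine Finset.sum_congr rfl fun i _ => ?_
    rw [Finset.smul_sum]
    refine Finset.sum_congr rfl fun j _ => ?_
    rw [smul_apply, inner_smul_right, mul_smul]

lemma psi_apply (T : Mat n) :
    psi X T = ∑ i, ∑ j, ⟪uv n i, T (uv n j)⟫_ℂ • (star (X i) * X j) := rfl

/-- the rows -/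
noncomputable def row (d : Fin n) (T : Mat n) : H →L[ℂ] H := ∑ j, ⟪uv n d, T (uv n j)⟫_ℂ • X j

lemma psi_star_mul (S T : Mat n) : psi X (star S * T) = ∑ d, star (row X d S) * row X d T := by
  have h1 : ∀ d, star (row X d S) * row X d T = ∑ i, ∑ j,
      (⟪S (uv n i), uv n d⟫_ℂ * ⟪uv n d, T (uv n j)⟫_ℂ) • (star (X i) * X j) := by
    intro d
    unfold row
    rw [star_sum, Finset.sum_mul]
    refine Finset.sum_congr rfl fun i _ => ?_
    rw [Finset.mul_sum]
    refine Finset.sum_congr rfl fun j _ => ?_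
    rw [star_smul, smul_mul_smul_comm]
    congr 2
    exact inner_conj_symm _ _
  simp only [h1]
  rw [Finset.sum_comm, psi_apply]
  refine Finset.sum_congr rfl fun i _ => ?_
  rw [Finset.sum_comm]
  refine Finset.sum_congr rfl fun j _ => ?_
  rw [← Finset.sum_smul, OrthonormalBasis.sum_inner_mul_inner, mul_app,
    ContinuousLinearMap.star_eq_adjoint, ContinuousLinearMap.adjoint_inner_right]

lemma psi_one : psi X 1 = ∑ i, star (X i) * X i := by
  rw [psi_apply]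
  refine Finset.sum_congr rfl fun i _ => ?_
  rw [Finset.sum_eq_single_of_mem i (Finset.mem_univ _)]
  · rw [one_apply_eq_self, orthonormal_iff_ite.1 (uv n).orthonormal i i, if_pos rfl,
      one_smul]
  · intro j _ hj
    rw [one_apply_eq_self, orthonormal_iff_ite.1 (uv n).orthonormal i j,
      if_neg (Ne.symm hj), zero_smul]

/-- complete positivity -/
lemma psi_cp {k : ℕ} (a : Fin k → Mat n) (c : Fin k → (H →L[ℂ] H)) :
    (∑ i, ∑ j, star (c i) * psi X (star (a i) * a j) * c j).IsPositive := by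
  have h1 : ∑ i, ∑ j, star (c i) * psi X (star (a i) * a j) * c j =
      ∑ d, star (∑ i, row X d (a i) * c i) * (∑ j, row X d (a j) * c j) := by
    have h2 : ∀ i j, star (c i) * psi X (star (a i) * a j) * c j =
        ∑ d, star (row X d (a i) * c i) * (row X d (a j) * c j) := by
      intro i j
      rw [psi_star_mul, Finset.mul_sum, Finset.sum_mul]
      refine Finset.sum_congr rfl fun d _ => ?_
      rw [star_mul]
      simp only [mul_assoc]
    simp only [h2]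
    have h3 : ∀ i, ∑ j, ∑ d, star (row X d (a i) * c i) * (row X d (a j) * c j) =
        ∑ d, ∑ j, star (row X d (a i) * c i) * (row X d (a j) * c j) :=
      fun i => Finset.sum_comm
    simp only [h3]
    rw [Finset.sum_comm]
    refine Finset.sum_congr rfl fun d _ => ?_
    rw [star_sum, Finset.sum_mul]
    refine Finset.sum_congr rfl fun i _ => ?_
    rw [Finset.mul_sum]
  rw [h1, ← ContinuousLinearMap.nonneg_iff_isPositive]
  exact Finset.sum_nonneg fun d _ => star_mul_self_nonneg _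

lemma re_psi (S : Mat n) (ξ : H) :
    RCLike.re ⟪psi X (star S * S) ξ, ξ⟫_ℂ = ∑ d, ‖row X d S ξ‖ ^ 2 := by
  rw [psi_star_mul, sum_apply, sum_inner, map_sum]
  refine Finset.sum_congr rfl fun d _ => ?_
  rw [mul_app, ContinuousLinearMap.star_eq_adjoint, ContinuousLinearMap.adjoint_inner_left,
    inner_self_eq_norm_sq]

/-- contractivity -/
lemma psi_norm (hX : ∀ ξ : H, RCLike.re ⟪psi X 1 ξ, ξ⟫_ℂ ≤ ‖ξ‖ ^ 2) (T : Mat n) :
    ‖psi X T‖ ≤ ‖T‖ := by
  have h1 : ∀ ξ, ∑ d, ‖row X d 1 ξ‖ ^ 2 ≤ ‖ξ‖ ^ 2 := by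
    intro ξ
    have := hX ξ
    rw [← re_psi X 1 ξ, star_one, one_mul]
    exact this
  have h2 : ∀ ξ, ∑ d, ‖row X d T ξ‖ ^ 2 ≤ (‖T‖ * ‖ξ‖) ^ 2 := by
    intro ξ
    have e1 : (0 : Mat n) ≤ algebraMap ℝ (Mat n) (‖T‖ ^ 2) - star T * T :=
      sub_nonneg.2 CStarAlgebra.star_mul_le_algebraMap_norm_sq
    obtain ⟨C, hC⟩ := CStarAlgebra.nonneg_iff_eq_star_mul_self.1 e1
    have e2 := re_psi X C ξ
    rw [← hC] at e2
    have e3 : algebraMap ℝ (Mat n) (‖T‖ ^ 2) = ((‖T‖ ^ 2 : ℝ) : ℂ) • (1 : Mat n) := by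
      rw [Algebra.algebraMap_eq_smul_one]
      exact (Complex.coe_smul _ _).symm
    rw [e3, map_sub, map_smul, sub_apply, inner_sub_left, map_sub, re_psi, smul_apply,
      inner_smul_left] at e2
    have e4 : RCLike.re ((starRingEnd ℂ) ((‖T‖ ^ 2 : ℝ) : ℂ) * ⟪psi X 1 ξ, ξ⟫_ℂ) =
        ‖T‖ ^ 2 * RCLike.re ⟪psi X 1 ξ, ξ⟫_ℂ := by
      rw [Complex.conj_ofReal]
      exact Complex.re_ofReal_mul _ _
    rw [e4] at e2
    have e5 : 0 ≤ ∑ d, ‖row X d C ξ‖ ^ 2 := Finset.sum_nonneg fun d _ => sq_nonneg _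
    have e6 : ‖T‖ ^ 2 * RCLike.re ⟪psi X 1 ξ, ξ⟫_ℂ ≤ ‖T‖ ^ 2 * ‖ξ‖ ^ 2 := by
      gcongr
      exact hX ξ
    rw [mul_pow]
    linarith
  refine ContinuousLinearMap.opNorm_le_bound _ (norm_nonneg _) fun x => ?_
  set S := psi X T with hS
  have h3 : ‖S x‖ ^ 2 ≤ ‖T‖ * (‖S x‖ * ‖x‖) := by
    have e1 : ⟪S x, S x⟫_ℂ = ∑ d, ⟪row X d 1 (S x), row X d T x⟫_ℂ := by
      have e0 : S = ∑ d, star (row X d 1) * row X d T := by
        rw [← psi_star_mul, star_one, one_mul]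
      conv_lhs =>
        rhs
        rw [e0, sum_apply]
      rw [inner_sum]
      refine Finset.sum_congr rfl fun i _ => ?_
      rw [mul_app, ContinuousLinearMap.star_eq_adjoint,
        ContinuousLinearMap.adjoint_inner_right]
    have e2 : ‖S x‖ ^ 2 = ‖⟪S x, S x⟫_ℂ‖ := by
      rw [inner_self_eq_norm_sq_to_K]
      simp
    rw [e2, e1]
    calc ‖∑ d, ⟪row X d 1 (S x), row X d T x⟫_ℂ‖ ≤ ∑ d, ‖⟪row X d 1 (S x), row X d T x⟫_ℂ‖ :=
          norm_sum_le _ _
      _ ≤ ∑ d, ‖row X d 1 (S x)‖ * ‖row X d T x‖ :=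
          Finset.sum_le_sum fun i _ => norm_inner_le_norm _ _
      _ ≤ ‖T‖ * (‖S x‖ * ‖x‖) := by
          have h4 := Finset.sum_mul_sq_le_sq_mul_sq Finset.univ (fun d => ‖row X d 1 (S x)‖)
            (fun d => ‖row X d T x‖)
          have h5 : (∑ d, ‖row X d 1 (S x)‖ * ‖row X d T x‖) ^ 2 ≤
              (‖T‖ * (‖S x‖ * ‖x‖)) ^ 2 := by
            refine h4.trans ?_
            calc _ ≤ ‖S x‖ ^ 2 * (‖T‖ * ‖x‖) ^ 2 :=
                  mul_le_mul (h1 _) (h2 _) (Finset.sum_nonneg fun i _ => sq_nonneg _)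
                    (sq_nonneg _)
              _ = _ := by ring
          exact le_of_sq_le_sq h5 (by positivity)
  by_cases h0 : ‖S x‖ = 0
  · rw [h0]
    positivity
  · have h4 : 0 < ‖S x‖ := lt_of_le_of_ne (norm_nonneg _) (Ne.symm h0)
    have h5 : ‖S x‖ * ‖S x‖ ≤ ‖S x‖ * (‖T‖ * ‖x‖) := by nlinarith
    exact le_of_mul_le_mul_left h5 h4

end psi

/-! ### maps to the matrix algebra -/

section phi

variable {n : ℕ} (W : EuclideanSpace ℂ (Fin n) →L[ℂ] H)

/-- the compression -/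
noncomputable def phi : (H →L[ℂ] H) →ₗ[ℂ] Mat n where
  toFun x := ContinuousLinearMap.adjoint W ∘L x ∘L W
  map_add' x y := by
    ext1 ξ
    simp
  map_smul' c x := by
    ext1 ξ
    simp

lemma phi_apply (x : H →L[ℂ] H) : phi W x = ContinuousLinearMap.adjoint W ∘L x ∘L W := rfl

lemma phi_norm (hW : ‖W‖ ≤ 1) (x : H →L[ℂ] H) : ‖phi W x‖ ≤ ‖x‖ := by
  rw [phi_apply]
  have h1 : ‖ContinuousLinearMap.adjoint W‖ ≤ 1 := by
    rw [LinearIsometryEquiv.norm_map]
    exact hW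
  calc _ ≤ ‖ContinuousLinearMap.adjoint W‖ * ‖x ∘L W‖ := ContinuousLinearMap.opNorm_comp_le _ _
    _ ≤ ‖ContinuousLinearMap.adjoint W‖ * (‖x‖ * ‖W‖) := by
        gcongr
        exact ContinuousLinearMap.opNorm_comp_le _ _
    _ ≤ 1 * (‖x‖ * 1) := by gcongr
    _ = ‖x‖ := by ring

lemma phi_cp {k : ℕ} (a : Fin k → (H →L[ℂ] H)) (c : Fin k → Mat n) :
    (∑ i, ∑ j, star (c i) * phi W (star (a i) * a j) * c j).IsPositive := by
  have h1 : ∑ i, ∑ j, star (c i) * phi W (star (a i) * a j) * c j =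
      ContinuousLinearMap.adjoint (∑ i, a i ∘L W ∘L c i) ∘L (∑ j, a j ∘L W ∘L c j) := by
    apply ContinuousLinearMap.ext
    intro ξ
    refine ext_inner_left ℂ fun η => ?_
    rw [ContinuousLinearMap.comp_apply, ContinuousLinearMap.adjoint_inner_right]
    simp only [sum_apply, sum_inner, inner_sum]
    rw [Finset.sum_comm]
    refine Finset.sum_congr rfl fun j _ => Finset.sum_congr rfl fun i _ => ?_
    have e1 : (star (c i) * phi W (star (a i) * a j) * c j) ξ =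
        ContinuousLinearMap.adjoint (c i) (ContinuousLinearMap.adjoint W
          (ContinuousLinearMap.adjoint (a i) (a j (W (c j ξ))))) := rfl
    rw [e1, ContinuousLinearMap.adjoint_inner_right, ContinuousLinearMap.adjoint_inner_right,
      ContinuousLinearMap.adjoint_inner_right]
    rfl
  rw [h1]
  exact ContinuousLinearMap.isPositive_adjoint_comp_self _

end phi

namespace Dg

variable {V : Type u} {D : Dg V} {b : HilbertBasis Om ℂ H}

/-- the completely positive approximation property -/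
theorem nuclear (Fs : Set (H →L[ℂ] H)) (hF : Fs.Finite) (hFA : Fs ⊆ D.AA b) {ε : ℝ}
    (hε : 0 < ε) : ∃ (n : ℕ) (φ : (H →L[ℂ] H) →ₗ[ℂ] Mat n) (ψ : Mat n →ₗ[ℂ] (H →L[ℂ] H)),
      (∀ x, ‖φ x‖ ≤ ‖x‖) ∧
      (∀ (k : ℕ) (a : Fin k → (H →L[ℂ] H)) (c : Fin k → Mat n),
        (∑ i, ∑ j, star (c i) * φ (star (a i) * a j) * c j).IsPositive) ∧
      (∀ T, ψ T ∈ D.AA b) ∧ (∀ T, ‖ψ T‖ ≤ ‖T‖) ∧
      (∀ (k : ℕ) (a : Fin k → Mat n) (c : Fin k → (H →L[ℂ] H)),
        (∑ i, ∑ j, star (c i) * ψ (star (a i) * a j) * c j).IsPositive) ∧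
      ∀ x ∈ Fs, ‖ψ (φ x) - x‖ < ε := by
  classical
  -- the stage
  have hst : ∃ k, ∀ x ∈ Fs, ∃ y ∈ D.F b k, ‖x - y‖ < ε / 2 := by
    have h1 : ∀ x : H →L[ℂ] H, ∃ m, x ∈ Fs → ∃ y ∈ D.F b m, ‖x - y‖ < ε / 2 := by
      intro x
      by_cases hx : x ∈ Fs
      · obtain ⟨y, hy, hd⟩ := Metric.mem_closure_iff.1 (hFA hx) (ε / 2) (by positivity)
        obtain ⟨m, hm⟩ := Set.mem_iUnion.1 hy
        rw [dist_eq_norm] at hd
        exact ⟨m, fun _ => ⟨y, hm, hd⟩⟩
      · exact ⟨0, fun h => absurd h hx⟩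
    choose m hm using h1
    refine ⟨hF.toFinset.sup m, fun x hx => ?_⟩
    obtain ⟨y, hy, hd⟩ := hm x hx
    exact ⟨y, F_mono (Finset.le_sup (f := m) (hF.mem_toFinset.2 hx)) hy, hd⟩
  obtain ⟨k, hk⟩ := hst
  set n := (D.Pf k).card with hn
  let e : Fin n ≃ D.Pf k := (D.Pf k).equivFin.symm
  have heP : ∀ i, (e i).1 ∈ D.P k := fun i => mem_Pf.1 (e i).2
  -- representatives
  have hrep : ∀ v : V, ∃ w : Om, v ∈ D.vs k → w ∈ D.P k ∧ D.st w k = v := by
    intro v
    by_cases hv : v ∈ D.vs k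
    · obtain ⟨w, h1, h2⟩ := mem_vs.1 hv
      exact ⟨w, fun _ => ⟨h1, h2⟩⟩
    · exact ⟨0, fun h => absurd h hv⟩
  choose ρ hρ using hrep
  have hρ' : ∀ i, ρ (D.st (e i).1 k) ∈ D.P k ∧ D.st (ρ (D.st (e i).1 k)) k = D.st (e i).1 k :=
    fun i => hρ _ (mem_vs.2 ⟨_, heP i, rfl⟩)
  let X : Fin n → (H →L[ℂ] H) := fun i => D.E b k (ρ (D.st (e i).1 k)) (e i).1
  have hXX : ∀ i j, D.st (e i).1 k = D.st (e j).1 k →
      star (X i) * X j = D.E b k (e i).1 (e j).1 := by
    intro i j hij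
    change star (D.E b k _ _) * D.E b k _ _ = _
    rw [star_E, hij]
    refine E_mul (hρ' j).1.1 ?_
    rw [(hρ' j).2, hij]
  have hXX0 : ∀ i j, D.st (e i).1 k ≠ D.st (e j).1 k → star (X i) * X j = 0 := by
    intro i j hij
    change star (D.E b k _ _) * D.E b k _ _ = _
    rw [star_E]
    apply E_mul_zero
    intro h1
    apply hij
    have h2 := eq_of_P (hρ' i).1 (hρ' j).1 h1
    rw [← (hρ' i).2, ← (hρ' j).2, h2]
  -- the isometry
  let W0 : EuclideanSpace ℂ (Fin n) →ₗ[ℂ] H := (uv n).toBasis.constr ℂ fun i => b (e i).1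
  have hW0 : ∀ i, W0 (uv n i) = b (e i).1 := by
    intro i
    have := (uv n).toBasis.constr_basis ℂ (fun i => b (e i).1) i
    rwa [OrthonormalBasis.coe_toBasis] at this
  have hinj : Function.Injective fun i : Fin n => (e i).1 := fun i j h => e.injective (Subtype.ext h)
  have horth : Orthonormal ℂ (W0 ∘ (uv n).toBasis) := by
    have h1 : W0 ∘ (uv n).toBasis = b ∘ fun i => (e i).1 := by
      funext i
      rw [Function.comp_apply, Function.comp_apply, OrthonormalBasis.coe_toBasis]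
      exact hW0 i
    rw [h1]
    exact b.orthonormal.comp _ hinj
  have horth0 : Orthonormal ℂ ((uv n).toBasis) := by
    rw [OrthonormalBasis.coe_toBasis]
    exact (uv n).orthonormal
  let W1 : EuclideanSpace ℂ (Fin n) →ₗᵢ[ℂ] H := W0.isometryOfOrthonormal horth0 horth
  let W : EuclideanSpace ℂ (Fin n) →L[ℂ] H := W1.toContinuousLinearMap
  have hW : ∀ i, W (uv n i) = b (e i).1 := hW0
  have hWn : ‖W‖ ≤ 1 := W1.norm_toContinuousLinearMap_le
  have hpsi1 : psi X 1 = D.I1 b := by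
    rw [psi_one, ← sum_E (D := D) (b := b) k, ← Finset.sum_coe_sort (D.Pf k)]
    refine Fintype.sum_equiv e _ _ fun i => ?_
    exact hXX i i rfl
  have hX1 : ∀ ξ : H, RCLike.re ⟪psi X 1 ξ, ξ⟫_ℂ ≤ ‖ξ‖ ^ 2 := by
    intro ξ
    rw [hpsi1, I1_pj.normsq]
    have := (I1_pj (D := D) (b := b)).norm_le ξ
    gcongr
  have hfix : ∀ y ∈ D.F b k, psi X (phi W y) = y := by
    intro y hy
    conv_rhs => rw [F_sum k hy]
    rw [psi_apply, Finset.sum_comm]
    rw [← Finset.sum_coe_sort (D.Pf k) (fun a => ∑ c ∈ D.Pf k, ⟪b c, y (b a)⟫_ℂ • D.E b k c a)]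
    refine Fintype.sum_equiv e _ _ fun j => ?_
    rw [← Finset.sum_coe_sort (D.Pf k) (fun c => ⟪b c, y (b (e j).1)⟫_ℂ • D.E b k c (e j).1)]
    refine Fintype.sum_equiv e _ _ fun i => ?_
    have h1 : ⟪uv n i, phi W y (uv n j)⟫_ℂ = ⟪b (e i).1, y (b (e j).1)⟫_ℂ := by
      rw [phi_apply, ContinuousLinearMap.comp_apply, ContinuousLinearMap.comp_apply,
        ContinuousLinearMap.adjoint_inner_right, hW, hW]
    rw [h1]
    by_cases h2 : D.st (e i).1 k = D.st (e j).1 k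
    · rw [hXX i j h2]
    · have h3 : ⟪b (e i).1, y (b (e j).1)⟫_ℂ = 0 := mc_zero hy (heP j).1 fun h4 => h2 h4.1
      rw [h3, zero_smul, zero_smul]
  refine ⟨n, phi W, psi X, phi_norm W hWn, fun k a c => phi_cp W a c, ?_, psi_norm X hX1,
    fun k a c => psi_cp X a c, ?_⟩
  · intro T
    rw [psi_apply]
    exact sum_mem fun i _ => sum_mem fun j _ => SMulMemClass.smul_mem _
      (mul_mem (star_mem (E_mem_AA _ _ _)) (E_mem_AA _ _ _))
  · intro x hx
    obtain ⟨y, hy, hd⟩ := hk x hx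
    have h1 : psi X (phi W x) - x = psi X (phi W (x - y)) - (x - y) := by
      rw [map_sub, map_sub, hfix y hy]
      abel
    rw [h1]
    calc _ ≤ ‖psi X (phi W (x - y))‖ + ‖x - y‖ := norm_sub_le _ _
      _ ≤ ‖x - y‖ + ‖x - y‖ := by
          gcongr
          exact (psi_norm X hX1 _).trans (phi_norm W hWn _)
      _ < ε := by linarith

end Dg

end Pool.Agent.L7h66.SA
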