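import Pool.Agent.L7h66.SA.Emb
import Pool.Agent.L7h66.SA.Extn

/-!
# Representations of a diagram give embeddings of its algebra
-/

set_option autoImplicit false
set_option linter.unusedSectionVars false

open scoped InnerProductSpace

namespace Pool.Agent.L7h66.SA

open Pool.Agent.TH723.AF (op_ext vec_ext op_of_some op_of_none op norm_b inner_op_symm inner_b)

universe u v w

/-- injective *-homomorphisms on closed subalgebras are isometric -/
lemma norm_of_inj {A : Type v} {B : Type w} [CStarAlgebra A] [CStarAlgebra B]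
    (S : NonUnitalStarSubalgebra ℂ A) (hS : IsClosed (S : Set A)) (f : A → B)
    (h_add : ∀ x ∈ S, ∀ y ∈ S, f (x + y) = f x + f y)
    (h_smul : ∀ (c : ℂ), ∀ x ∈ S, f (c • x) = c • f x)
    (h_mul : ∀ x ∈ S, ∀ y ∈ S, f (x * y) = f x * f y)
    (h_star : ∀ x ∈ S, f (star x) = star (f x)) (h_inj : ∀ x ∈ S, f x = 0 → x = 0) :
    ∀ x ∈ S, ‖f x‖ = ‖x‖ := by
  intro x hx
  let ψ : S →⋆ₙₐ[ℂ] B :=
    { toFun := fun x => f x
      map_smul' := fun z x => h_smul z x x.2
      map_zero' := by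
        have := h_smul 0 0 (zero_mem S)
        rw [zero_smul, zero_smul] at this
        exact this
      map_add' := fun x y => h_add x x.2 y y.2
      map_mul' := fun x y => h_mul x x.2 y y.2
      map_star' := fun x => h_star x x.2 }
  have hinj : Function.Injective ψ := by
    intro x y hxy
    have h2 : ψ (x - y) = 0 := by rw [map_sub, hxy, sub_self]
    exact Subtype.ext (sub_eq_zero.1 (h_inj (x.1 - y.1) (sub_mem x.2 y.2) h2))
  exact NonUnitalStarAlgHom.norm_map ψ hinj ⟨x, hx⟩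

namespace Dg

variable {V : Type u} (D : Dg V)

lemma st_mem_vs {D : Dg V} {a : Om} (ha : D.Val a) (n : ℕ) : D.st a n ∈ D.vs n :=
  mem_vs.2 ⟨tr n a, tr_mem_P ha n, tr_at _ _ _⟩

section rep

variable {B : Type w} [CStarAlgebra B]

/-- representations of a diagram -/
structure Rp (q : ℕ → V → B) (t : ℕ → V → ℕ → B) : Prop where
  qt : ∀ n, ∀ v ∈ D.vs n, ∀ i < D.od n v, star (t n v i) * t n v i = q (n + 1) (D.nx n v i)
  ort : ∀ n, ∀ v ∈ D.vs n, ∀ i < D.od n v, ∀ j < D.od n v, i ≠ j → star (t n v i) * t n v j = 0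
  sum : ∀ n, ∀ v ∈ D.vs n, ∑ i ∈ Finset.range (D.od n v), t n v i * star (t n v i) = q n v
  tq : ∀ n, ∀ v ∈ D.vs n, ∀ i < D.od n v, t n v i * q (n + 1) (D.nx n v i) = t n v i
  ne : ∀ n, ∀ v ∈ D.vs n, q n v ≠ 0

variable {D} {q : ℕ → V → B} {t : ℕ → V → ℕ → B} (h : D.Rp q t)

include h

lemma Rp.qs {n : ℕ} {v : V} (hv : v ∈ D.vs n) : star (q n v) = q n v := by
  rw [← h.sum n v hv, star_sum]
  refine Finset.sum_congr rfl fun i _ => ?_
  rw [star_mul, star_star]

lemma Rp.q_t {n : ℕ} {v : V} (hv : v ∈ D.vs n) {i : ℕ} (hi : i < D.od n v) :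
    q n v * t n v i = t n v i := by
  rw [← h.sum n v hv, Finset.sum_mul, Finset.sum_eq_single_of_mem i (Finset.mem_range.2 hi)]
  · rw [mul_assoc, h.qt n v hv i hi, h.tq n v hv i hi]
  · intro j hj hji
    rw [mul_assoc, h.ort n v hv j (Finset.mem_range.1 hj) i hi hji, mul_zero]

lemma Rp.qq {n : ℕ} {v : V} (hv : v ∈ D.vs n) : q n v * q n v = q n v := by
  have h1 : ∀ i ∈ Finset.range (D.od n v), q n v * (t n v i * star (t n v i)) =
      t n v i * star (t n v i) := by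
    intro i hi
    rw [← mul_assoc, h.q_t hv (Finset.mem_range.1 hi)]
  have e : q n v * ∑ i ∈ Finset.range (D.od n v), t n v i * star (t n v i) =
      ∑ i ∈ Finset.range (D.od n v), t n v i * star (t n v i) := by
    rw [Finset.mul_sum]
    exact Finset.sum_congr rfl h1
  rw [h.sum n v hv] at e
  exact e

omit h in
variable (D q t) in
/-- the products along the paths -/
def Tt (a : ℕ → ℕ) : ℕ → B
  | 0 => q 0 D.r
  | n + 1 => Tt a n * t n (D.st a n) (a n)

omit h in
lemma Tt_congr {a c : ℕ → ℕ} {n : ℕ} (hac : ∀ m < n, a m = c m) :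
    D.Tt q t a n = D.Tt q t c n := by
  induction n with
  | zero => rfl
  | succ n ih =>
    rw [Tt, Tt, ih (fun m hm => hac m (by omega)), hac n (by omega),
      st_congr (D := D) (k := n) (fun m hm => hac m (by omega)) le_rfl]

lemma Rp.T_q {a : Om} (ha : D.Val a) (n : ℕ) :
    D.Tt q t a n * q n (D.st a n) = D.Tt q t a n := by
  rcases n with _ | n
  · exact h.qq (st_mem_vs ha 0)
  · rw [Tt, mul_assoc, D.st_succ, h.tq n _ (st_mem_vs ha n) _ (ha n)]

lemma Rp.T_T {a : Om} (ha : D.Val a) (n : ℕ) :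
    star (D.Tt q t a n) * D.Tt q t a n = q n (D.st a n) := by
  induction n with
  | zero =>
    have h0 : D.r ∈ D.vs 0 := st_mem_vs ha 0
    change star (q 0 D.r) * q 0 D.r = q 0 D.r
    rw [h.qs h0]
    exact h.qq h0
  | succ n ih =>
    rw [Tt, star_mul, mul_assoc, ← mul_assoc (star (D.Tt q t a n)), ih,
      h.q_t (st_mem_vs ha n) (ha n), h.qt n _ (st_mem_vs ha n) _ (ha n), D.st_succ]

lemma Rp.T_T_zero {a c : Om} (ha : D.Val a) (hc : D.Val c) {n : ℕ} (hac : ¬ Hd n a c) :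
    star (D.Tt q t a n) * D.Tt q t c n = 0 := by
  induction n with
  | zero => exact absurd (fun m hm => absurd hm (Nat.not_lt_zero m)) hac
  | succ n ih =>
    rw [Tt, Tt, star_mul, mul_assoc, ← mul_assoc (star (D.Tt q t a n))]
    by_cases h1 : Hd n a c
    · have h2 : a n ≠ c n := by
        intro h2
        apply hac
        intro m hm
        rcases Nat.lt_succ_iff_lt_or_eq.1 hm with h3 | h3
        · exact h1 m h3
        · subst h3
          exact h2
      have h3 : D.st c n = D.st a n := h1.symm.at_eq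
      rw [Tt_congr (D := D) (q := q) (t := t) (a := c) (c := a) (n := n) h1.symm, h3,
        h.T_T ha, h.q_t (st_mem_vs ha n) (by rw [← h3]; exact hc n),
        h.ort n _ (st_mem_vs ha n) _ (ha n) _ (by rw [← h3]; exact hc n) h2]
    · rw [ih h1, zero_mul, mul_zero]

lemma Rp.T_ext {n : ℕ} {a c : Om} (ha : D.Val a) (hc : D.Val c) (hac : D.st c n = D.st a n) :
    D.Tt q t c n * star (D.Tt q t a n) = ∑ i ∈ Finset.range (D.od n (D.st a n)),
      D.Tt q t (ext n c i) (n + 1) * star (D.Tt q t (ext n a i) (n + 1)) := by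
  have h1 : ∀ i ∈ Finset.range (D.od n (D.st a n)),
      D.Tt q t (ext n c i) (n + 1) * star (D.Tt q t (ext n a i) (n + 1)) =
      D.Tt q t c n * (t n (D.st a n) i * star (t n (D.st a n) i)) * star (D.Tt q t a n) := by
    intro i _
    rw [Tt, Tt, star_mul, Tt_congr (D := D) (q := q) (t := t) (ext_hd n c i),
      Tt_congr (D := D) (q := q) (t := t) (ext_hd n a i), (ext_hd n c i).at_eq,
      (ext_hd n a i).at_eq, ext_self, ext_self, hac]
    simp only [mul_assoc]
  rw [Finset.sum_congr rfl h1, ← Finset.sum_mul, ← Finset.mul_sum,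
    h.sum n _ (st_mem_vs ha n), ← hac, h.T_q hc]

end rep

/-! ### coefficients -/

section coef

variable {H : Type v} [NormedAddCommGroup H] [InnerProductSpace ℂ H] [CompleteSpace H]
  {b : HilbertBasis Om ℂ H} {D}

lemma coef_out {n : ℕ} {y : H →L[ℂ] H} (hy : y ∈ D.F b n) {a w : Om} (ha : a ∈ D.P n)
    (hw : w ∉ D.P n) : ⟪b w, y (b a)⟫_ℂ = 0 := by
  by_cases vw : D.Val w
  · apply mc_zero hy ha.1
    intro h1
    exact hw ⟨vw, fun m hm => by rw [h1.2 m hm, ha.2 m hm]⟩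
  · exact mc_left hy vw _

lemma coef_vec {n : ℕ} {y : H →L[ℂ] H} (hy : y ∈ D.F b n) {a : Om} (ha : a ∈ D.P n) :
    y (b a) = ∑ d ∈ D.Pf n, ⟪b d, y (b a)⟫_ℂ • b d := by
  classical
  apply vec_ext b
  intro w
  rw [inner_sum]
  by_cases hw : w ∈ D.P n
  · rw [Finset.sum_eq_single_of_mem w (mem_Pf.2 hw)]
    · rw [inner_smul_right, inner_b, if_pos rfl, mul_one]
    · intro d _ hd
      rw [inner_smul_right, inner_b, if_neg (Ne.symm hd), mul_zero]
  · rw [coef_out hy ha hw]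
    symm
    refine Finset.sum_eq_zero fun d hd => ?_
    rw [inner_smul_right, inner_b, if_neg, mul_zero]
    rintro rfl
    exact hw (mem_Pf.1 hd)

lemma coef_mul {n : ℕ} {x y : H →L[ℂ] H} (hy : y ∈ D.F b n) {a : Om}
    (ha : a ∈ D.P n) (c : Om) :
    ⟪b c, (x * y) (b a)⟫_ℂ = ∑ d ∈ D.Pf n, ⟪b c, x (b d)⟫_ℂ * ⟪b d, y (b a)⟫_ℂ := by
  rw [mul_app]
  conv_lhs => rw [coef_vec hy ha]
  rw [map_sum, inner_sum]
  refine Finset.sum_congr rfl fun d _ => ?_
  rw [map_smul, inner_smul_right, mul_comm]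

lemma coef_succ {n : ℕ} {x : H →L[ℂ] H} (hx : x ∈ D.F b n) {a c : Om} (ha : a ∈ D.P n)
    (hc : c ∈ D.P n) {i j : ℕ} (hi : i < D.od n (D.st a n)) (hj : j < D.od n (D.st c n)) :
    ⟪b (ext n c j), x (b (ext n a i))⟫_ℂ = if i = j then ⟪b c, x (b a)⟫_ℂ else 0 := by
  have va := (ext_mem_P ha hi).1
  have vc := (ext_mem_P hc hj).1
  by_cases h1 : D.Tl n (ext n c j) (ext n a i)
  · have h2 := h1.2 n le_rfl
    rw [ext_self, ext_self] at h2
    rw [if_pos h2.symm, mc hx va vc h1, tr_ext _ ha.2, tr_ext _ hc.2]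
  · rw [mc_zero hx va h1]
    split_ifs with h2
    · subst h2
      symm
      apply mc_zero hx ha.1
      intro h3
      apply h1
      refine ⟨?_, fun m hm => ?_⟩
      · rw [(ext_hd n c i).at_eq, (ext_hd n a i).at_eq]
        exact h3.1
      · rcases eq_or_lt_of_le hm with h4 | h4
        · subst h4
          rw [ext_self, ext_self]
        · rw [ext_zero _ _ h4, ext_zero _ _ h4]
    · rfl

variable {B : Type w} [CStarAlgebra B]

variable (D b) in
/-- the homomorphism at stage `n` -/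
noncomputable def Psi (q : ℕ → V → B) (t : ℕ → V → ℕ → B) (n : ℕ) (x : H →L[ℂ] H) : B :=
  ∑ a ∈ D.Pf n, ∑ c ∈ D.Pf n, ⟪b c, x (b a)⟫_ℂ • (D.Tt q t c n * star (D.Tt q t a n))

variable {q : ℕ → V → B} {t : ℕ → V → ℕ → B}

lemma Psi_add (n : ℕ) (x y : H →L[ℂ] H) :
    D.Psi b q t n (x + y) = D.Psi b q t n x + D.Psi b q t n y := by
  unfold Psi
  rw [← Finset.sum_add_distrib]
  refine Finset.sum_congr rfl fun a _ => ?_
  rw [← Finset.sum_add_distrib]
  refine Finset.sum_congr rfl fun c _ => ?_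
  rw [add_apply, inner_add_right, add_smul]

lemma Psi_smul (n : ℕ) (z : ℂ) (x : H →L[ℂ] H) :
    D.Psi b q t n (z • x) = z • D.Psi b q t n x := by
  unfold Psi
  rw [Finset.smul_sum]
  refine Finset.sum_congr rfl fun a _ => ?_
  rw [Finset.smul_sum]
  refine Finset.sum_congr rfl fun c _ => ?_
  rw [smul_apply, inner_smul_right, mul_smul]

lemma Psi_star (n : ℕ) (x : H →L[ℂ] H) :
    D.Psi b q t n (star x) = star (D.Psi b q t n x) := by
  unfold Psi
  rw [star_sum, Finset.sum_comm]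
  refine Finset.sum_congr rfl fun a _ => ?_
  rw [star_sum]
  refine Finset.sum_congr rfl fun c _ => ?_
  rw [star_smul, star_mul, star_star, ContinuousLinearMap.star_eq_adjoint,
    ContinuousLinearMap.adjoint_inner_right, ← inner_conj_symm]
  rfl

variable (h : D.Rp q t)

include h

lemma Psi_succ {n : ℕ} {x : H →L[ℂ] H} (hx : x ∈ D.F b n) :
    D.Psi b q t (n + 1) x = D.Psi b q t n x := by
  unfold Psi
  rw [sum_Pf_succ]
  refine Finset.sum_congr rfl fun a ha => ?_
  have h0 : ∀ i ∈ Finset.range (D.od n (D.st a n)),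
      ∑ c ∈ D.Pf (n + 1), ⟪b c, x (b (ext n a i))⟫_ℂ •
        (D.Tt q t c (n + 1) * star (D.Tt q t (ext n a i) (n + 1))) =
      ∑ c ∈ D.Pf n, ∑ j ∈ Finset.range (D.od n (D.st c n)),
        ⟪b (ext n c j), x (b (ext n a i))⟫_ℂ •
        (D.Tt q t (ext n c j) (n + 1) * star (D.Tt q t (ext n a i) (n + 1))) :=
    fun i _ => sum_Pf_succ n _
  rw [Finset.sum_congr rfl h0, Finset.sum_comm]
  refine Finset.sum_congr rfl fun c hc => ?_
  by_cases h1 : D.st c n = D.st a n
  · rw [h.T_ext (mem_Pf.1 ha).1 (mem_Pf.1 hc).1 h1, Finset.smul_sum]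
    refine Finset.sum_congr rfl fun i hi => ?_
    have hi' := Finset.mem_range.1 hi
    rw [Finset.sum_eq_single i]
    · rw [coef_succ hx (mem_Pf.1 ha) (mem_Pf.1 hc) hi' (by rw [h1]; exact hi'), if_pos rfl]
    · intro j hj hji
      rw [coef_succ hx (mem_Pf.1 ha) (mem_Pf.1 hc) hi' (Finset.mem_range.1 hj),
        if_neg (Ne.symm hji), zero_smul]
    · intro hi2
      rw [h1] at hi2
      exact absurd hi hi2
  · have h2 : ⟪b c, x (b a)⟫_ℂ = 0 := mc_zero hx (mem_Pf.1 ha).1 fun h3 => h1 h3.1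
    rw [h2, zero_smul]
    refine Finset.sum_eq_zero fun i hi => Finset.sum_eq_zero fun j hj => ?_
    rw [coef_succ hx (mem_Pf.1 ha) (mem_Pf.1 hc) (Finset.mem_range.1 hi)
      (Finset.mem_range.1 hj), h2]
    simp

lemma Psi_mono {n : ℕ} {x : H →L[ℂ] H} (hx : x ∈ D.F b n) {m : ℕ} (hm : n ≤ m) :
    D.Psi b q t m x = D.Psi b q t n x := by
  induction m, hm using Nat.le_induction with
  | base => rfl
  | succ m hm ih => rw [Psi_succ h (F_mono hm hx), ih]

lemma Psi_mul {n : ℕ} {x y : H →L[ℂ] H} (hx : x ∈ D.F b n) (hy : y ∈ D.F b n) :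
    D.Psi b q t n (x * y) = D.Psi b q t n x * D.Psi b q t n y := by
  have e1 : ∀ a ∈ D.Pf n, ∀ c ∈ D.Pf n, ∀ d ∈ D.Pf n,
      D.Psi b q t n x * (⟪b d, y (b a)⟫_ℂ • (D.Tt q t d n * star (D.Tt q t a n))) =
      ∑ c ∈ D.Pf n, (⟪b c, x (b d)⟫_ℂ * ⟪b d, y (b a)⟫_ℂ) •
        (D.Tt q t c n * star (D.Tt q t a n)) := by
    intro a _ _ _ d hd
    unfold Psi
    rw [Finset.sum_mul, Finset.sum_eq_single_of_mem d hd]
    · rw [Finset.sum_mul]
      refine Finset.sum_congr rfl fun c hc => ?_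
      by_cases h1 : D.st c n = D.st d n
      · rw [smul_mul_smul_comm]
        congr 1
        calc D.Tt q t c n * star (D.Tt q t d n) * (D.Tt q t d n * star (D.Tt q t a n))
            = D.Tt q t c n * (star (D.Tt q t d n) * D.Tt q t d n) * star (D.Tt q t a n) := by
              simp only [mul_assoc]
          _ = D.Tt q t c n * star (D.Tt q t a n) := by
              rw [h.T_T (mem_Pf.1 hd).1, ← h1, h.T_q (mem_Pf.1 hc).1]
      · have h2 : ⟪b c, x (b d)⟫_ℂ = 0 := mc_zero hx (mem_Pf.1 hd).1 fun h3 => h1 h3.1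
        rw [h2, zero_smul, zero_mul, zero_mul, zero_smul]
    · intro d' hd' hne
      rw [Finset.sum_mul]
      refine Finset.sum_eq_zero fun c _ => ?_
      rw [smul_mul_smul_comm]
      have h1 : D.Tt q t c n * star (D.Tt q t d' n) * (D.Tt q t d n * star (D.Tt q t a n)) = 0 := by
        calc _ = D.Tt q t c n * (star (D.Tt q t d' n) * D.Tt q t d n) * star (D.Tt q t a n) := by
              simp only [mul_assoc]
          _ = 0 := by
              rw [h.T_T_zero (mem_Pf.1 hd').1 (mem_Pf.1 hd).1, mul_zero, zero_mul]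
              intro h3
              exact hne (eq_of_P (mem_Pf.1 hd') (mem_Pf.1 hd) h3)
      rw [h1, smul_zero]
  have e2 : D.Psi b q t n x * D.Psi b q t n y = ∑ a ∈ D.Pf n, ∑ d ∈ D.Pf n,
      ∑ c ∈ D.Pf n, (⟪b c, x (b d)⟫_ℂ * ⟪b d, y (b a)⟫_ℂ) •
        (D.Tt q t c n * star (D.Tt q t a n)) := by
    conv_lhs =>
      rhs
      unfold Psi
    rw [Finset.mul_sum]
    refine Finset.sum_congr rfl fun a ha => ?_
    rw [Finset.mul_sum]
    refine Finset.sum_congr rfl fun d hd => ?_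
    exact e1 a ha d hd d hd
  rw [e2]
  conv_lhs => unfold Psi
  refine Finset.sum_congr rfl fun a ha => ?_
  rw [Finset.sum_comm]
  refine Finset.sum_congr rfl fun c _ => ?_
  rw [coef_mul hy (mem_Pf.1 ha), Finset.sum_smul]

lemma Psi_coef {n : ℕ} (x : H →L[ℂ] H) {a c : Om} (ha : a ∈ D.P n) (hc : c ∈ D.P n) :
    star (D.Tt q t c n) * D.Psi b q t n x * D.Tt q t a n =
      ⟪b c, x (b a)⟫_ℂ • (q n (D.st c n) * q n (D.st a n)) := by
  unfold Psi
  rw [Finset.mul_sum, Finset.sum_mul, Finset.sum_eq_single_of_mem a (mem_Pf.2 ha)]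
  · rw [Finset.mul_sum, Finset.sum_mul, Finset.sum_eq_single_of_mem c (mem_Pf.2 hc)]
    · rw [mul_smul_comm, smul_mul_assoc]
      congr 1
      rw [← mul_assoc, h.T_T hc.1, mul_assoc, h.T_T ha.1]
    · intro c' hc' hne
      rw [mul_smul_comm, smul_mul_assoc, ← mul_assoc, h.T_T_zero hc.1 (mem_Pf.1 hc').1, zero_mul,
        zero_mul, smul_zero]
      intro h3
      exact hne (eq_of_P (mem_Pf.1 hc') hc h3.symm)
  · intro a' ha' hne
    rw [Finset.mul_sum, Finset.sum_mul]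
    refine Finset.sum_eq_zero fun c' _ => ?_
    rw [mul_smul_comm, smul_mul_assoc, mul_assoc, mul_assoc, h.T_T_zero (mem_Pf.1 ha').1 ha.1,
      mul_zero, mul_zero, smul_zero]
    intro h3
    exact hne (eq_of_P (mem_Pf.1 ha') ha h3)

lemma Psi_inj {n : ℕ} {x : H →L[ℂ] H} (hx : x ∈ D.F b n) (h0 : D.Psi b q t n x = 0) : x = 0 := by
  apply F_ext hx (zero_mem _)
  intro a ha c hc
  rw [zero_apply, inner_zero_right]
  by_cases h1 : D.st c n = D.st a n
  · have h2 := Psi_coef (b := b) h x ha hc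
    rw [h0, mul_zero, zero_mul, h1, h.qq (st_mem_vs ha.1 n)] at h2
    rcases smul_eq_zero.1 h2.symm with h3 | h3
    · exact h3
    · exact absurd h3 (h.ne n _ (st_mem_vs ha.1 n))
  · exact mc_zero hx ha.1 fun h3 => h1 h3.1

/-- the homomorphism is isometric on each stage -/
lemma Psi_norm {n : ℕ} {x : H →L[ℂ] H} (hx : x ∈ D.F b n) : ‖D.Psi b q t n x‖ = ‖x‖ := by
  exact norm_of_inj (D.F b n) (F_closed n) (D.Psi b q t n) (fun x _ y _ => Psi_add n x y)
    (fun c x _ => Psi_smul n c x) (fun x hx y hy => Psi_mul h hx hy) (fun x _ => Psi_star n x)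
    (fun x hx h0 => Psi_inj h hx h0) x hx

end coef

/-- representations of a diagram give embeddings of its algebra -/
theorem exists_embedding {H : Type v} [NormedAddCommGroup H] [InnerProductSpace ℂ H]
    [CompleteSpace H] {b : HilbertBasis Om ℂ H} {D : Dg V}
    {q : ℕ → V → (H →L[ℂ] H)} {t : ℕ → V → ℕ → (H →L[ℂ] H)} (h : D.Rp q t)
    (A' : NonUnitalStarSubalgebra ℂ (H →L[ℂ] H)) (hA' : IsClosed (A' : Set (H →L[ℂ] H)))
    (hq : q 0 D.r ∈ A') (ht : ∀ n, ∀ v ∈ D.vs n, ∀ i < D.od n v, t n v i ∈ A') :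
    ∃ φ : D.AA b →⋆ₙₐ[ℂ] A', Function.Injective φ := by
  classical
  have hT : ∀ (a : Om), D.Val a → ∀ n, D.Tt q t a n ∈ A' := by
    intro a ha n
    induction n with
    | zero => exact hq
    | succ n ih => exact mul_mem ih (ht n _ (st_mem_vs ha n) _ (ha n))
  have hex : ∀ x : H →L[ℂ] H, ∃ n, x ∈ D.A0 b → x ∈ D.F b n := by
    intro x
    by_cases hx : x ∈ D.A0 b
    · obtain ⟨n, hn⟩ := Set.mem_iUnion.1 hx
      exact ⟨n, fun _ => hn⟩
    · exact ⟨0, fun h => absurd h hx⟩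
  choose N hN using hex
  let ψ : (H →L[ℂ] H) → (H →L[ℂ] H) := fun x => D.Psi b q t (N x) x
  have hψ : ∀ n x, x ∈ D.F b n → ψ x = D.Psi b q t n x := by
    intro n x hx
    have h1 : x ∈ D.A0 b := Set.mem_iUnion.2 ⟨n, hx⟩
    have h2 := Psi_mono h (hN x h1) (le_max_left (N x) n)
    have h3 := Psi_mono h hx (le_max_right (N x) n)
    change D.Psi b q t (N x) x = _
    rw [← h2, h3]
  have hstage : ∀ x ∈ D.A0 b, ∀ y ∈ D.A0 b, ∃ n, x ∈ D.F b n ∧ y ∈ D.F b n := by
    intro x hx y hy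
    exact ⟨max (N x) (N y), F_mono (le_max_left _ _) (hN x hx),
      F_mono (le_max_right _ _) (hN y hy)⟩
  refine exists_ext (D.A0 b) A' hA' ψ ?_ ?_ ?_ ?_ ?_ ?_
  · intro x hx y hy
    obtain ⟨n, h1, h2⟩ := hstage x hx y hy
    rw [hψ n x h1, hψ n y h2, hψ n _ (add_mem h1 h2), Psi_add]
  · intro c x hx
    rw [hψ _ x (hN x hx), hψ _ (c • x) (SMulMemClass.smul_mem c (hN x hx)), Psi_smul]
  · intro x hx y hy
    obtain ⟨n, h1, h2⟩ := hstage x hx y hy
    rw [hψ n x h1, hψ n y h2, hψ n _ (mul_mem h1 h2), Psi_mul h h1 h2]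
  · intro x hx
    rw [hψ _ x (hN x hx), hψ _ (star x) (star_mem (hN x hx)), Psi_star]
  · intro x hx
    refine sum_mem fun a ha => sum_mem fun c hc => SMulMemClass.smul_mem _ (mul_mem ?_ ?_)
    · exact hT c (mem_Pf.1 hc).1 _
    · exact star_mem (hT a (mem_Pf.1 ha).1 _)
  · intro x hx
    rw [hψ _ x (hN x hx)]
    exact Psi_norm h (hN x hx)

end Dg

end Pool.Agent.L7h66.SA
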