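import Pool.Agent.L7h66.SA.Emb

/-!
# Simplicity
-/

set_option autoImplicit false
set_option linter.unusedSectionVars false

open scoped InnerProductSpace

namespace Pool.Agent.L7h66.SA

open Pool.Agent.TH723.AF (op_ext vec_ext op_of_some op_of_none op norm_b inner_op_symm inner_b)

universe u v w

variable {H : Type v} [NormedAddCommGroup H] [InnerProductSpace ℂ H] [CompleteSpace H]

/-- the norm of a sum of conjugates -/
lemma norm_sum_conj {ι : Type*} (s : Finset ι) (v : ι → (H →L[ℂ] H)) (r : H →L[ℂ] H)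
    (hv : ∀ x, ∑ i ∈ s, ‖v i x‖ ^ 2 ≤ ‖x‖ ^ 2) : ‖∑ i ∈ s, star (v i) * r * v i‖ ≤ ‖r‖ := by
  set S := ∑ i ∈ s, star (v i) * r * v i with hS
  refine ContinuousLinearMap.opNorm_le_bound _ (norm_nonneg _) fun x => ?_
  have h1 : ‖S x‖ ^ 2 ≤ ‖r‖ * (‖S x‖ * ‖x‖) := by
    have e1 : ⟪S x, S x⟫_ℂ = ∑ i ∈ s, ⟪v i (S x), r (v i x)⟫_ℂ := by
      conv_lhs =>
        rhs
        rw [hS, sum_apply]
      rw [inner_sum]
      refine Finset.sum_congr rfl fun i _ => ?_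
      rw [mul_app, mul_app, ContinuousLinearMap.star_eq_adjoint,
        ContinuousLinearMap.adjoint_inner_right]
    have e2 : ‖S x‖ ^ 2 = ‖⟪S x, S x⟫_ℂ‖ := by
      rw [inner_self_eq_norm_sq_to_K]
      simp
    rw [e2, e1]
    calc ‖∑ i ∈ s, ⟪v i (S x), r (v i x)⟫_ℂ‖ ≤ ∑ i ∈ s, ‖⟪v i (S x), r (v i x)⟫_ℂ‖ :=
          norm_sum_le _ _
      _ ≤ ∑ i ∈ s, ‖r‖ * (‖v i (S x)‖ * ‖v i x‖) := by
          refine Finset.sum_le_sum fun i _ => ?_
          calc ‖⟪v i (S x), r (v i x)⟫_ℂ‖ ≤ ‖v i (S x)‖ * ‖r (v i x)‖ := norm_inner_le_norm _ _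
            _ ≤ ‖v i (S x)‖ * (‖r‖ * ‖v i x‖) := by gcongr; exact r.le_opNorm _
            _ = _ := by ring
      _ = ‖r‖ * ∑ i ∈ s, ‖v i (S x)‖ * ‖v i x‖ := by rw [Finset.mul_sum]
      _ ≤ ‖r‖ * (‖S x‖ * ‖x‖) := by
          gcongr
          have h2 := Finset.sum_mul_sq_le_sq_mul_sq s (fun i => ‖v i (S x)‖) (fun i => ‖v i x‖)
          have h3 : (∑ i ∈ s, ‖v i (S x)‖ * ‖v i x‖) ^ 2 ≤ (‖S x‖ * ‖x‖) ^ 2 := by
            refine h2.trans ?_
            rw [mul_pow]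
            exact mul_le_mul (hv _) (hv _) (Finset.sum_nonneg fun i _ => sq_nonneg _)
              (sq_nonneg _)
          exact le_of_sq_le_sq h3 (by positivity)
  by_cases h0 : ‖S x‖ = 0
  · rw [h0]
    positivity
  · have h2 : 0 < ‖S x‖ := lt_of_le_of_ne (norm_nonneg _) (Ne.symm h0)
    have h3 : ‖S x‖ * ‖S x‖ ≤ ‖S x‖ * (‖r‖ * ‖x‖) := by nlinarith
    exact le_of_mul_le_mul_left h3 h2

namespace Dg

variable {V : Type u} {D : Dg V} {b : HilbertBasis Om ℂ H}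

lemma AA_I1 {x : H →L[ℂ] H} (hx : x ∈ D.AA b) : D.I1 b * x = x ∧ x * D.I1 b = x := by
  have h : closure (D.FU b) ⊆ {x | D.I1 b * x = x ∧ x * D.I1 b = x} := by
    apply closure_minimal
    · intro y hy
      obtain ⟨n, hn⟩ := Set.mem_iUnion.1 hy
      exact hn.2
    · exact (isClosed_eq (continuous_const.mul continuous_id) continuous_id).inter
        (isClosed_eq (continuous_id.mul continuous_const) continuous_id)
  exact h hx

lemma I1_mem_AA : D.I1 b ∈ D.AA b := F_le_AA 0 (I1_mem 0)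

lemma I1_ne_zero : D.I1 b ≠ 0 := by
  intro h
  have h1 := I1_of_val (D := D) b D.val_zero
  rw [h, zero_apply] at h1
  have h2 := norm_b b (0 : Om)
  rw [← h1, norm_zero] at h2
  exact zero_ne_one h2

lemma compress {n : ℕ} {y : H →L[ℂ] H} (hy : y ∈ D.F b n) {w : Om} (hw : w ∈ D.P n) :
    D.E b n w w * y * D.E b n w w = ⟪b w, y (b w)⟫_ℂ • D.E b n w w := by
  conv_lhs =>
    rw [F_sum n hy]
  rw [Finset.mul_sum, Finset.sum_mul, Finset.sum_eq_single_of_mem w (mem_Pf.2 hw)]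
  · rw [Finset.mul_sum, Finset.sum_mul, Finset.sum_eq_single_of_mem w (mem_Pf.2 hw)]
    · rw [mul_smul_comm, smul_mul_assoc, E_mul hw.1 rfl, E_mul hw.1 rfl]
    · intro c hc hne
      rw [mul_smul_comm, smul_mul_assoc, E_mul_zero, zero_mul, smul_zero]
      intro h
      exact hne (eq_of_P hw (mem_Pf.1 hc) h).symm
  · intro a ha hne
    rw [Finset.mul_sum, Finset.sum_mul]
    refine Finset.sum_eq_zero fun c _ => ?_
    rw [mul_smul_comm, smul_mul_assoc, mul_assoc, E_mul_zero, mul_zero, smul_zero]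
    intro h
    exact hne (eq_of_P (mem_Pf.1 ha) hw h)

lemma E_norm_le {n : ℕ} {w : Om} (hw : D.Val w) : ‖D.E b n w w‖ ≤ 1 := (E_pj hw).norm_le_one

/-- simplicity -/
theorem simple (hmix : ∀ k, ∀ v ∈ D.vs k, ∀ v' ∈ D.vs (k + 1), ∃ i < D.od k v, D.nx k v i = v')
    {J : Set (H →L[ℂ] H)} (hJ : J ⊆ D.AA b) (hcl : IsClosed J)
    (hadd : ∀ x ∈ J, ∀ y ∈ J, x + y ∈ J) (h0 : (0 : H →L[ℂ] H) ∈ J)
    (hmul : ∀ x ∈ J, ∀ y ∈ D.AA b, x * y ∈ J ∧ y * x ∈ J) {a : H →L[ℂ] H} (ha : a ∈ J)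
    (ha0 : a ≠ 0) : J = D.AA b := by
  classical
  have hsum : ∀ {ι : Type} (s : Finset ι) (f : ι → (H →L[ℂ] H)), (∀ i ∈ s, f i ∈ J) →
      ∑ i ∈ s, f i ∈ J := by
    intro ι s f hf
    induction s using Finset.induction_on with
    | empty => rw [Finset.sum_empty]; exact h0
    | insert i s hi ih =>
      rw [Finset.sum_insert hi]
      exact hadd _ (hf i (Finset.mem_insert_self _ _)) _
        (ih fun j hj => hf j (Finset.mem_insert_of_mem hj))
  have haA := hJ ha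
  -- a vector
  obtain ⟨w, hw0⟩ : ∃ w, a (b w) ≠ 0 := by
    by_contra h
    push Not at h
    apply ha0
    apply op_ext b
    intro w
    rw [h w, zero_apply]
  have vw : D.Val w := by
    by_contra h
    apply hw0
    rw [← (AA_I1 haA).2, mul_app, I1_of_notVal b h, map_zero]
  set x : H →L[ℂ] H := star a * a with hx
  have hxJ : x ∈ J := (hmul a ha (star a) (star_mem haA)).2
  have hxA := hJ hxJ
  set α : ℝ := ‖a (b w)‖ ^ 2 with hα
  have hαpos : 0 < α := by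
    have := norm_pos_iff.2 hw0
    positivity
  have hxα : ⟪b w, x (b w)⟫_ℂ = (α : ℂ) := by
    rw [hx, mul_app, ContinuousLinearMap.star_eq_adjoint,
      ContinuousLinearMap.adjoint_inner_right, inner_self_eq_norm_sq_to_K]
    simp [hα]
  obtain ⟨y, hy, hd⟩ := Metric.mem_closure_iff.1 hxA (α / 8) (by positivity)
  obtain ⟨m, hm⟩ := Set.mem_iUnion.1 hy
  rw [dist_eq_norm] at hd
  obtain ⟨N, hN⟩ := exists_P vw
  set n := max m N with hn
  have hwP : w ∈ D.P n := hN n (le_max_right _ _)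
  have hyF : y ∈ D.F b n := F_mono (le_max_left _ _) hm
  set e := D.E b n w w with he
  have heA : e ∈ D.AA b := E_mem_AA _ _ _
  have hen : ‖e‖ ≤ 1 := E_norm_le vw
  set r := e * x * e - (α : ℂ) • e with hr
  have hrn : ‖r‖ ≤ α / 4 := by
    have e1 : r = e * (x - y) * e + (⟪b w, (y - x) (b w)⟫_ℂ) • e := by
      rw [hr, sub_apply, inner_sub_right, hxα, sub_smul, ← compress hyF hwP, mul_sub, sub_mul]
      abel
    rw [e1]
    have e2 : ‖e * (x - y) * e‖ ≤ α / 8 := by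
      calc ‖e * (x - y) * e‖ ≤ ‖e * (x - y)‖ * ‖e‖ := norm_mul_le _ _
        _ ≤ (‖e‖ * ‖x - y‖) * ‖e‖ := by gcongr; exact norm_mul_le _ _
        _ ≤ (1 * (α / 8)) * 1 := by gcongr
        _ = α / 8 := by ring
    have e3 : ‖(⟪b w, (y - x) (b w)⟫_ℂ) • e‖ ≤ α / 8 := by
      rw [norm_smul]
      calc ‖⟪b w, (y - x) (b w)⟫_ℂ‖ * ‖e‖ ≤ (‖b w‖ * ‖(y - x) (b w)‖) * 1 := by
            gcongr; exact norm_inner_le_norm _ _
        _ ≤ (‖b w‖ * (‖y - x‖ * ‖b w‖)) * 1 := by gcongr; exact (y - x).le_opNorm _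
        _ ≤ α / 8 := by
            rw [norm_b, norm_sub_rev]
            linarith
    calc _ ≤ ‖e * (x - y) * e‖ + ‖(⟪b w, (y - x) (b w)⟫_ℂ) • e‖ := norm_add_le _ _
      _ ≤ α / 8 + α / 8 := add_le_add e2 e3
      _ = α / 4 := by ring
  -- the partial isometries
  have hch : ∀ d : Om, ∃ i, d ∈ D.P (n + 1) → i < D.od n (D.st w n) ∧
      D.nx n (D.st w n) i = D.st d (n + 1) := by
    intro d
    by_cases hdP : d ∈ D.P (n + 1)
    · obtain ⟨i, h1, h2⟩ := hmix n _ (mem_vs.2 ⟨w, hwP, rfl⟩) _ (mem_vs.2 ⟨d, hdP, rfl⟩)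
      exact ⟨i, fun _ => ⟨h1, h2⟩⟩
    · exact ⟨0, fun h => absurd h hdP⟩
  choose ι hι using hch
  let v : Om → (H →L[ℂ] H) := fun d => D.E b (n + 1) (ext n w (ι d)) d
  have hvm : ∀ d, v d ∈ D.AA b := fun d => E_mem_AA _ _ _
  have hst : ∀ d ∈ D.P (n + 1), D.st (ext n w (ι d)) (n + 1) = D.st d (n + 1) := by
    intro d hd
    rw [ext_at, (hι d hd).2]
  have hcv : ∀ d ∈ D.P (n + 1), D.Val (ext n w (ι d)) := fun d hd =>
    (ext_mem_P hwP (hι d hd).1).1
  have hvv : ∀ d ∈ D.P (n + 1), star (v d) * v d = D.E b (n + 1) d d := by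
    intro d hd
    change star (D.E b (n + 1) _ d) * D.E b (n + 1) _ d = _
    rw [star_E, E_mul (hcv d hd) (hst d hd).symm]
  have hev : ∀ d ∈ D.P (n + 1), e * v d = v d := by
    intro d hd
    have h1 : e = ∑ i ∈ Finset.range (D.od n (D.st w n)),
        D.E b (n + 1) (ext n w i) (ext n w i) := E_succ vw rfl
    rw [h1, Finset.sum_mul, Finset.sum_eq_single_of_mem (ι d) (Finset.mem_range.2 (hι d hd).1)]
    · exact E_mul (hcv d hd) rfl
    · intro i _ hi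
      apply E_mul_zero
      intro h2
      have h3 := h2 n (Nat.lt_succ_self n)
      rw [ext_self, ext_self] at h3
      exact hi h3
  have hvn : ∀ ξ : H, ∑ d ∈ D.Pf (n + 1), ‖v d ξ‖ ^ 2 ≤ ‖ξ‖ ^ 2 := by
    intro ξ
    have h1 : ∀ d ∈ D.Pf (n + 1), ‖v d ξ‖ ^ 2 = RCLike.re ⟪D.E b (n + 1) d d ξ, ξ⟫_ℂ := by
      intro d hd
      rw [← hvv d (mem_Pf.1 hd), mul_app, ContinuousLinearMap.star_eq_adjoint,
        ContinuousLinearMap.adjoint_inner_left, inner_self_eq_norm_sq]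
    rw [Finset.sum_congr rfl h1, ← map_sum, ← sum_inner, ← sum_apply, sum_E, I1_pj.normsq]
    have := (I1_pj (D := D) (b := b)).norm_le ξ
    gcongr
  set z := ∑ d ∈ D.Pf (n + 1), star (v d) * (e * x * e) * v d with hz
  have hzJ : z ∈ J := by
    refine hsum _ _ fun d _ => ?_
    have h1 : e * x * e ∈ J := (hmul _ (hmul x hxJ e heA).2 e heA).1
    exact (hmul _ (hmul _ h1 _ (star_mem (hvm d))).2 _ (hvm d)).1
  have hzα : z - (α : ℂ) • D.I1 b = ∑ d ∈ D.Pf (n + 1), star (v d) * r * v d := by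
    rw [hz, ← sum_E (D := D) (b := b) (n + 1), Finset.smul_sum, ← Finset.sum_sub_distrib]
    refine Finset.sum_congr rfl fun d hd => ?_
    rw [hr, mul_sub, sub_mul, mul_smul_comm, smul_mul_assoc, mul_assoc (star (v d)) e,
      hev d (mem_Pf.1 hd), hvv d (mem_Pf.1 hd)]
  have hzn : ‖z - (α : ℂ) • D.I1 b‖ ≤ α / 4 := by
    rw [hzα]
    exact (norm_sum_conj _ v r hvn).trans hrn
  -- the unit
  have hα0 : (α : ℂ) ≠ 0 := by exact_mod_cast hαpos.ne'
  set z' := ((α : ℂ)⁻¹ • D.I1 b) * z with hz'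
  have hz'J : z' ∈ J := (hmul z hzJ _ (SMulMemClass.smul_mem _ I1_mem_AA)).2
  have hz'A := hJ hz'J
  set t := D.I1 b - z' with ht
  have htn : ‖t‖ < 1 := by
    have h1 : t = -((α : ℂ)⁻¹ • (z - (α : ℂ) • D.I1 b)) := by
      rw [ht, hz', smul_mul_assoc, (AA_I1 (hJ hzJ)).1, smul_sub, smul_smul,
        inv_mul_cancel₀ hα0, one_smul]
      abel
    rw [h1, norm_neg, norm_smul, norm_inv, Complex.norm_real, Real.norm_of_nonneg hαpos.le]
    calc α⁻¹ * ‖z - (α : ℂ) • D.I1 b‖ ≤ α⁻¹ * (α / 4) := by gcongr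
      _ = 1 / 4 := by field_simp
      _ < 1 := by norm_num
  have htA : t ∈ D.AA b := sub_mem I1_mem_AA hz'A
  have htpow : ∀ k : ℕ, t ^ (k + 1) ∈ D.AA b ∧ D.I1 b - t ^ (k + 1) ∈ J := by
    intro k
    induction k with
    | zero =>
      rw [zero_add, pow_one]
      refine ⟨htA, ?_⟩
      rw [ht, sub_sub_cancel]
      exact hz'J
    | succ k ih =>
      have h1 : t ^ (k + 1 + 1) ∈ D.AA b := by
        rw [pow_succ]
        exact mul_mem ih.1 htA
      refine ⟨h1, ?_⟩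
      have h2 : D.I1 b - t ^ (k + 1 + 1) = (D.I1 b - t ^ (k + 1)) + t ^ (k + 1) * z' := by
        have h3 : z' = D.I1 b - t := by rw [ht, sub_sub_cancel]
        rw [h3, mul_sub, (AA_I1 ih.1).2, ← pow_succ]
        abel
      rw [h2]
      exact hadd _ ih.2 _ (hmul z' hz'J _ ih.1).2
  have hI : D.I1 b ∈ J := by
    have h1 : Filter.Tendsto (fun k : ℕ => D.I1 b - t ^ (k + 1)) Filter.atTop
        (nhds (D.I1 b - 0)) := by
      refine tendsto_const_nhds.sub ?_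
      exact (tendsto_pow_atTop_nhds_zero_of_norm_lt_one htn).comp (Filter.tendsto_add_atTop_nat 1)
    rw [sub_zero] at h1
    exact hcl.mem_of_tendsto h1 (Filter.Eventually.of_forall fun k => (htpow k).2)
  refine Set.Subset.antisymm hJ fun y hy => ?_
  have h1 := (hmul _ hI y hy).2
  rwa [(AA_I1 hy).2] at h1

end Dg

end Pool.Agent.L7h66.SA
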